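import Pool.Agent.Work.MP_76dc41_al.RI.Stmts

set_option autoImplicit false
set_option linter.unusedSectionVars false

open Module Representation Pool.Agent.DC7914

namespace Pool.Agent.RadIndex.RI

open Pool.Agent Pool.Agent.RadIndex

namespace IASM

/-- the product of the inequalities of the factors -/
theorem num_ineq {ι : Type} [Fintype ι] [Nonempty ι] (s t r : ℕ) (hr : 8 * r + 2 * t ≤ 3 * s)
    (a n : ι → ℕ) (τ ζ : ι → ℝ) (hτ : ∀ i, 0 < τ i) (hζ : ∀ i, 0 < ζ i) (hn : ∀ i, 0 < n i)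
    (h : ∀ i, 16 ^ (2 * t + s) * (4 * (a i : ℝ)) ^ (8 * s) * ζ i ^ (2 * (2 * t + s)) *
      (n i : ℝ) ^ (3 * s - 2 * t) ≤ (n i : ℝ) ^ (8 * s) * τ i ^ (2 * (3 * s - 2 * t)))
    (K f hh z Z : ℕ) (hf : f = ∏ i, n i)
    (h2 : (K * f) ^ s ≤ (∏ i, 4 * a i) ^ s * (hh ^ r * z ^ t)) (hz : z * Z = hh)
    (i : ℝ) (hzi : (z : ℝ) ≤ i) (hpos : 0 < hh) :
    16 ^ (2 * t + s) * (K : ℝ) ^ (8 * s) * (∏ j, ζ j) ^ (2 * (2 * t + s)) *
      (f : ℝ) ^ (3 * s - 2 * t) ≤
    i ^ (3 * (2 * t + s)) * (Z : ℝ) ^ (3 * s - 2 * t) * (∏ j, τ j) ^ (2 * (3 * s - 2 * t)) := by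
  set e := 3 * s - 2 * t with he
  have hζp : 0 < ∏ j, ζ j := Finset.prod_pos fun i _ => hζ i
  have hτp : 0 < ∏ j, τ j := Finset.prod_pos fun i _ => hτ i
  have hfp : (0 : ℝ) < f := by
    rw [hf]
    exact_mod_cast Finset.prod_pos fun i _ => hn i
  have hA : ((∏ i, 4 * a i : ℕ) : ℝ) = ∏ i, (4 * (a i : ℝ)) := by push_cast; rfl
  have hfR : (f : ℝ) = ∏ i, (n i : ℝ) := by rw [hf]; push_cast; rfl
  have hA0 : (0 : ℝ) ≤ ∏ i, (4 * (a i : ℝ)) := Finset.prod_nonneg fun i _ => by positivity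
  have h1 : (16 : ℝ) ^ (2 * t + s) * (∏ i, (4 * (a i : ℝ))) ^ (8 * s) *
      (∏ j, ζ j) ^ (2 * (2 * t + s)) * (f : ℝ) ^ e ≤ (f : ℝ) ^ (8 * s) * (∏ j, τ j) ^ (2 * e) := by
    have h3 := Finset.prod_le_prod (s := Finset.univ)
      (fun i _ => by
        have := hζ i
        positivity) (fun i _ => h i)
    simp only [Finset.prod_mul_distrib, Finset.prod_pow] at h3
    rw [← hfR] at h3
    refine le_trans ?_ h3
    have h4 : (16 : ℝ) ^ (2 * t + s) ≤ ∏ _i : ι, (16 : ℝ) ^ (2 * t + s) := by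
      rw [Finset.prod_const]
      have : 1 ≤ (Finset.univ : Finset ι).card := Finset.card_pos.2 Finset.univ_nonempty
      calc (16 : ℝ) ^ (2 * t + s) = ((16 : ℝ) ^ (2 * t + s)) ^ 1 := (pow_one _).symm
        _ ≤ _ := pow_le_pow_right₀ (one_le_pow₀ (by norm_num)) this
    have h5 : ∏ i, (4 * (a i : ℝ)) = (∏ _i : ι, (4 : ℝ)) * ∏ i, (a i : ℝ) :=
      Finset.prod_mul_distrib
    rw [Finset.prod_const] at h4
    simp only [Finset.prod_const] at h5 ⊢
    rw [h5]
    have h6 : (16 : ℝ) ^ (2 * t + s) ≤ (16 ^ (Finset.univ : Finset ι).card) ^ (2 * t + s) := by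
      rw [pow_right_comm]
      exact h4
    have hfac : (0 : ℝ) ≤ (4 ^ (Finset.univ : Finset ι).card * ∏ i, (a i : ℝ)) ^ (8 * s) := by
      positivity
    gcongr
  have h2R : ((K : ℝ) * f) ^ s ≤ (∏ i, (4 * (a i : ℝ))) ^ s * ((hh : ℝ) ^ r * (z : ℝ) ^ t) := by
    rw [← hA]
    exact_mod_cast h2
  have h3 : ((K : ℝ) * f) ^ (8 * s) ≤
      (∏ i, (4 * (a i : ℝ))) ^ (8 * s) * ((hh : ℝ) ^ (8 * r) * (z : ℝ) ^ (8 * t)) := by
    calc ((K : ℝ) * f) ^ (8 * s) = (((K : ℝ) * f) ^ s) ^ 8 := by rw [← pow_mul, mul_comm s 8]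
      _ ≤ ((∏ i, (4 * (a i : ℝ))) ^ s * ((hh : ℝ) ^ r * (z : ℝ) ^ t)) ^ 8 := by gcongr
      _ = _ := by
        rw [mul_pow, mul_pow, ← pow_mul, ← pow_mul, ← pow_mul, mul_comm s 8, mul_comm r 8,
          mul_comm t 8]
  have hhR : (1 : ℝ) ≤ hh := by exact_mod_cast hpos
  have h4 : (hh : ℝ) ^ (8 * r) * (z : ℝ) ^ (8 * t) ≤ i ^ (3 * (2 * t + s)) * (Z : ℝ) ^ e := by
    have h5 : (hh : ℝ) ^ (8 * r) ≤ (hh : ℝ) ^ e := pow_le_pow_right₀ hhR (by omega)
    calc (hh : ℝ) ^ (8 * r) * (z : ℝ) ^ (8 * t) ≤ (hh : ℝ) ^ e * (z : ℝ) ^ (8 * t) := by gcongr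
      _ = (z : ℝ) ^ (3 * (2 * t + s)) * (Z : ℝ) ^ e := by
        rw [← hz]
        push_cast
        rw [mul_pow, mul_right_comm, ← pow_add]
        congr 2
        omega
      _ ≤ _ := by gcongr
  have h6 : ((16 : ℝ) ^ (2 * t + s) * (K : ℝ) ^ (8 * s) * (∏ j, ζ j) ^ (2 * (2 * t + s)) *
      (f : ℝ) ^ e) * (f : ℝ) ^ (8 * s) ≤
      (i ^ (3 * (2 * t + s)) * (Z : ℝ) ^ e * (∏ j, τ j) ^ (2 * e)) * (f : ℝ) ^ (8 * s) := by
    calc ((16 : ℝ) ^ (2 * t + s) * (K : ℝ) ^ (8 * s) * (∏ j, ζ j) ^ (2 * (2 * t + s)) *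
        (f : ℝ) ^ e) * (f : ℝ) ^ (8 * s)
        = ((K : ℝ) * f) ^ (8 * s) * ((16 : ℝ) ^ (2 * t + s) * (∏ j, ζ j) ^ (2 * (2 * t + s)) *
            (f : ℝ) ^ e) := by rw [mul_pow]; ring
      _ ≤ ((∏ i, (4 * (a i : ℝ))) ^ (8 * s) * ((hh : ℝ) ^ (8 * r) * (z : ℝ) ^ (8 * t))) *
            ((16 : ℝ) ^ (2 * t + s) * (∏ j, ζ j) ^ (2 * (2 * t + s)) * (f : ℝ) ^ e) := by gcongr
      _ = ((16 : ℝ) ^ (2 * t + s) * (∏ i, (4 * (a i : ℝ))) ^ (8 * s) *
            (∏ j, ζ j) ^ (2 * (2 * t + s)) * (f : ℝ) ^ e) *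
            ((hh : ℝ) ^ (8 * r) * (z : ℝ) ^ (8 * t)) := by ring
      _ ≤ ((f : ℝ) ^ (8 * s) * (∏ j, τ j) ^ (2 * e)) *
            (i ^ (3 * (2 * t + s)) * (Z : ℝ) ^ e) := by gcongr
      _ = _ := by ring
  exact le_of_mul_le_mul_right h6 (by positivity)

theorem sum_sq_le {α : Type} (s : Finset α) (f : α → ℝ) (h : ∀ i ∈ s, 0 ≤ f i) :
    ∑ i ∈ s, f i ^ 2 ≤ (∑ i ∈ s, f i) ^ 2 := by
  classical
  induction s using Finset.induction_on with
  | empty => simp
  | insert a s ha ih =>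
    rw [Finset.sum_insert ha, Finset.sum_insert ha]
    have h1 := ih fun i hi => h i (Finset.mem_insert_of_mem hi)
    have h2 := h a (Finset.mem_insert_self a s)
    have h3 : 0 ≤ ∑ i ∈ s, f i := Finset.sum_nonneg fun i hi => h i (Finset.mem_insert_of_mem hi)
    nlinarith

/-- the preimage of `K`, modulo `N`, is `K` -/
theorem exists_equiv {G : Type} [Group G] (N : Subgroup G) [N.Normal] (K : Subgroup (G ⧸ N)) :
    Nonempty ((K.comap (QuotientGroup.mk' N)) ⧸ N.subgroupOf (K.comap (QuotientGroup.mk' N)) ≃*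
      K) := by
  let f : K.comap (QuotientGroup.mk' N) →* K := (QuotientGroup.mk' N).subgroupComap K
  have hf : Function.Surjective f := by
    rintro ⟨y, hy⟩
    obtain ⟨x, rfl⟩ := QuotientGroup.mk'_surjective N y
    exact ⟨⟨x, hy⟩, rfl⟩
  have hk : N.subgroupOf (K.comap (QuotientGroup.mk' N)) = f.ker := by
    ext x
    rw [Subgroup.mem_subgroupOf, MonoidHom.mem_ker, Subtype.ext_iff]
    exact (QuotientGroup.eq_one_iff (N := N) (x : G)).symm
  exact ⟨(QuotientGroup.quotientMulEquivOfEq hk).trans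
    (QuotientGroup.quotientKerEquivOfSurjective f hf)⟩

/-- transport of the two normal subgroups -/
theorem transport {Q K : Type} [Group Q] [Group K] (e : Q ≃* K) (F Z : Subgroup K) [F.Normal]
    [Z.Normal] (hd : Disjoint F Z) (κ : ℕ) (hκ : ∀ V : Subgroup (K ⧸ (F ⊔ Z)), ACD8.kc V ≤ κ) :
    ∃ (F' Z' : Subgroup Q) (_ : F'.Normal) (_ : Z'.Normal), Disjoint F' Z' ∧
      Nonempty (F' ≃* F) ∧ Nonempty (Z' ≃* Z) ∧
      ∀ V : Subgroup (Q ⧸ (F' ⊔ Z')), ACD8.kc V ≤ κ := by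
  have hmap : ∀ X : Subgroup K, (X.comap e.toMonoidHom).map e.toMonoidHom = X := fun X =>
    Subgroup.map_comap_eq_self_of_surjective e.surjective X
  refine ⟨F.comap e.toMonoidHom, Z.comap e.toMonoidHom, inferInstance, inferInstance, ?_, ?_, ?_,
    ?_⟩
  · rw [Subgroup.disjoint_def] at hd ⊢
    intro x h1 h2
    have := hd (x := e x) h1 h2
    exact (map_eq_one_iff e e.injective).1 this
  · exact ⟨(e.subgroupMap (F.comap e.toMonoidHom)).trans (MulEquiv.subgroupCongr (hmap F))⟩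
  · exact ⟨(e.subgroupMap (Z.comap e.toMonoidHom)).trans (MulEquiv.subgroupCongr (hmap Z))⟩
  · intro V
    have hm : (F.comap e.toMonoidHom ⊔ Z.comap e.toMonoidHom).map (e : Q →* K) = F ⊔ Z := by
      rw [Subgroup.map_sup]
      exact congrArg₂ _ (hmap F) (hmap Z)
    let e' := QuotientGroup.congr (F.comap e.toMonoidHom ⊔ Z.comap e.toMonoidHom) (F ⊔ Z) e hm
    rw [ACD8.kc_congr (e'.subgroupMap V)]
    exact hκ _

end IASM

open IASM

theorem pr_THM (hSTB : StSTB) (hCLI : StCLI) (hINV : StINV) (hNU0 : StNU0) (hACB : StACB)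
    (hGRP : StGRP) (hNSL : StNSL) (hPRF : StPRF) : StTHM := by
  classical
  intro s t r hs hst hr G _ _ N _ hN hS
  have := Fintype.ofFinite G
  have := Fintype.ofFinite N
  have hcard : (0 : ℝ) < Nat.card (G ⧸ N) := by exact_mod_cast Nat.card_pos
  obtain ⟨q, hq0, hq4⟩ : ∃ q : ℝ, 0 < q ∧ q ^ 4 = Nat.card (G ⧸ N) := by
    refine ⟨(Nat.card (G ⧸ N) : ℝ) ^ (1 / 4 : ℝ), by positivity, ?_⟩
    rw [← Real.rpow_natCast, ← Real.rpow_mul hcard.le]
    norm_num
  have key : ∀ l : N → ℂ, IsIrrChar l → q * ((ovr N l).card : ℝ) ≤ ∑ χ ∈ ovr N l, ‖χ 1‖ := by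
    intro l hl
    have hl1 : 1 ≤ ‖l 1‖ := one_le_deg hl
    have hS0 : 0 ≤ ∑ χ ∈ ovr N l, ‖χ 1‖ := Finset.sum_nonneg fun _ _ => norm_nonneg _
    -- it is enough to have the bound for the relative degrees
    suffices h : q * ((ovr N l).card : ℝ) * ‖l 1‖ ≤ ∑ χ ∈ ovr N l, ‖χ 1‖ by
      refine le_trans ?_ h
      have : 0 ≤ q * ((ovr N l).card : ℝ) := by positivity
      nlinarith
    obtain ⟨hb1, hb2, -, -, -⟩ := prf_BLOCK G N l hl
    obtain ⟨K, hK, hidx, hck⟩ := hSTB G N l hl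
    obtain ⟨ι, _, S, hι, F, Z, _, _, hd, ⟨eF⟩, κ, h, z, hκ, hkey, hz, hzi, hh⟩ :=
      hGRP s t r (G ⧸ N) hN (fun S h1 h2 => (hS S h1 h2).1) K
    have hidx1 : (1 : ℝ) ≤ K.index := by
      exact_mod_cast Nat.pos_of_ne_zero K.index_ne_zero_of_finite
    have hU : (K.index : ℝ) * Nat.card K = Nat.card (G ⧸ N) := by
      exact_mod_cast K.index_mul_card
    rcases isEmpty_or_nonempty ι with hE | hE
    · -- no rich factor
      have hF1 : F = ⊥ := by
        have : Nat.card F = 1 := by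
          rw [Nat.card_congr eF.toEquiv]
          exact Nat.card_unique
        exact Subgroup.card_eq_one.1 this
      have hk : ACD8.kc K ≤ ACD8.kc Z * κ := by
        have h1 := ACD8.kc_quot (F ⊔ Z)
        have h2 : ACD8.kc (F ⊔ Z : Subgroup K) = ACD8.kc Z :=
          ACD8.kc_congr (MulEquiv.subgroupCongr (by rw [hF1, bot_sup_eq]))
        have h3 : ACD8.kc (K ⧸ (F ⊔ Z)) ≤ κ := by
          rw [ACD8.kc_congr (Subgroup.topEquiv (G := K ⧸ (F ⊔ Z))).symm]
          exact hκ ⊤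
        calc ACD8.kc K ≤ ACD8.kc (F ⊔ Z : Subgroup K) * ACD8.kc (K ⧸ (F ⊔ Z)) := h1
          _ ≤ ACD8.kc Z * κ := by rw [h2]; gcongr
      have hks : ACD8.kc K ^ s ≤ Nat.card (G ⧸ N) ^ r * K.index ^ t := by
        calc ACD8.kc K ^ s ≤ (ACD8.kc Z * κ) ^ s := by gcongr
          _ = (κ * ACD8.kc Z * Nat.card F) ^ s := by
            rw [hF1, Subgroup.card_bot]
            ring
          _ ≤ _ := hkey
          _ = h ^ r * z ^ t := by simp
          _ ≤ _ := by gcongr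
      by_cases hc : (ovr N l).card = 0
      · rw [hc]
        simpa using hS0
      have hc1 : (1 : ℝ) ≤ (ovr N l).card := by exact_mod_cast Nat.pos_of_ne_zero hc
      have hlp : 0 < ‖l 1‖ := by linarith
      have hmain := hNU0 s t r hs hst hr (Nat.card (G ⧸ N)) K.index (ACD8.kc K) (ovr N l).card
        ((∑ χ ∈ ovr N l, ‖χ 1‖) / ‖l 1‖) q (by exact_mod_cast Nat.card_pos) hidx1 hc1 hq0 hq4
        (by
          rw [le_div_iff₀ hlp]
          calc (K.index : ℝ) * (ovr N l).card * ‖l 1‖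
              = ∑ χ ∈ ovr N l, ((orb N l).card : ℝ) * ‖l 1‖ := by
                rw [Finset.sum_const, nsmul_eq_mul, hidx]
                ring
            _ ≤ _ := Finset.sum_le_sum hb1)
        (by
          rw [div_pow, le_div_iff₀ (by positivity)]
          calc (Nat.card (G ⧸ N) : ℝ) * K.index * ‖l 1‖ ^ 2
              = ∑ χ ∈ ovr N l, ‖χ 1‖ ^ 2 := by rw [← hb2, hidx]; ring
            _ ≤ _ := sum_sq_le _ _ fun _ _ => norm_nonneg _)
        (by exact_mod_cast hck) (by exact_mod_cast hks)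
      rw [le_div_iff₀ hlp] at hmain
      exact hmain
    · -- rich factors
      have hR : ∀ j, RichT s t (S j) := fun j =>
        ((hS (S j) (hι j).1 (hι j).2.1).2).resolve_left (hι j).2.2
      choose τ ζ hτ hζ hRich hT using hR
      set L : Subgroup G := K.comap (QuotientGroup.mk' N) with hL
      have hNL : N ≤ L := by
        intro x hx
        rw [hL, Subgroup.mem_comap, QuotientGroup.mk'_apply, (QuotientGroup.eq_one_iff x).2 hx]
        exact K.one_mem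
      have hLm : ∀ g : G, g ∈ L ↔ cj g l = l := fun g => hK g
      have := Fintype.ofFinite L
      have := Fintype.ofFinite (N.subgroupOf L)
      obtain ⟨c1, c2⟩ := hCLI G N L hNL l hl hLm
      have hLi : L.index = K.index :=
        K.index_comap_of_surjective (QuotientGroup.mk'_surjective N)
      obtain ⟨e⟩ := exists_equiv N K
      obtain ⟨F', Z', _, _, hd', ⟨eF'⟩, ⟨eZ'⟩, hκ'⟩ := transport e F Z hd κ hκ
      have hcardQ : Nat.card (L ⧸ N.subgroupOf L) = Nat.card K := Nat.card_congr e.toEquiv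
      have hfc : Nat.card F' = ∏ j, Nat.card (S j) := by
        rw [Nat.card_congr (eF'.trans eF).toEquiv, Nat.card_pi]
      have hFF : Nat.card F = Nat.card F' := (Nat.card_congr eF'.toEquiv).symm
      have hinv : ∀ g : L, cj g (down hNL l) = down hNL l := by
        intro g
        have h1 := (hLm g).1 g.2
        ext x
        have h2 := congrFun h1 (Subgroup.subgroupOfEquivOfLe hNL x)
        exact h2
      have hperf : ∀ j, ∀ f : S j →* ℂˣ, f = 1 := fun j =>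
        hPRF (S j) (hι j).2.1 (hNSL (G ⧸ N) hN (S j) (hι j).1 (hι j).2.1)
      have hhpos : 0 < h := by
        rcases Nat.eq_zero_or_pos h with h0 | h0
        · exfalso
          have hz0 : z = 0 := by
            rcases Nat.mul_eq_zero.1 (hz.trans h0) with h1 | h1
            · exact h1
            · exact absurd h1 Nat.card_pos.ne'
          have ht : t ≠ 0 := by omega
          rw [hz0, zero_pow ht, mul_zero, mul_zero, Nat.le_zero, pow_eq_zero_iff hs.ne'] at hkey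
          have hκ1 : 0 < κ := lt_of_lt_of_le (ACD8.kc_pos _) (hκ ⊤)
          have := ACD8.kc_pos Z
          have := Nat.card_pos (α := F)
          have : 0 < κ * ACD8.kc Z * Nat.card F := by positivity
          omega
        · exact h0
      have hmain := hINV s t hs hst (by omega) L (N.subgroupOf L) (down hNL l)
        (BIJ_down_irr hNL hl) hinv F' Z' hd' ι (fun j => S j) ⟨eF'.trans eF⟩ hperf τ ζ hτ hζ hRich
        κ hκ' K.index q hidx1 hq0 (by rw [hcardQ, hU, hq4])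
        (by
          have h1 := num_ineq s t r hr (fun j => Nat.card (MulAut (S j))) (fun j => Nat.card (S j))
            τ ζ hτ hζ (fun j => Nat.card_pos) hT (κ * ACD8.kc Z') (Nat.card F') h z (Nat.card Z')
            hfc (by
              have h2 : ACD8.kc Z' = ACD8.kc Z := ACD8.kc_congr eZ'
              rw [h2, ← hFF]
              exact hkey)
            (by rw [Nat.card_congr eZ'.toEquiv]; exact hz) K.index (by exact_mod_cast hzi) hhpos
          push_cast at h1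
          exact h1)
      rw [← c1] at hmain
      have hd1 : ‖down hNL l 1‖ = ‖l 1‖ := rfl
      rw [hd1] at hmain
      rw [c2, hLi]
      exact hmain
  have h1 := hACB G N q hq0.le key
  rw [← hq4]
  gcongr

end Pool.Agent.RadIndex.RI
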