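import Pool.Agent.Work.MP_76dc41_al.H8.Defs

/-!
# Rich simple factors: the definitions used in the statement
-/

set_option autoImplicit false

namespace Pool.Agent.RadAlt

/-- `S` is isomorphic to `PSL_2(F)` for a finite field `F` with at least `c` elements -/
def IsPSL2 (c : ℕ) (S : Type) [Group S] : Prop :=
  ∃ (F : Type) (_ : Field F) (_ : Finite F), c ≤ Nat.card F ∧
    Nonempty (S ≃* Matrix.ProjectiveSpecialLinearGroup (Fin 2) F)

/-- the irreducible characters of `G` whose restriction to `N` contains `l` -/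
def Over {G : Type} [Group G] (N : Subgroup G) (l : N → ℂ) : Set (G → ℂ) :=
  {χ | χ ∈ Irr G ∧ ∑ᶠ n : N, χ (n : G) * l n⁻¹ ≠ 0}

/-- for all finite `G`, normal `N` with `G / N` isomorphic to `S`, and `l` in `Irr N` invariant
under `G`: over the irreducible characters `χ` of `G` lying over `l`, the sum of `χ(1) / l(1)` is at
least `u` and the sum of `l(1) / χ(1)` is at most `v` -/
def Rich (S : Type) [Group S] (u v : ℝ) : Prop :=
  ∀ (G : Type) [Group G] [Finite G] (N : Subgroup G) [N.Normal] (l : N → ℂ),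
    Nonempty (G ⧸ N ≃* S) → l ∈ Irr N → (∀ (g : G) (n : N), l (MulAut.conjNormal g n) = l n) →
    u ≤ ∑ᶠ χ ∈ Over N l, (χ 1).re / (l 1).re ∧ ∑ᶠ χ ∈ Over N l, (l 1).re / (χ 1).re ≤ v

/-- with `a = 4 |Aut S|`: the bound `(a k(Y))^s ≤ |S|^(s+r) |S : Y|^t` for all proper subgroups
`Y`, and the weaker bound `(a^2 k(S))^s ≤ |S|^(2s+2r+t)` for `S` -/
def LocBound (s t r : ℕ) (S : Type) [Group S] : Prop :=
  (∀ Y : Subgroup S, Y ≠ ⊤ →
    (4 * Nat.card (MulAut S) * kcl Y) ^ s ≤ Nat.card S ^ (s + r) * Y.index ^ t) ∧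
  ((4 * Nat.card (MulAut S)) ^ 2 * kcl S) ^ s ≤ Nat.card S ^ (2 * s + 2 * r + t)

/-- with `a = 4 |Aut S|`: `(a k(S))^s ≤ |S|^(s+r)` -/
def FewCl (s r : ℕ) (S : Type) [Group S] : Prop :=
  (4 * Nat.card (MulAut S) * kcl S) ^ s ≤ Nat.card S ^ (s + r)

/-- with `a = 4 |Aut S|`: `Rich S u v` for some `u, v > 0` with
`16^(2t+s) a^(8s) v^(2(2t+s)) |S|^(3s-2t) ≤ |S|^(8s) u^(2(3s-2t))` -/
def ManyChars (s t : ℕ) (S : Type) [Group S] : Prop :=
  ∃ u v : ℝ, 0 < u ∧ 0 < v ∧ Rich S u v ∧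
    16 ^ (2 * t + s) * (4 * (Nat.card (MulAut S) : ℝ)) ^ (8 * s) * v ^ (2 * (2 * t + s)) *
      (Nat.card S : ℝ) ^ (3 * s - 2 * t) ≤
    (Nat.card S : ℝ) ^ (8 * s) * u ^ (2 * (3 * s - 2 * t))

end Pool.Agent.RadAlt
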