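import Pool.Agent.Work.MP_76dc41_al.RI.Stmts
import Pool.Agent.Work.MP_76dc41_al.RI.Defs

set_option autoImplicit false
set_option linter.unusedSectionVars false

open Module Representation Pool.Agent.DC7914

namespace Pool.Agent.RadIndex.RI

open Pool.Agent Pool.Agent.RadIndex

namespace IBR

theorem irr_iff {G : Type} [Group G] (χ : G → ℂ) : χ ∈ RadAlt.Irr G ↔ IsIrrChar χ := by
  constructor
  · rintro ⟨n, ρ, h, e⟩
    exact ⟨n, ρ, h, e.symm⟩
  · rintro ⟨n, ρ, h, e⟩
    exact ⟨n, ρ, h, e.symm⟩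

theorem re_deg {G : Type} [Group G] {χ : G → ℂ} (h : IsIrrChar χ) : (χ 1).re = ‖χ 1‖ := by
  obtain ⟨n, -, hn⟩ := h.degree
  rw [hn]
  simp

theorem over_eq {G : Type} [Group G] [Fintype G] (N : Subgroup G) [N.Normal] [Fintype N]
    (l : N → ℂ) : RadAlt.Over N l = (ovr N l : Set (G → ℂ)) := by
  classical
  ext χ
  have h1 : ∑ᶠ n : N, χ (n : G) * l n⁻¹ = mu χ l := by
    rw [finsum_eq_sum_of_fintype]
    unfold mu
    refine Fintype.sum_equiv (Equiv.inv N) _ _ fun n => ?_
    rw [Equiv.inv_apply, inv_inv, mul_comm]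
  unfold RadAlt.Over ovr
  simp only [Set.mem_ofPred_eq, h1, Finset.coe_filter, mem_irrs, irr_iff]

theorem sum_over {G : Type} [Group G] [Fintype G] (N : Subgroup G) [N.Normal] [Fintype N]
    (l : N → ℂ) (f : (G → ℂ) → ℝ) : ∑ᶠ χ ∈ RadAlt.Over N l, f χ = ∑ χ ∈ ovr N l, f χ := by
  rw [over_eq]
  exact finsum_mem_coe_finset f (ovr N l)

theorem rich_iff {S : Type} [Group S] {u v : ℝ} : RadAlt.Rich S u v ↔ Rich S u v := by
  classical
  constructor
  · intro h G _ _ N _ _ l hiso hl hinv
    obtain ⟨h1, h2⟩ := h G N l hiso ((irr_iff l).2 hl) (fun g n => congrFun (hinv g) n)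
    rw [sum_over] at h1 h2
    have hl1 := one_le_deg hl
    have hl0 : 0 < ‖l 1‖ := by linarith
    constructor
    · rw [← Finset.sum_div, le_div_iff₀ (by rw [re_deg hl]; exact hl0), re_deg hl] at h1
      refine h1.trans (le_of_eq ?_)
      refine Finset.sum_congr rfl fun χ hχ => re_deg ?_
      unfold ovr at hχ
      rw [Finset.mem_filter, mem_irrs] at hχ
      exact hχ.1
    · refine le_trans (le_of_eq ?_) h2
      refine Finset.sum_congr rfl fun χ hχ => ?_
      unfold ovr at hχ
      rw [Finset.mem_filter, mem_irrs] at hχ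
      rw [re_deg hl, re_deg hχ.1]
  · intro h G _ _ N _ l hiso hl hinv
    have := Fintype.ofFinite G
    have := Fintype.ofFinite N
    have hl' := (irr_iff l).1 hl
    obtain ⟨h1, h2⟩ := h G N l hiso hl' (fun g => funext fun n => hinv g n)
    rw [sum_over, sum_over]
    have hl1 := one_le_deg hl'
    have hl0 : 0 < ‖l 1‖ := by linarith
    constructor
    · rw [← Finset.sum_div, le_div_iff₀ (by rw [re_deg hl']; exact hl0), re_deg hl']
      refine h1.trans (le_of_eq ?_)
      refine Finset.sum_congr rfl fun χ hχ => (re_deg ?_).symm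
      unfold ovr at hχ
      rw [Finset.mem_filter, mem_irrs] at hχ
      exact hχ.1
    · refine le_trans (le_of_eq ?_) h2
      refine Finset.sum_congr rfl fun χ hχ => ?_
      unfold ovr at hχ
      rw [Finset.mem_filter, mem_irrs] at hχ
      rw [re_deg hl', re_deg hχ.1]

theorem rich_congr {S T : Type} [Group S] [Group T] (e : S ≃* T) {u v : ℝ} (h : Rich T u v) :
    Rich S u v := by
  intro G _ _ N _ _ l hiso hl hinv
  obtain ⟨e'⟩ := hiso
  exact h G N l ⟨e'.trans e⟩ hl hinv

theorem lc_congr {s t r : ℕ} {S T : Type} [Group S] [Group T] (e : S ≃* T) (h : Lc s t r T) :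
    Lc s t r S := by
  obtain ⟨h1, h2⟩ := h
  have hA : Nat.card (MulAut S) = Nat.card (MulAut T) := Nat.card_congr (MulAut.congr e).toEquiv
  have hS : Nat.card S = Nat.card T := Nat.card_congr e.toEquiv
  refine ⟨?_, ?_⟩
  · intro Y hY
    have h3 := h1 (Y.map e.toMonoidHom) (by
      intro h4
      apply hY
      have h5 := congrArg (Subgroup.comap e.toMonoidHom) h4
      rwa [Subgroup.comap_map_eq_self_of_injective e.injective, Subgroup.comap_top] at h5)
    have h6 : ACD8.kc (Y.map e.toMonoidHom) = ACD8.kc Y :=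
      (ACD8.kc_congr (e.subgroupMap Y)).symm
    have h7 : (Y.map e.toMonoidHom).index = Y.index := Y.index_map_equiv e
    rw [hA, hS, ← h6, ← h7]
    exact h3
  · rw [hA, hS, ACD8.kc_congr e]
    exact h2

theorem richT_congr {s t : ℕ} {S T : Type} [Group S] [Group T] (e : S ≃* T)
    (h : RichT s t T) : RichT s t S := by
  obtain ⟨τ, ζ, h1, h2, h3, h4⟩ := h
  have hA : Nat.card (MulAut S) = Nat.card (MulAut T) := Nat.card_congr (MulAut.congr e).toEquiv
  have hS : Nat.card S = Nat.card T := Nat.card_congr e.toEquiv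
  refine ⟨τ, ζ, h1, h2, rich_congr e h3, ?_⟩
  rw [hA, hS]
  exact h4

/-- the old local condition gives the two new ones -/
theorem lc_of_loc {s t r : ℕ} {S : Type} [Group S]
    (h : ∀ Y : Subgroup S, (4 * Nat.card (MulAut S) * ACD8.kc Y) ^ s ≤
      Nat.card S ^ (s + r) * Y.index ^ t) : Lc s t r S ∧ Few s r S := by
  have h1 : Few s r S := by
    have h2 := h ⊤
    rw [Subgroup.index_top, one_pow, mul_one, ACD8.kc_congr Subgroup.topEquiv] at h2
    exact h2
  refine ⟨⟨fun Y _ => h Y, ?_⟩, h1⟩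
  have h3 := h ⊥
  rw [Subgroup.index_bot, ACD8.kc_subsingleton, mul_one] at h3
  calc ((4 * Nat.card (MulAut S)) ^ 2 * ACD8.kc S) ^ s
      = (4 * Nat.card (MulAut S) * ACD8.kc S) ^ s * (4 * Nat.card (MulAut S)) ^ s := by
        rw [← mul_pow]
        ring
    _ ≤ Nat.card S ^ (s + r) * (Nat.card S ^ (s + r) * Nat.card S ^ t) := Nat.mul_le_mul h1 h3
    _ = _ := by
        rw [← pow_add, ← pow_add]
        congr 1
        ring

end IBR

end Pool.Agent.RadIndex.RI
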