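import Pool.Agent.Work.MP_76dc41_al.RI.Stmts

/-!
# Item ACB (helper52): the average degree from the averages over the characters of `N`
-/

set_option autoImplicit false
set_option linter.unusedSectionVars false

open Module Representation Pool.Agent.DC7914

namespace Pool.Agent.RadIndex.RI

open Pool.Agent Pool.Agent.RadIndex

namespace IACB

theorem irr_eq (G : Type) [Group G] [Fintype G] : RadAlt.Irr G = (irrs G : Set (G → ℂ)) := by
  ext χ
  rw [Finset.mem_coe, mem_irrs]
  constructor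
  · rintro ⟨n, ρ, hρ, rfl⟩
    exact ⟨n, ρ, hρ, rfl⟩
  · rintro ⟨n, ρ, hρ, rfl⟩
    exact ⟨n, ρ, hρ, rfl⟩

theorem sum_eq (G : Type) [Group G] [Fintype G] :
    ∑ᶠ χ ∈ RadAlt.Irr G, (χ 1).re = ∑ χ ∈ irrs G, ‖χ 1‖ := by
  rw [irr_eq, finsum_mem_coe_finset]
  refine Finset.sum_congr rfl fun χ hχ => ?_
  have h1 := norm_deg (mem_irrs.1 hχ)
  rw [← h1, Complex.ofReal_re, h1]

theorem card_eq (G : Type) [Group G] [Fintype G] :
    Nat.card (RadAlt.Irr G) = (irrs G).card := by
  rw [irr_eq, Nat.card_coe_set_eq, Set.ncard_coe_finset]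

end IACB

/-- ACB -/
theorem pr_ACB : StACB := by
  classical
  intro G _ _ N _ _ β _ hb
  have hdat : ∀ χ : G → ℂ, ∃ O : Finset (N → ℂ), χ ∈ irrs G → (O.Nonempty ∧ (∀ l ∈ O, IsIrrChar l ∧
      orb N l = O ∧ χ ∈ WO (G := G) l ∧
      ∃ e : ℕ, 0 < e ∧ mu χ l = e * Nat.card N ∧ χ 1 = e * O.card * l 1) ∧
      ∀ l : N → ℂ, IsIrrChar l → mu χ l ≠ 0 → l ∈ O) := by
    intro χ
    by_cases h : χ ∈ irrs G
    · obtain ⟨O, hO⟩ := char_data (mem_irrs.1 h) N
      exact ⟨O, fun _ => hO⟩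
    · exact ⟨∅, fun h' => absurd h' h⟩
  choose O hO using hdat
  have hne : (irrs G).Nonempty := by
    by_contra h
    rw [Finset.not_nonempty_iff_eq_empty] at h
    have h1 := sum_deg (G := G) 1
    rw [h, Finset.sum_empty, if_pos rfl] at h1
    exact Fintype.card_ne_zero (by exact_mod_cast h1.symm)
  have hpos : (0 : ℝ) < (irrs G).card := by exact_mod_cast Finset.card_pos.2 hne
  have hNc : (Nat.card N : ℂ) ≠ 0 := by exact_mod_cast Nat.card_pos.ne'
  have hblock : ∀ P ∈ (irrs G).image O,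
      β * ((irrs G).filter (fun χ => O χ = P)).card ≤
        ∑ χ ∈ (irrs G).filter (fun χ => O χ = P), ‖χ 1‖ := by
    intro P hP
    obtain ⟨χ₀, h1, h2⟩ := Finset.mem_image.1 hP
    obtain ⟨l, hl⟩ := (hO χ₀ h1).1
    obtain ⟨hlirr, horb, -, -⟩ := (hO χ₀ h1).2.1 l hl
    rw [h2] at hl horb
    have hovr : ovr N l = (irrs G).filter (fun χ => O χ = P) := by
      ext χ
      rw [ovr, Finset.mem_filter, Finset.mem_filter]
      refine and_congr_right fun hχ => ?_
      constructor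
      · intro h
        have h3 := (hO χ hχ).2.2 l hlirr h
        have h4 := ((hO χ hχ).2.1 l h3).2.1
        rw [← h4, horb]
      · intro h
        obtain ⟨-, -, -, e, he, hmu, -⟩ := (hO χ hχ).2.1 l (by rw [h]; exact hl)
        rw [hmu]
        exact mul_ne_zero (by exact_mod_cast he.ne') hNc
    rw [← hovr]
    exact hb l hlirr
  have htot : β * (irrs G).card ≤ ∑ χ ∈ irrs G, ‖χ 1‖ := by
    rw [← Finset.sum_fiberwise_of_maps_to (s := irrs G) (t := (irrs G).image O) (g := O)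
      (fun χ h => Finset.mem_image_of_mem O h) (fun χ => ‖χ 1‖),
      Finset.card_eq_sum_card_fiberwise (s := irrs G) (t := (irrs G).image O) (f := O)
      (fun χ h => Finset.mem_image_of_mem O h)]
    push_cast
    rw [Finset.mul_sum]
    exact Finset.sum_le_sum hblock
  unfold RadAlt.acd
  rw [IACB.sum_eq, IACB.card_eq, le_div_iff₀ hpos]
  exact htot

end Pool.Agent.RadIndex.RI
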