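import Pool.Agent.Work.MP_76dc41_al.RI.Stmts

/-!
# CLI: the Clifford correspondence for the stabiliser
-/

set_option autoImplicit false
set_option linter.unusedSectionVars false

open Module Representation Pool.Agent.DC7914

namespace Pool.Agent.RadIndex.RI

open Pool.Agent Pool.Agent.RadIndex

namespace ICLI

/-- the combinatorial core: rows -/
theorem row {α β : Type} (A : Finset α) (B : Finset β) (m : α → β → ℕ) (a : α → ℕ) (b : β → ℕ)
    (ha : ∀ x ∈ A, 0 < a x) (hb : ∀ y ∈ B, 0 < b y)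
    (h1 : ∀ x ∈ A, ∑ y ∈ B, m x y * b y = a x)
    (h2 : ∀ y ∈ B, ∑ x ∈ A, m x y * a x = b y) :
    ∀ x ∈ A, ∑ y ∈ B, m x y = 1 := by
  classical
  intro x hx
  have hne : ∃ y ∈ B, m x y ≠ 0 := by
    by_contra hc
    push Not at hc
    have h3 := h1 x hx
    rw [Finset.sum_eq_zero (fun y hy => by rw [hc y hy, zero_mul])] at h3
    exact absurd (ha x hx) (by omega)
  obtain ⟨y, hy, hm⟩ := hne
  have h4 : m x y * a x ≤ b y := by
    rw [← h2 y hy]
    exact Finset.single_le_sum (f := fun z => m z y * a z) (fun _ _ => Nat.zero_le _) hx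
  have h5 : m x y * b y + ∑ z ∈ B.erase y, m x z * b z = a x := by
    rw [← h1 x hx]
    exact Finset.add_sum_erase B (fun z => m x z * b z) hy
  have hay := ha x hx
  have hby := hb y hy
  have hm1 : 1 ≤ m x y := Nat.one_le_iff_ne_zero.2 hm
  have h6 : b y ≤ m x y * b y := Nat.le_mul_of_pos_left _ hm1
  have h7 : a x ≤ m x y * a x := Nat.le_mul_of_pos_left _ hm1
  have h8 : ∑ z ∈ B.erase y, m x z * b z = 0 := by omega
  have h9 : m x y * b y = b y := by omega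
  have h10 : m x y = 1 := by
    have : m x y * b y = 1 * b y := by rw [h9, one_mul]
    exact Nat.eq_of_mul_eq_mul_right hby this
  rw [← Finset.add_sum_erase B (fun z => m x z) hy, h10]
  have h11 : ∑ z ∈ B.erase y, m x z = 0 := by
    rw [Finset.sum_eq_zero_iff] at h8 ⊢
    intro z hz
    have h12 := h8 z hz
    have h13 := hb z (Finset.mem_of_mem_erase hz)
    rcases Nat.mul_eq_zero.1 h12 with h | h
    · exact h
    · omega
  rw [h11]

/-- the combinatorial core -/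
theorem core {α β : Type} (A : Finset α) (B : Finset β) (m : α → β → ℕ) (a : α → ℕ) (b : β → ℕ)
    (ha : ∀ x ∈ A, 0 < a x) (hb : ∀ y ∈ B, 0 < b y)
    (h1 : ∀ x ∈ A, ∑ y ∈ B, m x y * b y = a x)
    (h2 : ∀ y ∈ B, ∑ x ∈ A, m x y * a x = b y) :
    A.card = B.card ∧ ∑ x ∈ A, a x = ∑ y ∈ B, b y := by
  have hr := row A B m a b ha hb h1 h2
  have hc := row B A (fun y x => m x y) b a hb ha h2 h1
  constructor
  · have e1 : ∑ x ∈ A, ∑ y ∈ B, m x y = A.card := by
      rw [Finset.sum_congr rfl hr, Finset.sum_const, smul_eq_mul, mul_one]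
    have e2 : ∑ y ∈ B, ∑ x ∈ A, m x y = B.card := by
      rw [Finset.sum_congr rfl hc, Finset.sum_const, smul_eq_mul, mul_one]
    rw [← e1, ← e2, Finset.sum_comm]
  · rw [← Finset.sum_congr rfl h1, Finset.sum_comm]
    refine Finset.sum_congr rfl fun y hy => ?_
    rw [← Finset.sum_mul, hc y hy, one_mul]

theorem down_irr {G : Type} [Group G] {N A : Subgroup G} (h : N ≤ A) {l : N → ℂ}
    (hl : IsIrrChar l) : IsIrrChar (down h l) := by
  obtain ⟨n, ρ, hρ, rfl⟩ := hl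
  refine ⟨n, ρ.comp (Subgroup.subgroupOfEquivOfLe h).toMonoidHom, ?_, rfl⟩
  rw [DC7914.irreducible_iff] at hρ ⊢
  refine ⟨hρ.1, fun U hU => hρ.2 U fun x v hv => ?_⟩
  have := hU ((Subgroup.subgroupOfEquivOfLe h).symm x) v hv
  simpa using this

theorem down_one {G : Type} [Group G] {N A : Subgroup G} (h : N ≤ A) (l : N → ℂ) :
    down h l 1 = l 1 := by
  simp [down]

theorem down_cj {G : Type} [Group G] [Fintype G] {N A : Subgroup G} [N.Normal]
    (h : N ≤ A) {l : N → ℂ}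
    (hA : ∀ a ∈ A, cj a l = l) [Fintype A] (a : A) : cj a (down h l) = down h l := by
  funext x
  have h1 := congrFun (hA a a.2) (Subgroup.subgroupOfEquivOfLe h x)
  refine Eq.trans ?_ h1
  unfold cj down
  congr 1

/-- orbit and stabiliser -/
theorem orb_card {G : Type} [Group G] [Fintype G] (N : Subgroup G) [N.Normal] (L : Subgroup G)
    (l : N → ℂ) (hL : ∀ g : G, g ∈ L ↔ cj g l = l) : (orb N l).card = L.index := by
  have hinj : ∀ x y : G, cj x⁻¹ l = cj y⁻¹ l → y⁻¹ * x ∈ L := by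
    intro x y hxy
    rw [hL]
    have h1 : cj x (cj x⁻¹ l) = l := by rw [cj_cj, inv_mul_cancel, cj_id]
    rw [hxy, cj_cj] at h1
    exact h1
  let f : G ⧸ L → {m // m ∈ orb N l} := fun q => ⟨cj (Quotient.out q)⁻¹ l, mem_orb.2 ⟨_, rfl⟩⟩
  have hf : Function.Bijective f := by
    constructor
    · intro q q' hq
      have h1 : cj (Quotient.out q)⁻¹ l = cj (Quotient.out q')⁻¹ l := congrArg Subtype.val hq
      have h2 := hinj _ _ h1
      have h3 : (QuotientGroup.mk (Quotient.out q') : G ⧸ L) = QuotientGroup.mk (Quotient.out q) :=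
        QuotientGroup.eq.2 h2
      rw [QuotientGroup.out_eq', QuotientGroup.out_eq'] at h3
      exact h3.symm
    · rintro ⟨m, hm⟩
      obtain ⟨g, rfl⟩ := mem_orb.1 hm
      refine ⟨QuotientGroup.mk g⁻¹, Subtype.ext ?_⟩
      obtain ⟨y, hy⟩ := QuotientGroup.mk_out_eq_mul L g⁻¹
      change cj (Quotient.out (QuotientGroup.mk g⁻¹ : G ⧸ L))⁻¹ l = cj g l
      rw [hy, mul_inv_rev, inv_inv, ← cj_cj, (hL _).1 (L.inv_mem y.2)]
  have h1 := Nat.card_congr (Equiv.ofBijective f hf)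
  rw [Subgroup.index, h1, Nat.card_eq_fintype_card, Fintype.card_coe]

open Classical in
/-- multiplicities in a restriction -/
theorem mu_res {G : Type} [Group G] [Fintype G] (N : Subgroup G) [N.Normal] [Fintype N]
    (L : Subgroup G) [Fintype L] [Fintype (N.subgroupOf L)] (h : N ≤ L) (l : N → ℂ) (χ : G → ℂ)
    (s : Multiset (L → ℂ)) (hs : ∀ x : L, χ x = s.sum x) :
    mu χ l = ∑ ψ ∈ s.toFinset, (Multiset.count ψ s : ℂ) * mu ψ (down h l) := by
  have h1 : mu χ l = ∑ x : N.subgroupOf L, down h l x * s.sum ((x⁻¹ : N.subgroupOf L) : L) := by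
    unfold mu
    refine (Fintype.sum_equiv (Subgroup.subgroupOfEquivOfLe h).toEquiv _ _ fun x => ?_).symm
    rw [← hs]
    rfl
  rw [h1]
  have h2 : ∀ x : L, s.sum x = ∑ ψ ∈ s.toFinset, (Multiset.count ψ s : ℂ) * ψ x := by
    intro x
    rw [Finset.sum_multiset_count, Finset.sum_apply]
    refine Finset.sum_congr rfl fun ψ _ => ?_
    rw [Pi.smul_apply, nsmul_eq_mul]
  simp only [h2, Finset.mul_sum]
  rw [Finset.sum_comm]
  refine Finset.sum_congr rfl fun ψ _ => ?_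
  unfold mu
  rw [Finset.mul_sum]
  refine Finset.sum_congr rfl fun x _ => ?_
  ring

open Classical in
/-- the regular character restricted to a subgroup -/
theorem reg_res {G : Type} [Group G] [Fintype G] (L : Subgroup G) [Fintype L]
    (s : (G → ℂ) → Multiset (L → ℂ)) (hs : ∀ χ ∈ irrs G, ∀ x : L, χ x = (s χ).sum x)
    (hs' : ∀ χ ∈ irrs G, ∀ θ ∈ s χ, IsIrrChar θ) (ψ : L → ℂ)
    (hψ : IsIrrChar ψ) :
    ∑ χ ∈ irrs G, χ 1 * (Multiset.count ψ (s χ) : ℂ) = ψ 1 * L.index := by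
  have hLc : (Nat.card L : ℂ) ≠ 0 := by exact_mod_cast Nat.card_pos.ne'
  apply mul_right_cancel₀ hLc
  rw [Finset.sum_mul]
  have h1 : ∀ χ ∈ irrs G, χ 1 * (Multiset.count ψ (s χ) : ℂ) * Nat.card L =
      ∑ x : L, ψ x * (χ 1 * χ ((x⁻¹ : L) : G)) := by
    intro χ hχ
    have h2 := inner_sum (s χ) (hs' χ hχ) ψ hψ
    have h3 : (Multiset.count ψ (s χ) : ℂ) * Nat.card L = ∑ x : L, ψ x * χ ((x⁻¹ : L) : G) := by
      rw [← h2]
      exact Finset.sum_congr rfl (fun x _ => by rw [hs χ hχ x⁻¹])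
    rw [mul_assoc, h3, Finset.mul_sum]
    refine Finset.sum_congr rfl fun x _ => ?_
    ring
  rw [Finset.sum_congr rfl h1, Finset.sum_comm]
  have h4 : ∀ x : L, ∑ χ ∈ irrs G, ψ x * (χ 1 * χ ((x⁻¹ : L) : G)) =
      ψ x * ∑ χ ∈ irrs G, χ 1 * χ ((x⁻¹ : L) : G) := fun x => by rw [Finset.mul_sum]
  rw [Finset.sum_congr rfl (fun x _ => h4 x)]
  simp only [sum_deg]
  rw [Finset.sum_eq_single (1 : L)]
  · have h5 := Subgroup.index_mul_card L
    have h6 : ((Fintype.card G : ℕ) : ℂ) = L.index * Nat.card L := by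
      rw [← Nat.card_eq_fintype_card, ← h5]
      push_cast
      ring
    simp only [inv_one, Subgroup.coe_one, if_true]
    rw [h6]
    ring
  · intro n _ hn
    have : ¬ (((n⁻¹ : L) : G) = 1) := by simpa using hn
    rw [if_neg this, mul_zero]
  · intro hc
    exact absurd (Finset.mem_univ _) hc

end ICLI

open ICLI in
theorem pr_CLI : StCLI := by
  classical
  intro G _ _ N _ _ L _ _ h l hl hL
  have hl' : IsIrrChar (down h l) := down_irr h hl
  have hcj : ∀ a : L, cj a (down h l) = down h l :=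
    down_cj h (fun a ha => (hL a).1 ha)
  have horb' : orb (N.subgroupOf L) (down h l) = {down h l} := by
    ext m
    rw [mem_orb, Finset.mem_singleton]
    constructor
    · rintro ⟨g, rfl⟩
      exact hcj g
    · rintro rfl
      exact ⟨1, cj_id _⟩
  have horb : (orb N l).card = L.index := orb_card N L l hL
  have hNN : Nat.card (N.subgroupOf L) = Nat.card N :=
    Nat.card_congr (Subgroup.subgroupOfEquivOfLe h).toEquiv
  have hN0 : (Nat.card N : ℂ) ≠ 0 := by exact_mod_cast Nat.card_pos.ne'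
  have hl0 : l 1 ≠ 0 := hl.one_ne_zero
  have hi0 : (L.index : ℂ) ≠ 0 := by
    have : L.index ≠ 0 := Subgroup.FiniteIndex.index_ne_zero
    exact_mod_cast this
  have hG : ∀ χ : G → ℂ, ∃ e : ℕ, IsIrrChar χ →
      mu χ l = e * Nat.card N ∧ (e ≠ 0 → χ 1 = e * L.index * l 1) := by
    intro χ
    by_cases hχ : IsIrrChar χ
    · obtain ⟨O, -, h2, h3⟩ := char_data hχ N
      by_cases hm : mu χ l = 0
      · exact ⟨0, fun _ => ⟨by rw [hm]; simp, fun hc => absurd rfl hc⟩⟩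
      · obtain ⟨-, h4, -, e, he, h5, h6⟩ := h2 l (h3 l hl hm)
        refine ⟨e, fun _ => ⟨h5, fun _ => ?_⟩⟩
        rw [h6, ← h4, horb]
    · exact ⟨0, fun hc => absurd hc hχ⟩
  have hLd : ∀ ψ : L → ℂ, ∃ e : ℕ, IsIrrChar ψ →
      mu ψ (down h l) = e * Nat.card N ∧ (e ≠ 0 → ψ 1 = e * l 1) := by
    intro ψ
    by_cases hψ : IsIrrChar ψ
    · obtain ⟨O, -, h2, h3⟩ := char_data hψ (N.subgroupOf L)
      by_cases hm : mu ψ (down h l) = 0
      · exact ⟨0, fun _ => ⟨by rw [hm]; simp, fun hc => absurd rfl hc⟩⟩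
      · obtain ⟨-, h4, -, e, he, h5, h6⟩ := h2 _ (h3 _ hl' hm)
        refine ⟨e, fun _ => ⟨by rw [h5, hNN], fun _ => ?_⟩⟩
        rw [h6, ← h4, horb', Finset.card_singleton, down_one]
        push_cast
        ring
    · exact ⟨0, fun hc => absurd hc hψ⟩
  have hS : ∀ χ : G → ℂ, ∃ s : Multiset (L → ℂ), IsIrrChar χ →
      (∀ θ ∈ s, IsIrrChar θ) ∧ ∀ x : L, χ x = s.sum x := by
    intro χ
    by_cases hχ : IsIrrChar χ
    · obtain ⟨n, ρ, -, h1⟩ := hχ
      obtain ⟨s, h2, h3⟩ := decomp (ρ.comp L.subtype)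
      refine ⟨s, fun _ => ⟨fun θ hθ => (h2 θ hθ).1, fun x => ?_⟩⟩
      rw [← h3, h1]
      rfl
    · exact ⟨0, fun hc => absurd hc hχ⟩
  choose eG heG using hG
  choose eL heL using hLd
  choose s hs using hS
  have hmemG : ∀ χ, χ ∈ ovr N l ↔ IsIrrChar χ ∧ eG χ ≠ 0 := by
    intro χ
    rw [ovr, Finset.mem_filter, mem_irrs]
    constructor
    · rintro ⟨h1, h2⟩
      refine ⟨h1, fun h3 => h2 ?_⟩
      rw [(heG χ h1).1, h3]
      simp
    · rintro ⟨h1, h2⟩
      refine ⟨h1, ?_⟩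
      rw [(heG χ h1).1]
      exact mul_ne_zero (by exact_mod_cast h2) hN0
  have hmemL : ∀ ψ, ψ ∈ ovr (N.subgroupOf L) (down h l) ↔ IsIrrChar ψ ∧ eL ψ ≠ 0 := by
    intro ψ
    rw [ovr, Finset.mem_filter, mem_irrs]
    constructor
    · rintro ⟨h1, h2⟩
      refine ⟨h1, fun h3 => h2 ?_⟩
      rw [(heL ψ h1).1, h3]
      simp
    · rintro ⟨h1, h2⟩
      refine ⟨h1, ?_⟩
      rw [(heL ψ h1).1]
      exact mul_ne_zero (by exact_mod_cast h2) hN0
  -- the first relation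
  have hrel1 : ∀ χ : G → ℂ, IsIrrChar χ →
      ∑ ψ ∈ ovr (N.subgroupOf L) (down h l), Multiset.count ψ (s χ) * eL ψ = eG χ := by
    intro χ hχ
    have h1 := mu_res N L h l χ (s χ) (hs χ hχ).2
    have h2 : ∑ ψ ∈ (s χ).toFinset, (Multiset.count ψ (s χ) : ℂ) * mu ψ (down h l) =
        ((∑ ψ ∈ (s χ).toFinset, Multiset.count ψ (s χ) * eL ψ : ℕ) : ℂ) * Nat.card N := by
      push_cast
      rw [Finset.sum_mul]
      refine Finset.sum_congr rfl fun ψ hψ => ?_
      rw [(heL ψ ((hs χ hχ).1 ψ (Multiset.mem_toFinset.1 hψ))).1]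
      ring
    rw [(heG χ hχ).1, h2] at h1
    have h3 := mul_right_cancel₀ hN0 h1
    have h4 : eG χ = ∑ ψ ∈ (s χ).toFinset, Multiset.count ψ (s χ) * eL ψ := by exact_mod_cast h3
    rw [h4]
    have h5 : ∑ ψ ∈ (s χ).toFinset, Multiset.count ψ (s χ) * eL ψ =
        ∑ ψ ∈ irrs L, Multiset.count ψ (s χ) * eL ψ := by
      refine Finset.sum_subset (fun ψ hψ => mem_irrs.2
        ((hs χ hχ).1 ψ (Multiset.mem_toFinset.1 hψ))) fun ψ _ hψ => ?_
      rw [Multiset.mem_toFinset] at hψ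
      rw [Multiset.count_eq_zero_of_notMem hψ, zero_mul]
    rw [h5]
    refine Finset.sum_subset (fun ψ hψ => mem_irrs.2 ((hmemL ψ).1 hψ).1) fun ψ h6 hψ => ?_
    have h7 : eL ψ = 0 := by
      by_contra h8
      exact hψ ((hmemL ψ).2 ⟨mem_irrs.1 h6, h8⟩)
    rw [h7, mul_zero]
  -- the second relation
  have hrel2 : ∀ ψ ∈ ovr (N.subgroupOf L) (down h l),
      ∑ χ ∈ ovr N l, Multiset.count ψ (s χ) * eG χ = eL ψ := by
    intro ψ hψ
    obtain ⟨hψi, hψe⟩ := (hmemL ψ).1 hψ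
    have h1 := reg_res L s (fun χ hχ => (hs χ (mem_irrs.1 hχ)).2)
      (fun χ hχ => (hs χ (mem_irrs.1 hχ)).1) ψ hψi
    have h2 : ∑ χ ∈ irrs G, χ 1 * (Multiset.count ψ (s χ) : ℂ) =
        ∑ χ ∈ ovr N l, χ 1 * (Multiset.count ψ (s χ) : ℂ) := by
      symm
      refine Finset.sum_subset (fun χ hχ => mem_irrs.2 ((hmemG χ).1 hχ).1) fun χ h6 hχ => ?_
      have h7 : eG χ = 0 := by
        by_contra h8
        exact hχ ((hmemG χ).2 ⟨mem_irrs.1 h6, h8⟩)
      have h8 := hrel1 χ (mem_irrs.1 h6)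
      rw [h7, Finset.sum_eq_zero_iff] at h8
      have h9 := h8 ψ hψ
      rcases Nat.mul_eq_zero.1 h9 with h10 | h10
      · rw [h10]; simp
      · exact absurd h10 hψe
    have h3 : ∑ χ ∈ ovr N l, χ 1 * (Multiset.count ψ (s χ) : ℂ) =
        ((∑ χ ∈ ovr N l, Multiset.count ψ (s χ) * eG χ : ℕ) : ℂ) * (L.index * l 1) := by
      push_cast
      rw [Finset.sum_mul]
      refine Finset.sum_congr rfl fun χ hχ => ?_
      obtain ⟨h4, h5⟩ := (hmemG χ).1 hχ
      rw [(heG χ h4).2 h5]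
      ring
    rw [h2, h3, (heL ψ hψi).2 hψe] at h1
    have h4 : ((∑ χ ∈ ovr N l, Multiset.count ψ (s χ) * eG χ : ℕ) : ℂ) * (L.index * l 1) =
        (eL ψ : ℂ) * (L.index * l 1) := by
      rw [h1]
      ring
    have h5 := mul_right_cancel₀ (mul_ne_zero hi0 hl0) h4
    exact_mod_cast h5
  obtain ⟨hcard, hsum⟩ := core (ovr N l) (ovr (N.subgroupOf L) (down h l))
    (fun χ ψ => Multiset.count ψ (s χ)) eG eL
    (fun χ hχ => Nat.pos_of_ne_zero ((hmemG χ).1 hχ).2)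
    (fun ψ hψ => Nat.pos_of_ne_zero ((hmemL ψ).1 hψ).2)
    (fun χ hχ => hrel1 χ ((hmemG χ).1 hχ).1) hrel2
  refine ⟨hcard, ?_⟩
  have e1 : ∑ χ ∈ ovr N l, ‖χ 1‖ = ((∑ χ ∈ ovr N l, eG χ : ℕ) : ℝ) * (L.index * ‖l 1‖) := by
    push_cast
    rw [Finset.sum_mul]
    refine Finset.sum_congr rfl fun χ hχ => ?_
    obtain ⟨h4, h5⟩ := (hmemG χ).1 hχ
    rw [(heG χ h4).2 h5, norm_mul, norm_mul, Complex.norm_natCast, Complex.norm_natCast]
    ring
  have e2 : ∑ ψ ∈ ovr (N.subgroupOf L) (down h l), ‖ψ 1‖ =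
      ((∑ ψ ∈ ovr (N.subgroupOf L) (down h l), eL ψ : ℕ) : ℝ) * ‖l 1‖ := by
    push_cast
    rw [Finset.sum_mul]
    refine Finset.sum_congr rfl fun ψ hψ => ?_
    obtain ⟨h4, h5⟩ := (hmemL ψ).1 hψ
    rw [(heL ψ h4).2 h5, norm_mul, Complex.norm_natCast]
  rw [e1, e2, hsum]
  ring

end Pool.Agent.RadIndex.RI
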