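import Pool.Agent.Work.MP_76dc41_al.RI.Stmts

/-!
# CNB from CNA
-/

set_option autoImplicit false

namespace Pool.Agent.RadIndex.RI

open Pool.Agent Pool.Agent.RadIndex

namespace ICNB

/-- In a simple group which is not solvable, if all commutators of elements of `E = ⊤` and `E'`
are in a proper subgroup, then `E'` is trivial. -/
theorem eq_bot {S : Type} [Group S] (hS : IsSimpleGroup S) (hns : ¬ Group.IsSolvable S)
    (B E : Subgroup S) (hB : B ≠ ⊤) (h : ∀ x : S, ∀ y ∈ E, x * y * x⁻¹ * y⁻¹ ∈ B) : E = ⊥ := by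
  -- the closure of the commutators
  let C : Subgroup S := Subgroup.closure {z | ∃ x : S, ∃ y ∈ E, x * y * x⁻¹ * y⁻¹ = z}
  have hCB : C ≤ B := by
    refine (Subgroup.closure_le B).2 ?_
    rintro z ⟨x, y, hy, rfl⟩
    exact h x y hy
  have hmem : ∀ x : S, ∀ y ∈ E, x * y * x⁻¹ * y⁻¹ ∈ C := fun x y hy =>
    Subgroup.subset_closure ⟨x, y, hy, rfl⟩
  have hCn : C.Normal := by
    refine ⟨fun n hn g => ?_⟩
    have hle : C ≤ C.comap (MulAut.conj g).toMonoidHom := by
      refine (Subgroup.closure_le _).2 ?_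
      rintro z ⟨x, y, hy, rfl⟩
      change g * (x * y * x⁻¹ * y⁻¹) * g⁻¹ ∈ C
      have h1 : g * (x * y * x⁻¹ * y⁻¹) * g⁻¹ =
          ((g * x) * y * (g * x)⁻¹ * y⁻¹) * (g * y * g⁻¹ * y⁻¹)⁻¹ := by
        group
      rw [h1]
      exact C.mul_mem (hmem _ y hy) (C.inv_mem (hmem g y hy))
    exact hle hn
  rcases hS.eq_bot_or_eq_top_of_normal C hCn with h0 | h0
  · -- then `E` is contained in the centre
    have hcen : E ≤ Subgroup.center S := by
      intro y hy
      rw [Subgroup.mem_center_iff]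
      intro x
      have h2 := hmem x y hy
      rw [h0, Subgroup.mem_bot] at h2
      have h3 : x * y = y * x := by
        have h4 : x * y * x⁻¹ * y⁻¹ * (y * x) = y * x := by rw [h2, one_mul]
        rw [← h4]; group
      exact h3
    rcases hS.eq_bot_or_eq_top_of_normal (Subgroup.center S) inferInstance with h5 | h5
    · rw [h5] at hcen
      exact le_bot_iff.1 hcen
    · exfalso
      apply hns
      have : ∀ a b : S, a * b = b * a := by
        intro a b
        have hb : b ∈ Subgroup.center S := by rw [h5]; trivial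
        exact Subgroup.mem_center_iff.1 hb a
      exact Group.isSolvable_of_comm this
  · exact absurd (top_le_iff.1 (h0 ▸ hCB)) hB

theorem kc_bot (S : Type) [Group S] : ACD8.kc (⊥ : Subgroup S) = 1 :=
  ACD8.kc_subsingleton

theorem kc_top (S : Type) [Group S] : ACD8.kc (⊤ : Subgroup S) = ACD8.kc S :=
  ACD8.kc_congr Subgroup.topEquiv

/-- the local inequality -/
theorem loc {s t r : ℕ} {S : Type} [Group S] [Finite S] (hS : IsSimpleGroup S)
    (hns : ¬ Group.IsSolvable S) (a : ℕ)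
    (h1 : ∀ Y : Subgroup S, Y ≠ ⊤ → (a * ACD8.kc Y) ^ s ≤ Nat.card S ^ (s + r) * Y.index ^ t)
    (h2 : (a ^ 2 * ACD8.kc S) ^ s ≤ Nat.card S ^ (2 * s + 2 * r + t))
    (B E E' : Subgroup S) (h3 : B = ⊤ → (a * ACD8.kc S) ^ s ≤ Nat.card S ^ (s + r))
    (hc : ∀ x ∈ E, ∀ y ∈ E', x * y * x⁻¹ * y⁻¹ ∈ B) :
    (a ^ 2 * (ACD8.kc E * ACD8.kc E')) ^ s ≤
      Nat.card S ^ (2 * (s + r)) * (E.index * E'.index) ^ t := by
  have key : ∀ X Y : Subgroup S, (a * ACD8.kc X) ^ s ≤ Nat.card S ^ (s + r) * X.index ^ t →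
      (a * ACD8.kc Y) ^ s ≤ Nat.card S ^ (s + r) * Y.index ^ t →
      (a ^ 2 * (ACD8.kc X * ACD8.kc Y)) ^ s ≤
      Nat.card S ^ (2 * (s + r)) * (X.index * Y.index) ^ t := by
    intro X Y hX hY
    calc (a ^ 2 * (ACD8.kc X * ACD8.kc Y)) ^ s
        = (a * ACD8.kc X) ^ s * (a * ACD8.kc Y) ^ s := by ring
      _ ≤ (Nat.card S ^ (s + r) * X.index ^ t) * (Nat.card S ^ (s + r) * Y.index ^ t) :=
          Nat.mul_le_mul hX hY
      _ = Nat.card S ^ (2 * (s + r)) * (X.index * Y.index) ^ t := by ring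
  have htb : (a ^ 2 * (ACD8.kc (⊤ : Subgroup S) * ACD8.kc (⊥ : Subgroup S))) ^ s ≤
      Nat.card S ^ (2 * (s + r)) * ((⊤ : Subgroup S).index * (⊥ : Subgroup S).index) ^ t := by
    rw [kc_bot, kc_top, mul_one, Subgroup.index_top, Subgroup.index_bot, one_mul, ← pow_add]
    have : 2 * (s + r) + t = 2 * s + 2 * r + t := by ring
    rw [this]
    exact h2
  by_cases hB : B = ⊤
  · have hall : ∀ X : Subgroup S, (a * ACD8.kc X) ^ s ≤ Nat.card S ^ (s + r) * X.index ^ t := by
      intro X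
      by_cases hX : X = ⊤
      · subst hX
        rw [kc_top, Subgroup.index_top, one_pow, mul_one]
        exact h3 hB
      · exact h1 X hX
    exact key E E' (hall E) (hall E')
  · by_cases hE : E = ⊤
    · have : E' = ⊥ := eq_bot hS hns B E' hB (fun x y hy => hc x (by rw [hE]; trivial) y hy)
      subst hE
      subst this
      exact htb
    · by_cases hE' : E' = ⊤
      · have : E = ⊥ := eq_bot hS hns B E hB (fun x y hy => by
          have h5 := hc y hy x (by rw [hE']; trivial)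
          have h6 := B.inv_mem h5
          have h7 : (y * x * y⁻¹ * x⁻¹)⁻¹ = x * y * x⁻¹ * y⁻¹ := by group
          rwa [h7] at h6)
        subst hE'
        subst this
        rw [mul_comm (ACD8.kc _) (ACD8.kc _), mul_comm (Subgroup.index _) (Subgroup.index _)]
        exact htb
      · exact key E E' (h1 E hE) (h1 E' hE')

/-- the product of the indices -/
theorem prod_index {n : ℕ} (S : Fin n → Type) [∀ i, Group (S i)] [∀ i, Finite (S i)]
    (Z : Subgroup (∀ i, S i)) (E : ∀ i, Subgroup (S i)) (h : Nat.card Z = ∏ i, Nat.card (E i)) :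
    ∏ i, (E i).index = Z.index := by
  have h1 : (∏ i, (E i).index) * Nat.card Z = Z.index * Nat.card Z := by
    rw [Subgroup.index_mul_card, h, ← Finset.prod_mul_distrib]
    rw [Nat.card_pi]
    exact Finset.prod_congr rfl (fun i _ => Subgroup.index_mul_card (E i))
  exact Nat.eq_of_mul_eq_mul_right Nat.card_pos h1

end ICNB

open ICNB in
theorem pr_CNB (hCNA : StCNA) : StCNB := by
  intro s t r n S _ _ hS hns a h1 h2 Z h3
  obtain ⟨E, E', hE, hE', hk, hk', hc⟩ := hCNA n S Z
  let B : ∀ i, Subgroup (S i) := fun i => Z.comap (MonoidHom.mulSingle S i)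
  have hloc : ∀ i, (a i ^ 2 * (ACD8.kc (E i) * ACD8.kc (E' i))) ^ s ≤
      Nat.card (S i) ^ (2 * (s + r)) * ((E i).index * (E' i).index) ^ t := by
    intro i
    refine loc (hS i) (hns i) (a i) (h1 i) (h2 i) (B i) (E i) (E' i) ?_ ?_
    · intro hB
      refine h3 i (fun b => ?_)
      have hb : b ∈ B i := by rw [hB]; trivial
      exact hb
    · intro x hx y hy
      exact hc i x hx y hy
  have hi := prod_index S Z E hE
  have hi' := prod_index S Z E' hE'
  have hprod : (((∏ i, a i) * ACD8.kc Z) ^ s) ^ 2 ≤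
      ((∏ i, Nat.card (S i)) ^ (s + r) * Z.index ^ t) ^ 2 := by
    calc (((∏ i, a i) * ACD8.kc Z) ^ s) ^ 2
        = ((∏ i, a i) ^ 2 * (ACD8.kc Z * ACD8.kc Z)) ^ s := by ring
      _ ≤ ((∏ i, a i) ^ 2 * ((∏ i, ACD8.kc (E i)) * ∏ i, ACD8.kc (E' i))) ^ s := by
          refine Nat.pow_le_pow_left ?_ s
          exact Nat.mul_le_mul_left _ (Nat.mul_le_mul hk hk')
      _ = ∏ i, (a i ^ 2 * (ACD8.kc (E i) * ACD8.kc (E' i))) ^ s := by
          rw [Finset.prod_pow, Finset.prod_mul_distrib, Finset.prod_mul_distrib, Finset.prod_pow]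
      _ ≤ ∏ i, (Nat.card (S i) ^ (2 * (s + r)) * ((E i).index * (E' i).index) ^ t) :=
          Finset.prod_le_prod' (fun i _ => hloc i)
      _ = (∏ i, Nat.card (S i)) ^ (2 * (s + r)) *
            ((∏ i, (E i).index) * ∏ i, (E' i).index) ^ t := by
          rw [Finset.prod_mul_distrib, Finset.prod_pow, Finset.prod_pow, Finset.prod_mul_distrib]
      _ = ((∏ i, Nat.card (S i)) ^ (s + r) * Z.index ^ t) ^ 2 := by
          rw [hi, hi']; ring
  exact (Nat.pow_le_pow_iff_left two_ne_zero).1 hprod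

end Pool.Agent.RadIndex.RI
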