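import Pool.Agent.Work.MP_76dc41_al.RI.Stmts

/-!
# MP_76dc41_al, block RI, item CNT (helper99)
-/

set_option autoImplicit false
set_option linter.unusedSectionVars false

namespace Pool.Agent.RadIndex.RI

open Pool.Agent Pool.Agent.RadIndex

namespace ICNT

variable {H : Type} [Group H] {n : ℕ} (S : Fin n → Subgroup H)

theorem comap_equiv {A B : Type} [Group A] [Group B] (f : A →* B) (hf : Function.Injective f)
    (Z : Subgroup B) (hZ : Z ≤ f.range) : Nonempty (Z.comap f ≃* Z) := by
  have h1 : (Z.comap f).map f = Z := by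
    rw [Subgroup.map_comap_eq]
    exact inf_eq_right.mpr hZ
  have e := (Z.comap f).equivMapOfInjective f hf
  rw [h1] at e
  exact ⟨e⟩

end ICNT

open ICNT in
theorem pr_CNT (hCNB : StCNB) : StCNT := by
  intro s t r H _ _ ι _ S hcomm hind hsim hsol a h1 h2 Z hZ h3
  classical
  let e := Fintype.equivFin ι
  set n := Fintype.card ι with hn
  let S' : Fin n → Subgroup H := fun i => S (e.symm i)
  have hcomm' : Pairwise fun i j : Fin n => ∀ x y : H, x ∈ S' i → y ∈ S' j → Commute x y := by
    intro i j hij x y hx hy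
    exact hcomm (e.symm i) (e.symm j) (fun h => hij (e.symm.injective h)) x hx y hy
  have hind' : iSupIndep S' := hind.comp e.symm.injective
  have hinj := Subgroup.injective_noncommPiCoprod_of_iSupIndep (hcomm := hcomm') hind'
  have hrange := Subgroup.noncommPiCoprod_range (hcomm := hcomm')
  have hsup : (⨆ i, S' i) = ⨆ i, S i := e.symm.iSup_comp (g := S)
  rw [hsup] at hrange
  set φ := Subgroup.noncommPiCoprod hcomm' with hφ
  obtain ⟨eZ⟩ := comap_equiv φ hinj Z (by rw [hrange]; exact hZ)
  have hcard : Nat.card (⨆ i, S i : Subgroup H) = ∏ i, Nat.card (S' i) := by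
    rw [← hrange, ← Nat.card_congr (MonoidHom.ofInjective hinj).toEquiv, Nat.card_pi]
  have hz : (Z.comap φ).index * Nat.card Z = Nat.card (⨆ i, S i : Subgroup H) := by
    rw [← Nat.card_congr eZ.toEquiv, Subgroup.index_mul_card, Nat.card_pi, hcard]
  refine ⟨(Z.comap φ).index, hz, ?_⟩
  have key := hCNB s t r n (fun i => S' i) (fun i => hsim (e.symm i)) (fun i => hsol (e.symm i))
    (fun i => a (e.symm i)) (fun i => h1 (e.symm i)) (fun i => h2 (e.symm i)) (Z.comap φ)
    (fun i hi => h3 (e.symm i) (fun b hb => by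
      have h4 := hi ⟨b, hb⟩
      rw [Subgroup.mem_comap, hφ, Subgroup.noncommPiCoprod_mulSingle] at h4
      exact h4))
  have h5 : ∏ i, a (e.symm i) = ∏ i, a i := e.symm.prod_comp a
  have h6 : ACD8.kc (Z.comap φ) = ACD8.kc Z := ACD8.kc_congr eZ
  rw [h5, h6, ← hcard] at key
  exact key

end Pool.Agent.RadIndex.RI
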