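import Pool.Agent.Work.MP_76dc41_al.RI.Stmts

/-!
Item [76dc41 RI FIB]: class number of a subgroup of `G / A` containing the image of `B`.
-/

set_option autoImplicit false

open Pool.Agent.DC7914

namespace Pool.Agent.RadIndex.RI

open Pool.Agent Pool.Agent.RadIndex

theorem pr_FIB : StFIB := by
  intro G _ _ N A B _ _ _ hNA hNB hAB κ hκ K hK
  have hle : A ≤ (A ⊔ B).comap (MonoidHom.id G) := by
    intro x hx
    exact (le_sup_left : A ≤ A ⊔ B) hx
  let f : K →* G ⧸ (A ⊔ B) := (QuotientGroup.map A (A ⊔ B) (MonoidHom.id G) hle).comp K.subtype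
  have hf : ∀ (g : G) (hg : (QuotientGroup.mk g : G ⧸ A) ∈ K),
      f ⟨QuotientGroup.mk g, hg⟩ = (QuotientGroup.mk g : G ⧸ (A ⊔ B)) := by
    intro g hg
    rfl
  have h1 : ACD8.kc K ≤ ACD8.kc f.ker * ACD8.kc f.range := ACD8.kc_hom f
  let ψ : B →* K :=
    { toFun := fun b => ⟨QuotientGroup.mk (b : G), hK b b.2⟩
      map_one' := rfl
      map_mul' := fun x y => rfl }
  have hψ : ∀ b : B, ψ b ∈ f.ker := by
    intro b
    rw [MonoidHom.mem_ker]
    have h2 : f (ψ b) = (QuotientGroup.mk (b : G) : G ⧸ (A ⊔ B)) := hf b (hK b b.2)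
    rw [h2, QuotientGroup.eq_one_iff]
    exact (le_sup_right : B ≤ A ⊔ B) b.2
  let φ : B →* f.ker := ψ.codRestrict f.ker hψ
  have hsurj : Function.Surjective φ := by
    rintro ⟨⟨x, hx⟩, hxk⟩
    obtain ⟨g, rfl⟩ := QuotientGroup.mk_surjective x
    rw [MonoidHom.mem_ker, hf g hx, QuotientGroup.eq_one_iff] at hxk
    rw [Subgroup.mem_sup_of_normal_left] at hxk
    obtain ⟨a, ha, b, hb, hab⟩ := hxk
    refine ⟨⟨b, hb⟩, ?_⟩
    apply Subtype.ext
    apply Subtype.ext
    show (QuotientGroup.mk b : G ⧸ A) = QuotientGroup.mk g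
    rw [← hab, QuotientGroup.mk_mul, (QuotientGroup.eq_one_iff a).mpr ha, one_mul]
  have hker : N.subgroupOf B = φ.ker := by
    ext b
    rw [Subgroup.mem_subgroupOf, MonoidHom.mem_ker]
    constructor
    · intro hb
      apply Subtype.ext
      apply Subtype.ext
      show (QuotientGroup.mk (b : G) : G ⧸ A) = 1
      rw [QuotientGroup.eq_one_iff]
      exact hNA hb
    · intro hb
      have h3 : (QuotientGroup.mk (b : G) : G ⧸ A) = 1 := by
        have h4 := congrArg (fun z : f.ker => ((z : K) : G ⧸ A)) hb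
        exact h4
      rw [QuotientGroup.eq_one_iff] at h3
      exact hAB ⟨h3, b.2⟩
  have e : (B ⧸ N.subgroupOf B) ≃* f.ker :=
    (QuotientGroup.quotientMulEquivOfEq hker).trans
      (QuotientGroup.quotientKerEquivOfSurjective φ hsurj)
  rw [ACD8.kc_congr e]
  exact h1.trans (Nat.mul_le_mul_left _ (hκ _))

end Pool.Agent.RadIndex.RI
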