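import Pool.Agent.Work.MP_76dc41_al.RI.Stmts

/-!
# FIX: the elements of `B` fix the characters of `A` over `l`
-/

set_option autoImplicit false
set_option linter.unusedSectionVars false

open Module Representation Pool.Agent.DC7914

namespace Pool.Agent.RadIndex.RI

open Pool.Agent Pool.Agent.RadIndex

theorem pr_FIX : StFIX := by
  intro G _ _ N A B _ _ _ _ _ _ h hinf hperf l hl hinvG φ hφ b hb
  have core : S_CORE := prf_CORE (prf_TRANSFER prf_BURN) prf_INTER prf_ISO prf_BURN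
  have hA : ∀ a ∈ A, cj a l = l := fun a _ => hinvG a
  have hgl : cj b l = l := hinvG b
  have hθ := EONE_irr h hl
  have hinv := EONE_inv h hA
  unfold ovr at hφ
  rw [Finset.mem_filter] at hφ
  have hη : IsIrrChar φ := mem_irrs.1 hφ.1
  have hmu := hφ.2
  obtain ⟨d, τ, hτ, rfl⟩ := hη
  have hβ : ∀ n : N.subgroupOf A, (MulAut.conjNormal b : MulAut A) n ∈ N.subgroupOf A := by
    rintro ⟨n, hn⟩
    rw [Subgroup.mem_subgroupOf] at hn ⊢
    rw [MulAut.conjNormal_apply]
    exact ‹N.Normal›.conj_mem _ hn b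
  obtain ⟨X, Xi, -, -, hX1, hX2, hX⟩ := core A (N.subgroupOf A) (MulAut.conjNormal b) (by
    intro x
    rw [Subgroup.mem_subgroupOf]
    apply hinf
    refine ⟨(x * (MulAut.conjNormal b x)⁻¹).2, ?_⟩
    have h3 : ((x * (MulAut.conjNormal b x)⁻¹ : A) : G) = (x * b * (x : G)⁻¹) * b⁻¹ := by
      rw [Subgroup.coe_mul, Subgroup.coe_inv, MulAut.conjNormal_apply]
      group
    rw [SetLike.mem_coe, h3]
    exact B.mul_mem (‹B.Normal›.conj_mem b hb x) (B.inv_mem hb)) hβ (by
    intro f hf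
    exact hperf f fun n hn => hf n (Subgroup.mem_subgroupOf.2 hn)) (down h l) hθ hinv (by
    rintro ⟨n, hn⟩
    have hn' : (n : G) ∈ N := Subgroup.mem_subgroupOf.1 hn
    have hc : b * n * b⁻¹ ∈ N := ‹N.Normal›.conj_mem _ hn' b
    rw [EONE_down h l n hn _ hn' rfl, EONE_down h l _ _ _ hc (by
      rw [MulAut.conjNormal_apply])]
    have h3 := congrFun hgl ⟨n, hn'⟩
    rw [← h3]
    rfl) (Fin d → ℂ) τ hτ hmu
  ext x
  have h3 : τ (MulAut.conjNormal b x) = X * τ x * Xi := by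
    rw [hX, mul_assoc, hX1, mul_one]
  change LinearMap.trace ℂ _ (τ (MulAut.conjNormal b x)) = LinearMap.trace ℂ _ (τ x)
  rw [h3, LinearMap.trace_mul_comm, ← mul_assoc, hX2, one_mul]

end Pool.Agent.RadIndex.RI
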