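import Pool.Agent.Work.MP_76dc41_al.RI.Stmts

/-!
# RI, item GRP: the part of the socle with many classes
-/

set_option autoImplicit false

namespace Pool.Agent.RadIndex.RI

open Pool.Agent Pool.Agent.RadIndex

namespace IGRP

/-- `Few` is invariant under isomorphisms. -/
lemma few_congr {s r : ℕ} {S T : Type} [Group S] [Group T] (e : S ≃* T) (h : Few s r S) :
    Few s r T := by
  unfold Few at h ⊢
  have h1 : Nat.card (MulAut S) = Nat.card (MulAut T) := Nat.card_congr (MulAut.congr e).toEquiv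
  have h2 : ACD8.kc S = ACD8.kc T := ACD8.kc_congr e
  have h3 : Nat.card S = Nat.card T := Nat.card_congr e.toEquiv
  rw [← h1, ← h2, ← h3]
  exact h

/-- Conjugation by elements of `U` preserves the members below `U` which are not `Few`. -/
lemma conj_mem {H : Type} [Group H] {s r : ℕ} {U S T : Subgroup H} {g : H}
    (hg : g ∈ U) (hT : T = S.map (MulAut.conj g).toMonoidHom) (hS : S ≤ U ∧ ¬ Few s r S) :
    T ≤ U ∧ ¬ Few s r T := by
  refine ⟨?_, ?_⟩
  · rw [hT, Subgroup.map_le_iff_le_comap]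
    intro x hx
    show (MulAut.conj g) x ∈ U
    rw [MulAut.conj_apply]
    exact U.mul_mem (U.mul_mem hg (hS.1 hx)) (U.inv_mem hg)
  · intro hf
    apply hS.2
    have e : T ≃* S := (MulEquiv.subgroupCongr hT).trans
      (S.equivMapOfInjective (MulAut.conj g).toMonoidHom (MulAut.conj g).injective).symm
    exact few_congr e hf

lemma conj_back {H : Type} [Group H] {S T : Subgroup H} {g : H}
    (hT : T = S.map (MulAut.conj g).toMonoidHom) :
    S = T.map (MulAut.conj g⁻¹).toMonoidHom := by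
  rw [hT, Subgroup.map_map]
  ext x
  constructor
  · intro hx
    refine ⟨x, hx, ?_⟩
    show (MulAut.conj g⁻¹) ((MulAut.conj g) x) = x
    simp [MulAut.conj_apply, mul_assoc]
  · rintro ⟨y, hy, rfl⟩
    have h : ((MulAut.conj g⁻¹).toMonoidHom.comp (MulAut.conj g).toMonoidHom) y = y := by
      show (MulAut.conj g⁻¹) ((MulAut.conj g) y) = y
      simp [MulAut.conj_apply, mul_assoc]
    rw [h]
    exact hy

/-- The subgroup generated by the members with the property `P`. -/
def Sp {H : Type} [Group H] (P : SS H → Prop) : Subgroup H := ⨆ i : {i : SS H // P i}, i.1.1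

lemma sp_conj {H : Type} [Group H] (P : SS H → Prop) (g : H)
    (hP : ∀ S : SS H, P S → ∃ T : SS H, P T ∧ T.1 = S.1.map (MulAut.conj g).toMonoidHom) :
    ∀ x ∈ Sp P, g * x * g⁻¹ ∈ Sp P := by
  have h : Sp P ≤ (Sp P).comap (MulAut.conj g).toMonoidHom := by
    refine iSup_le fun i => ?_
    obtain ⟨T, hT, hTe⟩ := hP i.1 i.2
    intro x hx
    have h1 : (MulAut.conj g) x ∈ T.1 := by
      rw [hTe]
      exact ⟨x, hx, rfl⟩
    have h2 : T.1 ≤ Sp P := le_iSup (fun i : {i : SS H // P i} => i.1.1) ⟨T, hT⟩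
    exact h2 h1
  intro x hx
  have h1 := h hx
  rw [Subgroup.mem_comap] at h1
  exact h1

/-- The number theory at the end. -/
lemma numbers (s r t κ k f h z a b m A : ℕ) (hh : 0 < h) (hA : a * b = A) (hκ : κ * m ≤ A)
    (hfh : f * h ≤ m) (hc : (b * k) ^ s ≤ h ^ (s + r) * z ^ t) :
    (κ * k * f) ^ s ≤ a ^ s * (h ^ r * z ^ t) := by
  have h1 : κ * f * h ≤ a * b := by
    rw [hA]
    calc κ * f * h = κ * (f * h) := by ring
      _ ≤ κ * m := Nat.mul_le_mul_left _ hfh
      _ ≤ A := hκ
  have h2 : (κ * k * f) ^ s * h ^ s ≤ a ^ s * (h ^ r * z ^ t) * h ^ s := by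
    calc (κ * k * f) ^ s * h ^ s = (κ * f * h) ^ s * k ^ s := by
          rw [← mul_pow, ← mul_pow]
          congr 1
          ring
      _ ≤ (a * b) ^ s * k ^ s := Nat.mul_le_mul_right _ (Nat.pow_le_pow_left h1 s)
      _ = a ^ s * (b * k) ^ s := by
          rw [mul_pow, mul_pow, mul_assoc]
      _ ≤ a ^ s * (h ^ (s + r) * z ^ t) := Nat.mul_le_mul_left _ hc
      _ = a ^ s * (h ^ r * z ^ t) * h ^ s := by
          rw [pow_add]
          ring
  exact Nat.le_of_mul_le_mul_right h2 (pow_pos hh s)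

end IGRP

open IGRP in
/-- GRP -/
theorem pr_GRP (hNSL : StNSL) (hSOC : StSOC) (hIPR : StIPR) (hOUT : StOUT) (hCNT : StCNT) :
    StGRP := by
  classical
  intro s t r H _ _ hrad hLc U
  obtain ⟨hcomm, hind, hnorm, -, hconj⟩ := hSOC H hrad
  have hns : ∀ S : SS H, ¬ Group.IsSolvable S.1 := fun S => hNSL H hrad S.1 S.2.1 S.2.2
  let J : SS H → Prop := fun S => S.1 ≤ U ∧ ¬ Few s r S.1
  obtain ⟨⟨e⟩, hdis, hcom2, hsup⟩ := hIPR H (SS H) (fun S => S.1) hcomm hind J
  let F' : Subgroup H := Sp J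
  let M'' : Subgroup H := Sp (fun S => ¬ J S)
  have hdis' : Disjoint F' M'' := hdis
  have hcom2' : ∀ x ∈ F', ∀ y ∈ M'', x * y = y * x := hcom2
  have hsup' : F' ⊔ M'' = soc H := hsup
  have hF'U : F' ≤ U := iSup_le fun i => i.2.1
  have hF'M : F' ≤ soc H := hsup' ▸ le_sup_left
  have hM''M : M'' ≤ soc H := hsup' ▸ le_sup_right
  -- normality
  have hJc : ∀ g ∈ U, ∀ S : SS H, J S → ∃ T : SS H, J T ∧
      T.1 = S.1.map (MulAut.conj g).toMonoidHom := by
    intro g hg S hS
    obtain ⟨T, hT⟩ := hconj S g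
    exact ⟨T, conj_mem hg hT hS, hT⟩
  have hJc' : ∀ g ∈ U, ∀ S : SS H, ¬ J S → ∃ T : SS H, ¬ J T ∧
      T.1 = S.1.map (MulAut.conj g).toMonoidHom := by
    intro g hg S hS
    obtain ⟨T, hT⟩ := hconj S g
    refine ⟨T, fun hJT => hS ?_, hT⟩
    exact conj_mem (U.inv_mem hg) (conj_back hT) hJT
  have hFn : (F'.subgroupOf U).Normal := by
    refine ⟨fun n hn g => ?_⟩
    rw [Subgroup.mem_subgroupOf] at hn ⊢
    exact sp_conj J (g : H) (hJc g g.2) n hn
  have hZn : (M''.subgroupOf U).Normal := by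
    refine ⟨fun n hn g => ?_⟩
    rw [Subgroup.mem_subgroupOf] at hn ⊢
    exact sp_conj (fun S => ¬ J S) (g : H) (hJc' g g.2) n hn
  -- the trace of the socle on `U`
  have hUM : (soc H).subgroupOf U = F'.subgroupOf U ⊔ M''.subgroupOf U := by
    apply le_antisymm
    · intro u hu
      rw [Subgroup.mem_subgroupOf, ← hsup'] at hu
      have hr := MonoidHom.noncommCoprod_range (f := F'.subtype) (g := M''.subtype)
        (comm := fun x y => hcom2' x x.2 y y.2)
      rw [Subgroup.range_subtype, Subgroup.range_subtype] at hr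
      rw [← hr] at hu
      obtain ⟨⟨f, m⟩, hfm⟩ := hu
      have hfm' : (f : H) * (m : H) = (u : H) := hfm
      have hmU : (m : H) ∈ U := by
        have h1 : (m : H) = (f : H)⁻¹ * (u : H) := by rw [← hfm']; group
        rw [h1]
        exact U.mul_mem (U.inv_mem (hF'U f.2)) u.2
      have hu' : u = (⟨f, hF'U f.2⟩ : U) * ⟨m, hmU⟩ := Subtype.ext hfm'.symm
      rw [hu']
      refine Subgroup.mul_mem_sup ?_ ?_
      · rw [Subgroup.mem_subgroupOf]
        exact f.2
      · rw [Subgroup.mem_subgroupOf]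
        exact m.2
    · refine sup_le ?_ ?_
      · intro u hu
        rw [Subgroup.mem_subgroupOf] at hu ⊢
        exact hF'M hu
      · intro u hu
        rw [Subgroup.mem_subgroupOf] at hu ⊢
        exact hM''M hu
  -- the count
  obtain ⟨z, hz1, hz2⟩ := hCNT s t r H {i : SS H // ¬ J i} (fun i => i.1.1)
    (fun i j hij => hcomm i.1 j.1 (fun h => hij (Subtype.ext h)))
    (hind.comp Subtype.val_injective) (fun i => i.1.2.2) (fun i => hns i.1)
    (fun i => 4 * Nat.card (MulAut i.1.1))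
    (fun i Y hY => (hLc i.1.1 i.1.2.1 i.1.2.2).1 Y hY)
    (fun i => (hLc i.1.1 i.1.2.1 i.1.2.2).2) (U ⊓ M'') inf_le_right
    (fun i hi => by
      by_contra hf
      exact i.2 ⟨hi.trans inf_le_left, hf⟩)
  have hz1' : z * Nat.card (U ⊓ M'' : Subgroup H) = Nat.card M'' := hz1
  have eZ : (M''.subgroupOf U) ≃* (U ⊓ M'' : Subgroup H) :=
    ((M''.subgroupOf U).equivMapOfInjective U.subtype U.subtype_injective).trans
      (MulEquiv.subgroupCongr (by rw [Subgroup.subgroupOf_map_subtype, inf_comm]))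
  have hcardZ : Nat.card (M''.subgroupOf U) = Nat.card (U ⊓ M'' : Subgroup H) :=
    Nat.card_congr eZ.toEquiv
  have hcardF : Nat.card (F'.subgroupOf U) = Nat.card F' :=
    Nat.card_congr (Subgroup.subgroupOfEquivOfLe hF'U).toEquiv
  refine ⟨{i : SS H // J i}, inferInstance, fun i => i.1.1,
    fun i => ⟨i.1.2.1, i.1.2.2, i.2.2⟩, F'.subgroupOf U, M''.subgroupOf U, hFn, hZn, ?_, ?_,
    (∏ S : SS H, (4 * Nat.card (MulAut S.1))) / Nat.card (soc H), Nat.card M'', z, ?_, ?_, ?_,
    ?_, ?_⟩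
  · rw [Subgroup.disjoint_def]
    intro x hx hx'
    rw [Subgroup.mem_subgroupOf] at hx hx'
    exact Subtype.ext (Subgroup.disjoint_def.mp hdis' hx hx')
  · exact ⟨(Subgroup.subgroupOfEquivOfLe hF'U).trans e⟩
  · intro V
    rw [Nat.le_div_iff_mul_le Nat.card_pos]
    have := hnorm
    let φ : U ⧸ (F'.subgroupOf U ⊔ M''.subgroupOf U) →* H ⧸ soc H :=
      QuotientGroup.map _ (soc H) U.subtype (by
        intro u hu
        rw [← hUM] at hu
        exact hu)
    have hφ : Function.Injective φ := by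
      rw [injective_iff_map_eq_one]
      intro q
      obtain ⟨u, rfl⟩ := QuotientGroup.mk_surjective q
      intro hq
      have h1 : ((u : H) : H ⧸ soc H) = 1 := hq
      rw [QuotientGroup.eq_one_iff] at h1
      rw [QuotientGroup.eq_one_iff, ← hUM, Subgroup.mem_subgroupOf]
      exact h1
    have h2 := hOUT H hrad (soc H) rfl (V.map φ)
    rw [ACD8.kc_congr (V.equivMapOfInjective φ hφ)]
    exact h2
  · refine numbers s r t _ _ _ _ _ _ (∏ i : {i : SS H // ¬ J i}, 4 * Nat.card (MulAut i.1.1))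
      (Nat.card (soc H)) (∏ S : SS H, (4 * Nat.card (MulAut S.1))) Nat.card_pos ?_ ?_ ?_ ?_
    · exact Fintype.prod_subtype_mul_prod_subtype J (fun S : SS H => 4 * Nat.card (MulAut S.1))
    · exact Nat.div_mul_le_self _ _
    · rw [hcardF, ← Nat.card_prod]
      refine Nat.card_le_card_of_injective
        (fun x : F' × M'' => (⟨x.1.1 * x.2.1, (soc H).mul_mem (hF'M x.1.2) (hM''M x.2.2)⟩ :
          soc H)) ?_
      intro x y hxy
      exact Subgroup.mul_injective_of_disjoint hdis' (congrArg Subtype.val hxy)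
    · rw [ACD8.kc_congr eZ]
      exact hz2
  · rw [hcardZ]
    exact hz1'
  · have h1 : z = (U.subgroupOf M'').index := by
      have h2 : (U.subgroupOf M'').index * Nat.card (U.subgroupOf M'') = Nat.card M'' :=
        Subgroup.index_mul_card _
      have h3 : Nat.card (U.subgroupOf M'') = Nat.card (U ⊓ M'' : Subgroup H) := by
        refine Nat.card_congr (((U.subgroupOf M'').equivMapOfInjective M''.subtype
          M''.subtype_injective).trans (MulEquiv.subgroupCongr ?_)).toEquiv
        rw [Subgroup.subgroupOf_map_subtype]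
      rw [h3, ← hz1'] at h2
      exact (Nat.eq_of_mul_eq_mul_right Nat.card_pos h2).symm
    rw [h1]
    have h4 : U.relIndex M'' ≤ U.relIndex ⊤ :=
      Subgroup.relIndex_le_of_le_right le_top (by
        rw [Subgroup.relIndex_top_right]
        exact Subgroup.index_ne_zero_of_finite)
    rw [Subgroup.relIndex_top_right] at h4
    exact h4
  · exact Subgroup.card_le_card_group M''

end Pool.Agent.RadIndex.RI
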