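import Pool.Agent.Work.MP_76dc41_al.RI.Stmts

/-!
# INV: the average degree over an invariant character
-/

set_option autoImplicit false
set_option linter.unusedSectionVars false

open Module Representation Pool.Agent.DC7914

namespace Pool.Agent.RadIndex.RI

open Pool.Agent Pool.Agent.RadIndex

namespace IINV

/-- the preimage of `F` modulo `N` is `F` -/
theorem iso_comap {G : Type} [Group G] (N : Subgroup G) [N.Normal] (F : Subgroup (G ⧸ N)) :
    Nonempty ((F.comap (QuotientGroup.mk' N) : Subgroup G) ⧸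
      N.subgroupOf (F.comap (QuotientGroup.mk' N)) ≃* F) := by
  let A : Subgroup G := F.comap (QuotientGroup.mk' N)
  let p : A →* F := ((QuotientGroup.mk' N).comp A.subtype).codRestrict F (fun a => a.2)
  have hp : Function.Surjective p := by
    rintro ⟨x, hx⟩
    obtain ⟨g, rfl⟩ := QuotientGroup.mk'_surjective N x
    exact ⟨⟨g, hx⟩, rfl⟩
  have hpk : p.ker = N.subgroupOf A := by
    ext a
    rw [MonoidHom.mem_ker, Subgroup.mem_subgroupOf]
    constructor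
    · intro h
      have h1 : (QuotientGroup.mk' N) (a : G) = 1 := congrArg Subtype.val h
      exact (QuotientGroup.eq_one_iff (a : G)).1 h1
    · intro h
      exact Subtype.ext ((QuotientGroup.eq_one_iff (a : G)).2 h)
  exact ⟨(QuotientGroup.quotientMulEquivOfEq hpk.symm).trans
      (QuotientGroup.quotientKerEquivOfSurjective p hp)⟩

/-- the quotient by a preimage -/
theorem iso_quot {G : Type} [Group G] (N : Subgroup G) [N.Normal] (M : Subgroup (G ⧸ N))
    [M.Normal] (A : Subgroup G) [A.Normal] (hA : A = M.comap (QuotientGroup.mk' N)) :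
    Nonempty (G ⧸ A ≃* (G ⧸ N) ⧸ M) := by
  let p : G →* (G ⧸ N) ⧸ M := (QuotientGroup.mk' M).comp (QuotientGroup.mk' N)
  have hp : Function.Surjective p :=
    (QuotientGroup.mk'_surjective M).comp (QuotientGroup.mk'_surjective N)
  have hpk : p.ker = A := by
    rw [hA, ← MonoidHom.comap_ker, QuotientGroup.ker_mk']
  exact ⟨(QuotientGroup.quotientMulEquivOfEq hpk.symm).trans
      (QuotientGroup.quotientKerEquivOfSurjective p hp)⟩

/-- linear characters of a product of perfect groups -/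
theorem pi_perf {ι : Type} [Fintype ι] (S : ι → Type) [∀ i, Group (S i)]
    (h : ∀ i, ∀ f : S i →* ℂˣ, f = 1) (f : (∀ i, S i) →* ℂˣ) : f = 1 := by
  classical
  refine MonoidHom.pi_ext fun i x => ?_
  have h1 := DFunLike.congr_fun (h i (f.comp (MonoidHom.mulSingle S i))) x
  simpa using h1

/-- the class numbers of the subgroups of isomorphic groups -/
theorem kc_sub {G H : Type} [Group G] [Group H] (e : G ≃* H) (κ : ℕ)
    (h : ∀ V : Subgroup H, ACD8.kc V ≤ κ) (V : Subgroup G) : ACD8.kc V ≤ κ := by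
  rw [ACD8.kc_congr (e.subgroupMap V)]
  exact h _

end IINV

open IINV

/-- INV. -/
theorem pr_INV (hLM : StLM) (hNUM : StNUM) (hRPI : StRPI) : StINV := by
  intro s t hs hst hts G _ _ N _ _ l hl hinv F Z _ _ hFZ ι _ S _ _ hFS hS1 τ ζ hτ hζ hR κ hκ i q
    hi hq hq4 hmain
  classical
  obtain ⟨eF⟩ := hFS
  obtain ⟨A, hAdef⟩ : ∃ A : Subgroup G, A = F.comap (QuotientGroup.mk' N) := ⟨_, rfl⟩
  obtain ⟨B, hBdef⟩ : ∃ B : Subgroup G, B = Z.comap (QuotientGroup.mk' N) := ⟨_, rfl⟩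
  haveI hAn : A.Normal := hAdef ▸ inferInstance
  haveI hBn : B.Normal := hBdef ▸ inferInstance
  have hmA : ∀ g : G, g ∈ A ↔ (QuotientGroup.mk' N g) ∈ F := fun g => by
    rw [hAdef, Subgroup.mem_comap]
  have hmB : ∀ g : G, g ∈ B ↔ (QuotientGroup.mk' N g) ∈ Z := fun g => by
    rw [hBdef, Subgroup.mem_comap]
  have hN1 : ∀ g ∈ N, QuotientGroup.mk' N g = 1 := fun g hg => (QuotientGroup.eq_one_iff g).2 hg
  have hA : N ≤ A := fun g hg => by rw [hmA, hN1 g hg]; exact F.one_mem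
  have hB : N ≤ B := fun g hg => by rw [hmB, hN1 g hg]; exact Z.one_mem
  have hAB : A ⊓ B ≤ N := by
    rintro g ⟨h1, h2⟩
    have h3 : QuotientGroup.mk' N g ∈ F ⊓ Z := ⟨(hmA g).1 h1, (hmB g).1 h2⟩
    rw [hFZ.eq_bot, Subgroup.mem_bot] at h3
    exact (QuotientGroup.eq_one_iff g).1 h3
  have isoA : Nonempty (A ⧸ N.subgroupOf A ≃* F) := by
    subst hAdef; exact iso_comap N F
  have isoB : Nonempty (B ⧸ N.subgroupOf B ≃* Z) := by
    subst hBdef; exact iso_comap N Z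
  have isoGA : Nonempty (G ⧸ A ≃* (G ⧸ N) ⧸ F) := iso_quot N F A hAdef
  have isoGAB : Nonempty (G ⧸ (A ⊔ B) ≃* (G ⧸ N) ⧸ (F ⊔ Z)) := by
    refine iso_quot N (F ⊔ Z) (A ⊔ B) ?_
    rw [hAdef, hBdef, Subgroup.comap_sup_eq _ _ _ (QuotientGroup.mk'_surjective N)]
  obtain ⟨eA⟩ := isoA
  obtain ⟨eB⟩ := isoB
  obtain ⟨eGA⟩ := isoGA
  obtain ⟨eGAB⟩ := isoGAB
  haveI : Fintype A := Fintype.ofFinite _
  haveI : Fintype (N.subgroupOf A) := Fintype.ofFinite _
  have hperf : ∀ f : A →* ℂˣ, (∀ n : A, (n : G) ∈ N → f n = 1) → f = 1 := by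
    intro f hf
    have h1 : N.subgroupOf A ≤ f.ker := fun a ha => hf a (Subgroup.mem_subgroupOf.1 ha)
    let f' : A ⧸ N.subgroupOf A →* ℂˣ := QuotientGroup.lift (N.subgroupOf A) f h1
    have h2 : f'.comp ((eF.symm.trans eA.symm).toMonoidHom) = 1 := pi_perf S hS1 _
    ext a
    have h3 := DFunLike.congr_fun h2 (eF (eA (QuotientGroup.mk a)))
    have h4 : f' (QuotientGroup.mk a) = f a := rfl
    have h5 : f' (QuotientGroup.mk a) = 1 := by simpa using h3
    rw [← h4, h5]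
    rfl
  -- the rich product
  have hRich : Rich (∀ i, S i) (∏ j, τ j) (∏ j, ζ j) := hRPI ι S τ ζ hτ hζ hS1 hR
  have hdl : IsIrrChar (down hA l) := STEP_irr_down hA hl
  have hdinv : ∀ a : A, cj a (down hA l) = down hA l :=
    fun a => BIJ_down_cj hA (fun a _ => hinv a) a
  obtain ⟨hr1, hr2⟩ := hRich A (N.subgroupOf A) (down hA l) ⟨eA.trans eF⟩ hdl hdinv
  rw [STEP_down_one] at hr1
  rw [STEP_down_one] at hr2
  have hκ' : ∀ V : Subgroup (G ⧸ (A ⊔ B)), ACD8.kc V ≤ κ := kc_sub eGAB κ hκ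
  obtain ⟨hL1, hL2, hL3⟩ := hLM G N A B hA hB hAB hperf κ hκ' l hl hinv _ _ hr1 hr2
  have hkZ : ACD8.kc (B ⧸ N.subgroupOf B) = ACD8.kc Z := ACD8.kc_congr eB
  have hcZ : Nat.card (B ⧸ N.subgroupOf B) = Nat.card Z := Nat.card_congr eB.toEquiv
  have hcA : Nat.card (G ⧸ A) * Nat.card F = Nat.card (G ⧸ N) := by
    rw [Nat.card_congr eGA.toEquiv]
    have h1 := Subgroup.card_eq_card_quotient_mul_card_subgroup F
    exact h1.symm
  have hl0 : 0 < ‖l 1‖ := lt_of_lt_of_le one_pos (one_le_deg hl)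
  have hcN : (1 : ℝ) ≤ Nat.card (G ⧸ N) := by exact_mod_cast Nat.card_pos
  have hcF : (1 : ℝ) ≤ Nat.card F := by exact_mod_cast Nat.card_pos
  have hcZ1 : (1 : ℝ) ≤ Nat.card Z := by exact_mod_cast Nat.card_pos
  have hκ1 : 1 ≤ κ := le_trans (ACD8.kc_pos (⊥ : Subgroup ((G ⧸ N) ⧸ (F ⊔ Z)))) (hκ ⊥)
  have hK1 : (1 : ℝ) ≤ (κ : ℝ) * ACD8.kc Z := by
    have h1 : 1 ≤ κ * ACD8.kc Z := Nat.mul_pos hκ1 (ACD8.kc_pos Z)
    exact_mod_cast h1
  have hi0 : (0 : ℝ) < i := by linarith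
  have hD0 : (0 : ℝ) ≤ ((ovr N l).card : ℝ) := Nat.cast_nonneg _
  have hT0 : 0 ≤ (∑ χ ∈ ovr N l, ‖χ 1‖) / ‖l 1‖ :=
    div_nonneg (Finset.sum_nonneg fun χ _ => norm_nonneg _) hl0.le
  have hmain2 := hNUM s t hs hst hts (i * Nat.card (G ⧸ N)) i (Nat.card F) (Nat.card Z)
    ((κ : ℝ) * ACD8.kc Z) (∏ j, τ j) (∏ j, ζ j) ((ovr N l).card : ℝ)
    ((∑ χ ∈ ovr N l, ‖χ 1‖) / ‖l 1‖) q (by nlinarith) hi hcF hcZ1 hK1
    (Finset.prod_pos fun j _ => hτ j) (Finset.prod_pos fun j _ => hζ j) hD0 hT0 hq hq4 hmain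
    (by rw [le_div_iff₀ hl0, ← hcZ]; exact hL1)
    (by
      rw [le_div_iff₀ hl0, mul_div_cancel_left₀ _ hi0.ne']
      exact hL2)
    (by
      intro X R hX hRR hcase
      have hq1 : i * (Nat.card (G ⧸ N) : ℝ) / (i * Nat.card F) = Nat.card (G ⧸ A) := by
        rw [mul_div_mul_left _ _ hi0.ne', div_eq_iff (by linarith), ← hcA]
        push_cast
        ring
      have h1 := hL3 X R hX hRR (by
        rcases hcase with h | h
        · exact Or.inl h
        · refine Or.inr ?_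
          rw [hq1] at h
          rw [hkZ, mul_comm (ACD8.kc Z : ℝ) (κ : ℝ)]
          exact h)
      rw [hkZ] at h1
      refine h1.trans (le_of_eq ?_)
      rw [div_div]
      ring)
  have h6 : q * ((ovr N l).card : ℝ) * ‖l 1‖ ≤
      i * ((∑ χ ∈ ovr N l, ‖χ 1‖) / ‖l 1‖) * ‖l 1‖ :=
    mul_le_mul_of_nonneg_right hmain2 hl0.le
  refine h6.trans (le_of_eq ?_)
  rw [mul_assoc, div_mul_cancel₀ _ hl0.ne']

end Pool.Agent.RadIndex.RI
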