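import Pool.Agent.Work.MP_76dc41_al.RI.Stmts

/-! Item [76dc41 RI IPR] (helper54): internal direct products. -/

set_option autoImplicit false
set_option linter.unusedSectionVars false

open Module Representation Pool.Agent.DC7914

namespace Pool.Agent.RadIndex.RI

open Pool.Agent Pool.Agent.RadIndex

namespace IIPR

variable {H : Type} [Group H] {ι : Type}

theorem pairwise_comm {S : ι → Subgroup H}
    (hc : ∀ i j, i ≠ j → ∀ x ∈ S i, ∀ y ∈ S j, x * y = y * x) :
    Pairwise fun i j : ι => ∀ x y : H, x ∈ S i → y ∈ S j → Commute x y :=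
  fun i j hij x y hx hy => hc i j hij x hx y hy

theorem equiv_pi [Fintype ι] {S : ι → Subgroup H}
    (hc : ∀ i j, i ≠ j → ∀ x ∈ S i, ∀ y ∈ S j, x * y = y * x) (hi : iSupIndep S) :
    Nonempty ((⨆ i, S i : Subgroup H) ≃* (∀ i, S i)) := by
  classical
  have hcomm := pairwise_comm hc
  have hinj := Subgroup.injective_noncommPiCoprod_of_iSupIndep (hcomm := hcomm) hi
  have hrange := Subgroup.noncommPiCoprod_range (hcomm := hcomm)
  have e1 : (∀ i, S i) ≃* (Subgroup.noncommPiCoprod hcomm).range := MonoidHom.ofInjective hinj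
  rw [hrange] at e1
  exact ⟨e1.symm⟩

/-- an element of the join of the part in `J` has components only in `J` -/
theorem supp [Fintype ι] [DecidableEq ι] {S : ι → Subgroup H}
    (hcomm : Pairwise fun i j : ι => ∀ x y : H, x ∈ S i → y ∈ S j → Commute x y) (J : ι → Prop)
    (x : H) (hx : x ∈ (⨆ i : {i // J i}, S i.1)) :
    ∃ f : ∀ i, S i, (∀ i, ¬ J i → f i = 1) ∧ Subgroup.noncommPiCoprod hcomm f = x := by
  let P : Subgroup (∀ i, S i) :=
    { carrier := {f | ∀ i, ¬ J i → f i = 1}
      mul_mem' := by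
        intro a b ha hb i hi
        show a i * b i = 1
        rw [ha i hi, hb i hi, one_mul]
      one_mem' := fun i _ => rfl
      inv_mem' := by
        intro a ha i hi
        show (a i)⁻¹ = 1
        rw [ha i hi, inv_one] }
  have hle : (⨆ i : {i // J i}, S i.1) ≤ P.map (Subgroup.noncommPiCoprod hcomm) := by
    refine iSup_le fun i y hy => ?_
    refine ⟨Pi.mulSingle i.1 ⟨y, hy⟩, ?_, ?_⟩
    · intro j hj
      have hne : j ≠ i.1 := by
        rintro rfl
        exact hj i.2
      exact Pi.mulSingle_eq_of_ne hne _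
    · exact Subgroup.noncommPiCoprod_mulSingle (hcomm := hcomm) i.1 ⟨y, hy⟩
  obtain ⟨f, hf, e⟩ := hle hx
  exact ⟨f, hf, e⟩

end IIPR

theorem pr_IPR : StIPR := by
  intro H _ _ ι _ S hc hi J
  classical
  have hcomm := IIPR.pairwise_comm hc
  refine ⟨?_, ?_, ?_, ?_⟩
  · exact IIPR.equiv_pi (S := fun i : {i // J i} => S i.1)
      (fun i j hij => hc i.1 j.1 (fun h => hij (Subtype.ext h)))
      (hi.comp Subtype.val_injective)
  · rw [Subgroup.disjoint_def]
    intro x hx hy
    obtain ⟨f, hf, e⟩ := IIPR.supp hcomm J x hx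
    obtain ⟨f', hf', e'⟩ := IIPR.supp hcomm (fun i => ¬ J i) x hy
    have hinj := Subgroup.injective_noncommPiCoprod_of_iSupIndep (hcomm := hcomm) hi
    have hff : f = f' := hinj (e.trans e'.symm)
    have h1 : f = 1 := by
      funext i
      by_cases h : J i
      · rw [hff]
        exact hf' i (not_not.2 h)
      · exact hf i h
    rw [← e, h1, map_one]
  · have hle : (⨆ i : {i // J i}, S i.1) ≤
        Subgroup.centralizer ((⨆ i : {i // ¬ J i}, S i.1 : Subgroup H) : Set H) := by
      refine iSup_le fun i => ?_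
      rw [Subgroup.le_centralizer_iff]
      refine iSup_le fun j => ?_
      intro y hy
      rw [Subgroup.mem_centralizer_iff]
      intro z hz
      have hne : i.1 ≠ j.1 := fun h => j.2 (h ▸ i.2)
      exact hc i.1 j.1 hne z hz y hy
    intro x hx y hy
    have h := hle hx
    rw [Subgroup.mem_centralizer_iff] at h
    exact (h y hy).symm
  · refine le_antisymm (sup_le (iSup_le fun i => le_iSup S i.1) (iSup_le fun i => le_iSup S i.1)) ?_
    refine iSup_le fun i => ?_
    by_cases h : J i
    · exact (le_iSup (fun i : {i // J i} => S i.1) ⟨i, h⟩).trans le_sup_left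
    · exact (le_iSup (fun i : {i // ¬ J i} => S i.1) ⟨i, h⟩).trans le_sup_right

end Pool.Agent.RadIndex.RI
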