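import Pool.Agent.Work.MP_76dc41_al.RI.Stmts

/-! Block RI, item LM (helper57). -/

set_option autoImplicit false
set_option linter.unusedSectionVars false

open Module Representation Pool.Agent.DC7914

namespace Pool.Agent.RadIndex.RI

open Pool.Agent Pool.Agent.RadIndex

namespace ILM

theorem sq_sum_le {ι : Type*} (s : Finset ι) (f : ι → ℝ) (hf : ∀ i ∈ s, 0 ≤ f i) :
    ∑ i ∈ s, f i ^ 2 ≤ (∑ i ∈ s, f i) ^ 2 := by
  rw [sq (∑ i ∈ s, f i), Finset.sum_mul]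
  refine Finset.sum_le_sum fun i hi => ?_
  rw [sq]
  exact mul_le_mul_of_nonneg_left (Finset.single_le_sum hf hi) (hf i hi)

theorem sqrt_le_sum {ι : Type*} (s : Finset ι) (f : ι → ℝ) (hf : ∀ i ∈ s, 0 ≤ f i) :
    Real.sqrt (∑ i ∈ s, f i ^ 2) ≤ ∑ i ∈ s, f i := by
  rw [Real.sqrt_le_left (Finset.sum_nonneg hf)]
  exact sq_sum_le s f hf

theorem block_sum {G : Type} [Group G] [Fintype G] (N : Subgroup G) [N.Normal] [Fintype N] (l : N → ℂ)
    (hl : IsIrrChar l) : Real.sqrt (((orb N l).card : ℝ) * Nat.card (G ⧸ N)) * ‖l 1‖ ≤ ∑ χ ∈ ovr N l, ‖χ 1‖ := by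
  have h := (prf_BLOCK G N l hl).2.1
  have h1 := sqrt_le_sum (ovr N l) (fun χ => ‖χ 1‖) fun χ _ => norm_nonneg _
  rw [← h, Real.sqrt_mul (by positivity), Real.sqrt_sq (norm_nonneg _)] at h1
  exact h1

theorem orb_pos {G : Type} [Group G] [Fintype G] (N : Subgroup G) [N.Normal] (l : N → ℂ) :
    (1 : ℝ) ≤ ((orb N l).card : ℝ) := by
  have h : 0 < (orb N l).card := Finset.card_pos.2 ⟨l, self_mem_orb l⟩
  exact_mod_cast h

theorem card_le {G : Type} [Group G] [Finite G] (N A B : Subgroup G) [N.Normal] [A.Normal]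
    (hA : N ≤ A) (hAB : A ⊓ B ≤ N) (K : Subgroup (G ⧸ A))
    (hK : ∀ b ∈ B, (QuotientGroup.mk b : G ⧸ A) ∈ K) :
    Nat.card (B ⧸ N.subgroupOf B) * K.index ≤ Nat.card (G ⧸ A) := by
  let f : B →* G ⧸ A := (QuotientGroup.mk' A).comp B.subtype
  have hker : f.ker = N.subgroupOf B := by
    ext x
    rw [MonoidHom.mem_ker, Subgroup.mem_subgroupOf]
    constructor
    · intro h
      have h1 : (x : G) ∈ A := (QuotientGroup.eq_one_iff (x : G)).1 h
      exact hAB ⟨h1, x.2⟩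
    · intro h
      exact (QuotientGroup.eq_one_iff (x : G)).2 (hA h)
  have h1 : Nat.card (B ⧸ N.subgroupOf B) = Nat.card f.range := by
    have h2 : Nat.card (B ⧸ f.ker) = Nat.card f.range :=
      Nat.card_congr (QuotientGroup.quotientKerEquivRange f).toEquiv
    rw [← h2, hker]
  have h3 : f.range ≤ K := by
    rintro _ ⟨b, rfl⟩
    exact hK b b.2
  have h4 : Nat.card f.range ≤ Nat.card K :=
    Nat.card_le_card_of_injective _ (Subgroup.inclusion_injective h3)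
  calc Nat.card (B ⧸ N.subgroupOf B) * K.index = Nat.card f.range * K.index := by rw [h1]
    _ ≤ Nat.card K * K.index := Nat.mul_le_mul_right _ h4
    _ = Nat.card (G ⧸ A) := K.card_mul_index

end ILM

theorem pr_LM (hSTB : StSTB) (hSUM : StSUM) (hFIX : StFIX) (hFIB : StFIB) : StLM := by
  intro G _ _ N A B _ _ _ _ _ _ hA hB hAB hperf κ hκ l hl hinv τ ζ hτ hζ
  have hl0 : 0 < ‖l 1‖ := norm_pos_iff.2 hl.one_ne_zero
  have hΦ : ∀ φ ∈ ovr (N.subgroupOf A) (down hA l), IsIrrChar φ := fun φ hφ =>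
    mem_irrs.1 (Finset.mem_filter.1 hφ).1
  have hφ0 : ∀ φ ∈ ovr (N.subgroupOf A) (down hA l), 0 < ‖φ 1‖ := fun φ hφ =>
    norm_pos_iff.2 (hΦ φ hφ).one_ne_zero
  set k : ℕ := ACD8.kc (B ⧸ N.subgroupOf B) with hk
  set z : ℕ := Nat.card (B ⧸ N.subgroupOf B) with hz
  set w : ℕ := Nat.card (G ⧸ A) with hw
  -- the facts for one character
  have key : ∀ φ ∈ ovr (N.subgroupOf A) (down hA l),
      ((ovr A φ).card : ℝ) ≤ (k : ℝ) * κ ∧ (z : ℝ) * (orb A φ).card ≤ w := by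
    intro φ hφ
    obtain ⟨K, hK, hKi, hKc⟩ := hSTB G A φ (hΦ φ hφ)
    have hKB : ∀ b ∈ B, (QuotientGroup.mk b : G ⧸ A) ∈ K := fun b hb =>
      (hK b).2 (hFIX G N A B hA hAB hperf l hl hinv φ hφ b hb)
    have h1 := hFIB G N A B hA hB hAB κ hκ K hKB
    have h2 := ILM.card_le N A B hA hAB K hKB
    rw [hKi] at h2
    exact ⟨by exact_mod_cast hKc.trans h1, by exact_mod_cast h2⟩
  have y0 : ∀ φ : A → ℂ, 0 ≤ ∑ χ ∈ ovr A φ, ‖χ 1‖ := fun φ => Finset.sum_nonneg fun χ _ => norm_nonneg _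
  have y1 : ∀ φ ∈ ovr (N.subgroupOf A) (down hA l),
      ((orb A φ).card : ℝ) * Real.sqrt z * ‖φ 1‖ ≤ ∑ χ ∈ ovr A φ, ‖χ 1‖ := by
    intro φ hφ
    refine le_trans ?_ (ILM.block_sum A φ (hΦ φ hφ))
    refine mul_le_mul_of_nonneg_right ?_ (norm_nonneg _)
    have ho := ILM.orb_pos A φ
    refine Real.le_sqrt_of_sq_le ?_
    rw [mul_pow, Real.sq_sqrt (by positivity)]
    have h := (key φ hφ).2
    nlinarith
  have y2 : ∀ φ ∈ ovr (N.subgroupOf A) (down hA l),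
      Real.sqrt w * ‖φ 1‖ ≤ ∑ χ ∈ ovr A φ, ‖χ 1‖ := by
    intro φ hφ
    refine le_trans ?_ (ILM.block_sum A φ (hΦ φ hφ))
    refine mul_le_mul_of_nonneg_right (Real.sqrt_le_sqrt ?_) (norm_nonneg _)
    have ho := ILM.orb_pos A φ
    have hw0 : (0 : ℝ) ≤ w := by positivity
    nlinarith
  have y3 : ∀ φ ∈ ovr (N.subgroupOf A) (down hA l),
      ((ovr A φ).card : ℝ) * ‖φ 1‖ ≤ ∑ χ ∈ ovr A φ, ‖χ 1‖ := by
    intro φ hφ
    have h := (prf_BLOCK G A φ (hΦ φ hφ)).1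
    have ho := ILM.orb_pos A φ
    have h1 : ∑ _χ ∈ ovr A φ, ‖φ 1‖ ≤ ∑ χ ∈ ovr A φ, ‖χ 1‖ := by
      refine Finset.sum_le_sum fun χ hχ => le_trans ?_ (h χ hχ)
      have := norm_nonneg (φ 1)
      nlinarith
    rwa [Finset.sum_const, nsmul_eq_mul] at h1
  refine ⟨?_, ?_, ?_⟩
  · rw [hSUM G N A hA l hl hinv fun χ => ‖χ 1‖]
    calc Real.sqrt z * τ * ‖l 1‖ = Real.sqrt z * (τ * ‖l 1‖) := by ring
      _ ≤ Real.sqrt z * ∑ φ ∈ ovr (N.subgroupOf A) (down hA l), ‖φ 1‖ :=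
        mul_le_mul_of_nonneg_left hτ (Real.sqrt_nonneg _)
      _ = ∑ φ ∈ ovr (N.subgroupOf A) (down hA l), Real.sqrt z * ‖φ 1‖ := by rw [Finset.mul_sum]
      _ ≤ _ := by
        refine Finset.sum_le_sum fun φ hφ => ?_
        have ho := ILM.orb_pos A φ
        have ho' : (0 : ℝ) < (orb A φ).card := by linarith
        rw [le_div_iff₀ ho']
        have := y1 φ hφ
        linarith
  · refine le_trans ?_ (ILM.block_sum N l hl)
    refine mul_le_mul_of_nonneg_right (Real.sqrt_le_sqrt ?_) (norm_nonneg _)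
    have ho := ILM.orb_pos N l
    have hw0 : (0 : ℝ) ≤ (Nat.card (G ⧸ N) : ℝ) := by positivity
    nlinarith
  · intro X R hX hR hXR
    have hcard : ((ovr N l).card : ℝ) = ∑ φ ∈ ovr (N.subgroupOf A) (down hA l),
        ((ovr A φ).card : ℝ) / ((orb A φ).card : ℝ) := by
      have h := hSUM G N A hA l hl hinv fun _ => 1
      simpa using h
    have hsum := hSUM G N A hA l hl hinv fun χ => ‖χ 1‖
    have hkκ : (0 : ℝ) ≤ (k : ℝ) * κ := by positivity
    have hterm : ∀ φ ∈ ovr (N.subgroupOf A) (down hA l),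
        ((ovr A φ).card : ℝ) / ((orb A φ).card : ℝ) ≤
          ((∑ χ ∈ ovr A φ, ‖χ 1‖) / ((orb A φ).card : ℝ)) / (‖l 1‖ * X * R) +
          (k : ℝ) * κ * X * (‖l 1‖ / ‖φ 1‖) := by
      intro φ hφ
      have ho := ILM.orb_pos A φ
      have ho' : (0 : ℝ) < (orb A φ).card := by linarith
      have hp := hφ0 φ hφ
      have hc := (key φ hφ).1
      have hc0 : (0 : ℝ) ≤ ((ovr A φ).card : ℝ) := by positivity
      have hy0 := y0 φ
      have hD : 0 < ‖l 1‖ * X * R := by positivity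
      by_cases hcase : X * ‖l 1‖ ≤ ‖φ 1‖
      · have h1 : R * ‖φ 1‖ * ((ovr A φ).card : ℝ) ≤ ∑ χ ∈ ovr A φ, ‖χ 1‖ := by
          rcases hXR with h | h
          · have h3 := y3 φ hφ
            have h4 : 0 ≤ ((ovr A φ).card : ℝ) * ‖φ 1‖ := by positivity
            nlinarith
          · have h3 := y2 φ hφ
            have h4 : R * ((ovr A φ).card : ℝ) ≤ Real.sqrt w :=
              (mul_le_mul_of_nonneg_left hc hR.le).trans h
            have h5 := mul_le_mul_of_nonneg_right h4 hp.le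
            calc R * ‖φ 1‖ * ((ovr A φ).card : ℝ) = R * ((ovr A φ).card : ℝ) * ‖φ 1‖ := by ring
              _ ≤ Real.sqrt w * ‖φ 1‖ := h5
              _ ≤ _ := h3
        have h2 : ((ovr A φ).card : ℝ) * (‖l 1‖ * X * R) ≤ ∑ χ ∈ ovr A φ, ‖χ 1‖ := by
          refine le_trans ?_ h1
          have h6 : 0 ≤ R * ((ovr A φ).card : ℝ) := by positivity
          have h7 := mul_le_mul_of_nonneg_left hcase h6
          linarith
        have h8 : ((ovr A φ).card : ℝ) / ((orb A φ).card : ℝ) ≤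
            ((∑ χ ∈ ovr A φ, ‖χ 1‖) / ((orb A φ).card : ℝ)) / (‖l 1‖ * X * R) := by
          rw [le_div_iff₀ hD, div_mul_eq_mul_div]
          exact div_le_div_of_nonneg_right h2 ho'.le
        have h9 : 0 ≤ (k : ℝ) * κ * X * (‖l 1‖ / ‖φ 1‖) := by positivity
        linarith
      · push Not at hcase
        have h1 : ((ovr A φ).card : ℝ) / ((orb A φ).card : ℝ) ≤ ((ovr A φ).card : ℝ) := div_le_self hc0 ho
        have h2 : (1 : ℝ) ≤ X * (‖l 1‖ / ‖φ 1‖) := by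
          rw [← mul_div_assoc, le_div_iff₀ hp, one_mul]
          exact hcase.le
        have h3 : (k : ℝ) * κ ≤ (k : ℝ) * κ * X * (‖l 1‖ / ‖φ 1‖) := by
          have := mul_le_mul_of_nonneg_left h2 hkκ
          linarith
        have h4 : 0 ≤ ((∑ χ ∈ ovr A φ, ‖χ 1‖) / ((orb A φ).card : ℝ)) / (‖l 1‖ * X * R) := by positivity
        linarith
    rw [hcard, hsum]
    refine (Finset.sum_le_sum hterm).trans ?_
    rw [Finset.sum_add_distrib, ← Finset.sum_div, ← Finset.mul_sum]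
    have h5 : (k : ℝ) * κ * X * ∑ φ ∈ ovr (N.subgroupOf A) (down hA l), ‖l 1‖ / ‖φ 1‖ ≤
        (k : ℝ) * κ * X * ζ := mul_le_mul_of_nonneg_left hζ (by positivity)
    linarith

end Pool.Agent.RadIndex.RI
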