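import Pool.Agent.Work.MP_76dc41_al.RI.Stmts

/-!
# Item NCL: the number of characters over an invariant character, from below
-/

set_option autoImplicit false
set_option linter.unusedSectionVars false

open Module Representation Pool.Agent.DC7914

namespace Pool.Agent.RadIndex.RI

open Pool.Agent Pool.Agent.RadIndex

namespace INCL

section

variable {G : Type} [Group G] {N : Subgroup G} [N.Normal]
  {W : Type} [AddCommGroup W] [Module ℂ W]

open Classical in
/-- the extension of a representation by zero -/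
noncomputable def sg (σ : Representation ℂ N W) (g : G) : End ℂ W :=
  if h : g ∈ N then σ ⟨g, h⟩ else 0

theorem sg_coe (σ : Representation ℂ N W) (n : N) : sg σ (n : G) = σ n := by
  rw [sg, dif_pos n.2]

theorem sg_not (σ : Representation ℂ N W) {g : G} (h : g ∉ N) : sg σ g = 0 := by
  rw [sg, dif_neg h]

theorem sg_right (σ : Representation ℂ N W) (g : G) (n : N) :
    sg σ (g * n) = sg σ g * σ n := by
  by_cases h : g ∈ N
  · obtain ⟨m, rfl⟩ : ∃ m : N, (m : G) = g := ⟨⟨g, h⟩, rfl⟩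
    rw [← Subgroup.coe_mul, sg_coe, sg_coe, map_mul]
  · have : g * n ∉ N := fun h' => h ((Subgroup.mul_mem_cancel_right N n.2).1 h')
    rw [sg_not σ h, sg_not σ this, zero_mul]

theorem sg_left (σ : Representation ℂ N W) (g : G) (n : N) :
    sg σ (n * g) = σ n * sg σ g := by
  by_cases h : g ∈ N
  · obtain ⟨m, rfl⟩ : ∃ m : N, (m : G) = g := ⟨⟨g, h⟩, rfl⟩
    rw [← Subgroup.coe_mul, sg_coe, sg_coe, map_mul]
  · have : n * g ∉ N := fun h' => h ((Subgroup.mul_mem_cancel_left N n.2).1 h')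
    rw [sg_not σ h, sg_not σ this, mul_zero]

theorem sg_conj (σ : Representation ℂ N W) (a : G) (Y : End ℂ W)
    (hY : ∀ n : N, Y * σ n = σ (MulAut.conjNormal a n) * Y) (g : G) :
    Y * sg σ g = sg σ (a * g * a⁻¹) * Y := by
  by_cases h : g ∈ N
  · obtain ⟨m, rfl⟩ : ∃ m : N, (m : G) = g := ⟨⟨g, h⟩, rfl⟩
    have e : a * (m : G) * a⁻¹ = ((MulAut.conjNormal a m : N) : G) :=
      (MulAut.conjNormal_apply a m).symm
    rw [e, sg_coe, sg_coe, hY]
  · have : a * g * a⁻¹ ∉ N := fun h' => h (by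
      have := ‹N.Normal›.conj_mem _ h' a⁻¹
      simpa [mul_assoc] using this)
    rw [sg_not σ h, sg_not σ this, mul_zero, zero_mul]

theorem sg_conj_pow (σ : Representation ℂ N W) (a : G) (Y : End ℂ W)
    (hY : ∀ n : N, Y * σ n = σ (MulAut.conjNormal a n) * Y) (j : ℕ) (g : G) :
    Y ^ j * sg σ g = sg σ (a ^ j * g * (a ^ j)⁻¹) * Y ^ j := by
  induction j generalizing g with
  | zero => simp
  | succ j ih =>
    have e : a ^ (j + 1) * g * (a ^ (j + 1))⁻¹ = a * (a ^ j * g * (a ^ j)⁻¹) * a⁻¹ := by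
      rw [pow_succ', mul_inv_rev]
      simp only [mul_assoc]
    rw [e, pow_succ', mul_assoc, ih, ← mul_assoc, sg_conj σ a Y hY, mul_assoc]

/-- the function on the coset of `a ^ j` -/
noncomputable def ph (σ : Representation ℂ N W) (a : G) (Y : End ℂ W) (j : ℕ) (y : G) : ℂ :=
  LinearMap.trace ℂ W (Y ^ j * sg σ ((a ^ j)⁻¹ * y))

theorem ph_supp (σ : Representation ℂ N W) (a : G) (Y : End ℂ W) (j : ℕ) {y : G}
    (h : ph σ a Y j y ≠ 0) : (a ^ j)⁻¹ * y ∈ N := by
  by_contra hn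
  apply h
  rw [ph, sg_not σ hn, mul_zero, map_zero]

theorem ph_a (σ : Representation ℂ N W) (a : G) (Y Yi : End ℂ W) (h1 : Y * Yi = 1)
    (h2 : Yi * Y = 1) (hY : ∀ n : N, Y * σ n = σ (MulAut.conjNormal a n) * Y) (j : ℕ) (y : G) :
    ph σ a Y j (a⁻¹ * y * a) = ph σ a Y j y := by
  unfold ph
  set g := (a ^ j)⁻¹ * y with hg
  have e : (a ^ j)⁻¹ * (a⁻¹ * y * a) = a⁻¹ * g * a := by
    rw [hg]
    have : (a ^ j)⁻¹ * a⁻¹ = a⁻¹ * (a ^ j)⁻¹ := by
      rw [← mul_inv_rev, ← mul_inv_rev, ← pow_succ, ← pow_succ']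
    rw [← mul_assoc, ← mul_assoc, this]
    simp only [mul_assoc]
  rw [e]
  have h3 := sg_conj σ a Y hY (a⁻¹ * g * a)
  have e2 : a * (a⁻¹ * g * a) * a⁻¹ = g := by group
  rw [e2] at h3
  have h4 : sg σ (a⁻¹ * g * a) = Yi * (sg σ g * Y) := by
    rw [← h3, ← mul_assoc Yi Y, h2, one_mul]
  rw [h4]
  have h5 : Y ^ j * (Yi * (sg σ g * Y)) = (Y ^ j * Yi * sg σ g) * Y := by
    simp only [mul_assoc]
  rw [h5, LinearMap.trace_mul_comm]
  have h6 : Y * (Y ^ j * Yi * sg σ g) = Y ^ j * sg σ g := by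
    rw [← mul_assoc, ← mul_assoc, ← pow_succ', pow_succ, mul_assoc (Y ^ j) Y Yi, h1, mul_one]
  rw [h6]

theorem ph_N (σ : Representation ℂ N W) (a : G) (Y : End ℂ W)
    (hY : ∀ n : N, Y * σ n = σ (MulAut.conjNormal a n) * Y) (j : ℕ) (y : G) (k : N) :
    ph σ a Y j ((k : G)⁻¹ * y * k) = ph σ a Y j y := by
  unfold ph
  set g := (a ^ j)⁻¹ * y with hg
  have e : (a ^ j)⁻¹ * ((k : G)⁻¹ * y * k) =
      ((MulAut.conjNormal (a ^ j)⁻¹ k⁻¹ : N) : G) * g * k := by
    rw [hg, MulAut.conjNormal_apply, Subgroup.coe_inv]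
    group
  rw [e, sg_right, sg_left]
  have h3 := sg_conj_pow σ a Y hY j ((MulAut.conjNormal (a ^ j)⁻¹ k⁻¹ : N) : G)
  have e2 : a ^ j * ((MulAut.conjNormal (a ^ j)⁻¹ k⁻¹ : N) : G) * (a ^ j)⁻¹ = ((k⁻¹ : N) : G) := by
    rw [MulAut.conjNormal_apply]
    group
  rw [e2, sg_coe, sg_coe] at h3
  have h4 : Y ^ j * (σ (MulAut.conjNormal (a ^ j)⁻¹ k⁻¹) * sg σ g * σ k) =
      (σ k⁻¹ * (Y ^ j * sg σ g)) * σ k := by
    rw [← mul_assoc, ← mul_assoc, h3]
    simp only [mul_assoc]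
  rw [h4, LinearMap.trace_mul_comm, ← mul_assoc, ← map_mul, mul_inv_cancel, map_one, one_mul]

/-- the elements which fix a function -/
def fixer (F : G → ℂ) : Subgroup G where
  carrier := {g | ∀ y, F (g⁻¹ * y * g) = F y}
  mul_mem' := by
    intro a b ha hb y
    have e : (a * b)⁻¹ * y * (a * b) = b⁻¹ * (a⁻¹ * y * a) * b := by group
    rw [e, hb, ha]
  one_mem' := by intro y; simp
  inv_mem' := by
    intro a ha y
    have h := ha (a⁻¹⁻¹ * y * a⁻¹)
    have e : a⁻¹ * (a⁻¹⁻¹ * y * a⁻¹) * a = y := by group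
    rw [e] at h
    exact h.symm

theorem mem_fixer {F : G → ℂ} {g : G} : g ∈ fixer F ↔ ∀ y, F (g⁻¹ * y * g) = F y := Iff.rfl

theorem ph_inv (σ : Representation ℂ N W) (a : G) (Y Yi : End ℂ W) (h1 : Y * Yi = 1)
    (h2 : Yi * Y = 1) (hY : ∀ n : N, Y * σ n = σ (MulAut.conjNormal a n) * Y) (j : ℕ) (g : G)
    (i : ℤ) (hg : (g : G ⧸ N) = (a : G ⧸ N) ^ i) (y : G) :
    ph σ a Y j (g⁻¹ * y * g) = ph σ a Y j y := by
  have ha : a ∈ fixer (ph σ a Y j) := fun y => ph_a σ a Y Yi h1 h2 hY j y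
  have hk : ∀ k : N, (k : G) ∈ fixer (ph σ a Y j) := fun k y => ph_N σ a Y hY j y k
  have h3 : (a ^ i)⁻¹ * g ∈ N := by
    have h4 : ((a ^ i : G) : G ⧸ N) = (g : G ⧸ N) := by rw [hg]; rfl
    exact QuotientGroup.eq.1 h4
  have h5 : g = a ^ i * ((⟨_, h3⟩ : N) : G) := by
    simp only
    group
  have h6 : g ∈ fixer (ph σ a Y j) := by
    rw [h5]
    exact mul_mem (zpow_mem ha i) (hk _)
  exact h6 y

end

section

variable {G : Type} [Group G] [Fintype G] {N : Subgroup G} [N.Normal] [Fintype N]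
  {W : Type} [AddCommGroup W] [Module ℂ W] [FiniteDimensional ℂ W]

/-- the average of the conjugates of a function -/
noncomputable def avg (F : G → ℂ) (y : G) : ℂ := ∑ g : G, F (g⁻¹ * y * g)

theorem avg_class (F : G → ℂ) : IsClassFn (avg F) := by
  intro y x
  unfold avg
  refine Fintype.sum_equiv (Equiv.mulLeft x⁻¹) _ _ fun g => ?_
  congr 1
  simp only [Equiv.coe_mulLeft]
  group

theorem avg_WO (l : N → ℂ) (F : G → ℂ) (hF : ∀ y, ∑ m : N, fO l m * F (y * m) = F y) :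
    avg F ∈ WO (G := G) l := by
  refine ⟨avg_class F, fun y => ?_⟩
  unfold avg
  simp only [Finset.mul_sum]
  rw [Finset.sum_comm]
  refine Finset.sum_congr rfl fun g _ => ?_
  rw [← hF (g⁻¹ * y * g)]
  refine Fintype.sum_equiv (MulAut.conjNormal g⁻¹).toEquiv _ _ fun m => ?_
  have h1 : (MulAut.conjNormal g⁻¹ : MulAut N).toEquiv m = MulAut.conjNormal g⁻¹ m := rfl
  rw [h1, fO_cj]
  congr 2
  rw [MulAut.conjNormal_apply]
  group

theorem sum_fO (σ : Representation ℂ N W) (hσ : σ.IsIrreducible) (l : N → ℂ)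
    (hl : ∀ n, σ.character n = l n) (hinv : ∀ g : G, cj g l = l) :
    ∑ m : N, fO (G := G) l m • σ m = 1 := by
  have hnt := nontrivial_of_irr hσ
  have hd : (finrank ℂ W : ℂ) ≠ 0 := by
    exact_mod_cast (Module.finrank_pos (R := ℂ) (M := W)).ne'
  have hN : (Fintype.card N : ℂ) ≠ 0 := by exact_mod_cast Fintype.card_ne_zero
  have horb : orb N l = {l} := by
    ext m
    rw [mem_orb, Finset.mem_singleton]
    constructor
    · rintro ⟨g, rfl⟩; exact hinv g
    · rintro rfl; exact ⟨1, cj_id _⟩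
  have hfO : ∀ m : N, fO (G := G) l m = (finrank ℂ W / Fintype.card N : ℂ) *
      LinearMap.trace ℂ W (1 * σ m⁻¹) := by
    intro m
    have h1 : l 1 = finrank ℂ W := by rw [← hl, Representation.char_one]
    have h2 : LinearMap.trace ℂ W (1 * σ m⁻¹) = l m⁻¹ := by
      rw [one_mul, ← hl]; rfl
    rw [fO, horb, Finset.sum_singleton, h1, h2, Nat.card_eq_fintype_card]
  have hb := prf_BURN N W σ hσ 1
  calc ∑ m : N, fO (G := G) l m • σ m = (finrank ℂ W / Fintype.card N : ℂ) •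
        ∑ m : N, LinearMap.trace ℂ W (1 * σ m⁻¹) • σ m := by
        rw [Finset.smul_sum]
        refine Finset.sum_congr rfl fun m _ => ?_
        rw [hfO m, mul_smul]
    _ = 1 := by
        rw [hb, smul_smul]
        have : (finrank ℂ W / Fintype.card N : ℂ) * (Fintype.card N / finrank ℂ W) = 1 := by
          field_simp
        rw [this, one_smul]

theorem ph_WO (σ : Representation ℂ N W) (hσ : σ.IsIrreducible) (l : N → ℂ)
    (hl : ∀ n, σ.character n = l n) (hinv : ∀ g : G, cj g l = l) (a : G) (Y : End ℂ W) (j : ℕ)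
    (y : G) : ∑ m : N, fO l m * ph σ a Y j (y * m) = ph σ a Y j y := by
  have h1 : ∀ m : N, fO (G := G) l m * ph σ a Y j (y * m) =
      LinearMap.trace ℂ W (Y ^ j * sg σ ((a ^ j)⁻¹ * y) * (fO (G := G) l m • σ m)) := by
    intro m
    rw [ph, ← mul_assoc, sg_right, mul_smul_comm, map_smul, smul_eq_mul, mul_assoc]
  rw [Finset.sum_congr rfl fun m _ => h1 m, ← map_sum, ← Finset.mul_sum,
    sum_fO σ hσ l hl hinv, mul_one]
  rfl

theorem ph_ne (σ : Representation ℂ N W) (hσ : σ.IsIrreducible) (a : G) (Y Yi : End ℂ W)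
    (h1 : Y * Yi = 1) (h2 : Yi * Y = 1) (j : ℕ) :
    ∃ y : G, (a ^ j)⁻¹ * y ∈ N ∧ ph σ a Y j y ≠ 0 := by
  by_contra hcon
  push Not at hcon
  have hnt := nontrivial_of_irr hσ
  have hd : (finrank ℂ W : ℂ) ≠ 0 := by
    exact_mod_cast (Module.finrank_pos (R := ℂ) (M := W)).ne'
  have hN : (Fintype.card N : ℂ) ≠ 0 := by exact_mod_cast Fintype.card_ne_zero
  have h3 : ∀ n : N, LinearMap.trace ℂ W (Y ^ j * σ n) = 0 := by
    intro n
    have := hcon (a ^ j * n) (by rw [inv_mul_cancel_left]; exact n.2)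
    rwa [ph, inv_mul_cancel_left, sg_coe] at this
  have hb := prf_BURN N W σ hσ (Y ^ j)
  rw [Finset.sum_eq_zero (fun n _ => by rw [h3, zero_smul])] at hb
  have h4 : Y ^ j = 0 := by
    rcases smul_eq_zero.1 hb.symm with h | h
    · exact absurd h (div_ne_zero hN hd)
    · exact h
  have h5 : Y ^ j * Yi ^ j = 1 := by
    have hc : Commute Y Yi := by rw [commute_iff_eq, h1, h2]
    rw [← hc.mul_pow, h1, one_pow]
  rw [h4, zero_mul] at h5
  exact zero_ne_one h5

end

end INCL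

open INCL in
theorem pr_NCL : StNCL := by
  classical
  intro G _ _ N _ _ l hl hinv
  obtain ⟨d, σ, hσ, hch⟩ := hl
  have hl : IsIrrChar l := ⟨d, σ, hσ, hch⟩
  have hch' : ∀ n, σ.character n = l n := fun n => by rw [hch]
  set Ι := {C : ConjClasses (G ⧸ N) // ∀ x : G ⧸ N, ConjClasses.mk x = C →
      IsCyclic (Subgroup.centralizer ({x} : Set (G ⧸ N)))} with hI
  have hfin : Finite Ι := by rw [hI]; infer_instance
  have := Fintype.ofFinite Ι
  -- the data for a class
  have key : ∀ C : Ι, ∃ f : G → ℂ, f ∈ WO (G := G) l ∧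
      (∀ y, f y ≠ 0 → ConjClasses.mk (y : G ⧸ N) = C.1) ∧ ∃ y, f y ≠ 0 := by
    rintro ⟨C, hC⟩
    obtain ⟨x, hx⟩ := ConjClasses.exists_rep C
    have hcyc := hC x hx
    obtain ⟨⟨c, hc⟩, hgen⟩ := hcyc.exists_generator
    obtain ⟨a, rfl⟩ := QuotientGroup.mk_surjective c
    have hgen' : ∀ z : G ⧸ N, z * x = x * z → z ∈ Subgroup.zpowers (a : G ⧸ N) := by
      intro z hz
      have hz' : z ∈ Subgroup.centralizer ({x} : Set (G ⧸ N)) := by
        rw [Subgroup.mem_centralizer_singleton_iff]; exact hz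
      obtain ⟨i, hi⟩ := hgen ⟨z, hz'⟩
      refine ⟨i, ?_⟩
      have := congrArg Subtype.val hi
      simpa using this
    obtain ⟨j, hj⟩ : ∃ j : ℕ, (a : G ⧸ N) ^ j = x := by
      have := (mem_powers_iff_mem_zpowers (x := (a : G ⧸ N)) (y := x)).2 (hgen' x rfl)
      exact this
    have hjx : ((a ^ j : G) : G ⧸ N) = x := by rw [← hj]; rfl
    obtain ⟨Y, Yi, h1, h2, hY⟩ := prf_INTER N (Fin d → ℂ) σ hσ (MulAut.conjNormal a) (by
      intro n
      rw [hch', hch']
      exact congrFun (hinv a) n)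
    refine ⟨avg (ph σ a Y j), avg_WO l _ (ph_WO σ hσ l hch' hinv a Y j), ?_, ?_⟩
    · intro y hy
      obtain ⟨g, -, hg⟩ := Finset.exists_ne_zero_of_sum_ne_zero hy
      have h3 := ph_supp σ a Y j hg
      have h4 : ((a ^ j : G) : G ⧸ N) = ((g⁻¹ * y * g : G) : G ⧸ N) := QuotientGroup.eq.2 h3
      refine Eq.trans ?_ hx
      rw [ConjClasses.mk_eq_mk_iff_isConj, isConj_iff]
      refine ⟨((g⁻¹ : G) : G ⧸ N), ?_⟩
      rw [← hjx, h4]
      simp
    · obtain ⟨y, hyN, hy⟩ := ph_ne σ hσ a Y Yi h1 h2 j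
      refine ⟨y, ?_⟩
      have hyx : (y : G ⧸ N) = x := by rw [← hjx]; exact (QuotientGroup.eq.2 hyN).symm
      have h3 : ∀ g : G, ph σ a Y j (g⁻¹ * y * g) =
          if (g : G ⧸ N) * x = x * (g : G ⧸ N) then ph σ a Y j y else 0 := by
        intro g
        split_ifs with hgx
        · obtain ⟨i, hi⟩ := hgen' _ hgx
          exact ph_inv σ a Y Yi h1 h2 hY j g i hi.symm y
        · by_contra hne
          apply hgx
          have h5 := ph_supp σ a Y j hne
          have h4 : ((a ^ j : G) : G ⧸ N) = ((g⁻¹ * y * g : G) : G ⧸ N) := QuotientGroup.eq.2 h5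
          rw [hjx] at h4
          have h6 : ((g⁻¹ * y * g : G) : G ⧸ N) = (g : G ⧸ N)⁻¹ * x * g := by
            rw [← hyx]; rfl
          rw [h6] at h4
          calc (g : G ⧸ N) * x = (g : G ⧸ N) * ((g : G ⧸ N)⁻¹ * x * g) := by rw [← h4]
            _ = x * g := by group
      unfold avg
      rw [Finset.sum_congr rfl fun g _ => h3 g, Finset.sum_ite, Finset.sum_const_zero, add_zero,
        Finset.sum_const, nsmul_eq_mul]
      refine mul_ne_zero ?_ hy
      have : (1 : G) ∈ Finset.univ.filter (fun g : G => (g : G ⧸ N) * x = x * (g : G ⧸ N)) := by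
        simp
      exact_mod_cast (Finset.card_pos.2 ⟨1, this⟩).ne'
  choose f hfW hfs y hy using key
  let v : Ι → WO (G := G) l := fun C => ⟨f C, hfW C⟩
  have hlin : LinearIndependent ℂ v := by
    rw [Fintype.linearIndependent_iff]
    intro c hc C
    have h1 : (∑ C', c C' • v C' : WO (G := G) l).1 (y C) = 0 := by rw [hc]; rfl
    have h2 : (∑ C', c C' • v C' : WO (G := G) l).1 (y C) = ∑ C', c C' * f C' (y C) := by
      rw [Submodule.coe_sum, Finset.sum_apply]
      rfl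
    rw [h2, Finset.sum_eq_single C] at h1
    · exact (mul_eq_zero.1 h1).resolve_right (hy C)
    · intro C' _ hne
      have h0 : f C' (y C) = 0 := by
        by_contra hne'
        have e1 := hfs C' _ hne'
        have e2 := hfs C _ (hy C)
        exact hne (Subtype.ext (e1.symm.trans e2))
      rw [h0, mul_zero]
    · intro h; exact absurd (Finset.mem_univ _) h
  have h4 := hlin.fintype_card_le_finrank
  rw [(prf_WOB G N l hl).2, Nat.card_eq_fintype_card]
  exact h4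

end Pool.Agent.RadIndex.RI
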