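import Pool.Agent.Work.MP_76dc41_al.RI.Stmts

set_option autoImplicit false
set_option linter.unusedSectionVars false

open Module Representation Pool.Agent.DC7914

namespace Pool.Agent.RadIndex.RI

open Pool.Agent Pool.Agent.RadIndex

namespace INSL

theorem trivRad_congr {H K : Type} [Group H] [Group K] (e : H ≃* K) (h : ACD8.TrivRad H) :
    ACD8.TrivRad K := by
  intro N hN hS
  haveI := hN
  have h1 : (N.comap e.toMonoidHom).Normal := Subgroup.Normal.comap hN _
  have h2 : Group.IsSolvable (N.comap e.toMonoidHom) := by
    haveI := hS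
    exact Group.isSolvable_of_isSolvable_injective (f := e.toMonoidHom.subgroupComap N)
      (by
        intro a b hab
        have h3 : e (a : H) = e (b : H) := congrArg Subtype.val hab
        exact Subtype.ext (e.injective h3))
  have h3 := h _ h1 h2
  rw [eq_bot_iff]
  intro x hx
  have h4 : e.symm x ∈ N.comap e.toMonoidHom := by
    rw [Subgroup.mem_comap]
    show e (e.symm x) ∈ N
    rw [MulEquiv.apply_symm_apply]
    exact hx
  rw [h3, Subgroup.mem_bot] at h4
  rw [Subgroup.mem_bot, ← MulEquiv.apply_symm_apply e x, h4, map_one]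

theorem trivRad_subnormal {H : Type} [Group H] [Finite H] (h : ACD8.TrivRad H) (S : Subgroup H)
    (hS : S.IsSubnormal) : ACD8.TrivRad S := by
  induction hS with
  | top => exact ACD8.trivRad_normal h ⊤
  | step S K hle _ hN ih =>
    haveI := hN
    have h1 : ACD8.TrivRad (S.subgroupOf K) := ACD8.trivRad_normal ih (S.subgroupOf K)
    exact trivRad_congr (Subgroup.subgroupOfEquivOfLe hle) h1

end INSL

open INSL

theorem pr_NSL : StNSL := by
  intro H _ _ hH S hS hsim hsol
  have h1 := trivRad_subnormal hH S hS
  have h2 : Group.IsSolvable (⊤ : Subgroup S) := by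
    haveI := hsol
    exact Group.isSolvable_of_isSolvable_injective (f := (⊤ : Subgroup S).subtype)
      (Subgroup.subtype_injective _)
  have h3 := h1 ⊤ inferInstance h2
  haveI := hsim
  exact absurd h3 top_ne_bot

end Pool.Agent.RadIndex.RI
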