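import Pool.Agent.Work.MP_76dc41_al.RI.Stmts

/-!
# Block RI of MP_76dc41_al, item NU0 (real numbers)
-/

set_option autoImplicit false

open Pool.Agent Pool.Agent.RadIndex

namespace Pool.Agent.RadIndex.RI

theorem pr_NU0 : StNU0 := by
  intro s t r hs hst hr h i k c T q h1 i1 c1 hq hqh hicT hT ck hk
  by_contra hcon
  push Not at hcon
  have c0 : 0 < c := lt_of_lt_of_le one_pos c1
  have i0 : 0 < i := lt_of_lt_of_le one_pos i1
  have h0 : 0 < h := lt_of_lt_of_le one_pos h1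
  have k0 : 0 < k := lt_of_lt_of_le c0 ck
  have hiq : i < q := lt_of_mul_lt_mul_right (lt_of_le_of_lt hicT hcon) c0.le
  have hq1 : 1 ≤ q := i1.trans hiq.le
  have T0 : 0 < T := lt_of_lt_of_le (mul_pos i0 c0) hicT
  have hs2 : 2 * s ≠ 0 := by omega
  have e1 : (h * i) ^ s < q ^ (2 * s) * c ^ (2 * s) := by
    calc (h * i) ^ s ≤ (T ^ 2) ^ s := pow_le_pow_left₀ (mul_pos h0 i0).le hT s
      _ = T ^ (2 * s) := by rw [← pow_mul]
      _ < (q * c) ^ (2 * s) := pow_lt_pow_left₀ hcon T0.le hs2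
      _ = q ^ (2 * s) * c ^ (2 * s) := mul_pow _ _ _
  have e2 : c ^ (2 * s) ≤ (h ^ r * i ^ t) ^ 2 := by
    calc c ^ (2 * s) ≤ k ^ (2 * s) := pow_le_pow_left₀ c0.le ck _
      _ = (k ^ s) ^ 2 := by rw [← pow_mul, mul_comm]
      _ ≤ (h ^ r * i ^ t) ^ 2 := pow_le_pow_left₀ (pow_pos k0 s).le hk 2
  have e3 : i ^ (2 * t) ≤ i ^ s * q ^ (2 * t - s) := by
    calc i ^ (2 * t) = i ^ s * i ^ (2 * t - s) := by
          rw [← pow_add]
          congr 1
          omega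
      _ ≤ i ^ s * q ^ (2 * t - s) :=
          mul_le_mul_of_nonneg_left (pow_le_pow_left₀ i0.le hiq.le _) (pow_pos i0 s).le
  have e4 : q ^ (2 * s) * (h ^ r * i ^ t) ^ 2 ≤ i ^ s * q ^ (4 * s) := by
    calc q ^ (2 * s) * (h ^ r * i ^ t) ^ 2
        = q ^ (2 * s) * q ^ (8 * r) * i ^ (2 * t) := by
          rw [← hqh, mul_pow, ← pow_mul, ← pow_mul, ← pow_mul, mul_comm t 2,
            show 4 * (r * 2) = 8 * r by ring]
          ring
      _ ≤ q ^ (2 * s) * q ^ (8 * r) * (i ^ s * q ^ (2 * t - s)) :=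
          mul_le_mul_of_nonneg_left e3 (mul_pos (pow_pos hq _) (pow_pos hq _)).le
      _ = i ^ s * q ^ (2 * s + 8 * r + (2 * t - s)) := by
          rw [pow_add, pow_add]
          ring
      _ ≤ i ^ s * q ^ (4 * s) :=
          mul_le_mul_of_nonneg_left (pow_le_pow_right₀ hq1 (by omega)) (pow_pos i0 s).le
  have e5 : (h * i) ^ s = i ^ s * q ^ (4 * s) := by
    rw [mul_pow, ← hqh, ← pow_mul]
    ring
  have e6 : q ^ (2 * s) * c ^ (2 * s) ≤ q ^ (2 * s) * (h ^ r * i ^ t) ^ 2 :=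
    mul_le_mul_of_nonneg_left e2 (pow_pos hq _).le
  exact lt_irrefl _ (lt_of_lt_of_le e1 (e6.trans (e4.trans e5.ge)))

end Pool.Agent.RadIndex.RI
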