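import Pool.Agent.Work.MP_76dc41_al.RI.Stmts

set_option autoImplicit false

namespace Pool.Agent.RadIndex.RI

theorem pr_NUM : StNUM := by
  intro s t hs hst hts h i f z K τ ζ D T q hh hi hf hz hK hτ hζ hD hT hq hqh hyp hT1 hT2 hX
  have h0 : 0 < h := by linarith
  have i0 : 0 < i := by linarith
  have f0 : 0 < f := by linarith
  have z0 : 0 < z := by linarith
  have K0 : 0 < K := by linarith
  have T0 : 0 < T := lt_of_lt_of_le (mul_pos (Real.sqrt_pos.mpr z0) hτ) hT1
  have hp : (0 : ℝ) < 2 * (t : ℝ) + s := by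
    have : (0 : ℝ) < s := by exact_mod_cast hs
    have h2 : (0 : ℝ) ≤ t := by positivity
    linarith
  have hst' : (s : ℝ) ≤ 2 * t := by exact_mod_cast hst
  have hts' : 2 * (t : ℝ) ≤ 3 * s := by exact_mod_cast hts
  have hcast : ((3 * s - 2 * t : ℕ) : ℝ) = 3 * (s : ℝ) - 2 * t := by
    rw [Nat.cast_sub hts]; push_cast; ring
  obtain ⟨e, he⟩ : ∃ e : ℝ, e = (3 * (s : ℝ) - 2 * t) / (2 * (t : ℝ) + s) := ⟨_, rfl⟩
  have hep : e * (2 * (t : ℝ) + s) = 3 * (s : ℝ) - 2 * t := by
    rw [he]; field_simp
  have he0 : 0 ≤ e := by rw [he]; exact div_nonneg (by linarith) hp.le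
  have he1 : e ≤ 1 := by rw [he, div_le_one hp]; linarith
  obtain ⟨R₁, hR₁⟩ : ∃ R₁ : ℝ, R₁ = Real.sqrt (h / (i * f)) / K := ⟨_, rfl⟩
  have hR₁0 : 0 < R₁ := by rw [hR₁]; positivity
  have hR0 : 0 < R₁ ^ e := Real.rpow_pos_of_pos hR₁0 e
  have hRc : R₁ ^ e ≤ 1 ∨ R₁ ^ e * K ≤ Real.sqrt (h / (i * f)) := by
    rcases le_total R₁ 1 with h1 | h1
    · exact Or.inl (Real.rpow_le_one hR₁0.le h1 he0)
    · right
      have h2 : R₁ ^ e ≤ R₁ := by
        calc R₁ ^ e ≤ R₁ ^ (1 : ℝ) := Real.rpow_le_rpow_of_exponent_le h1 he1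
          _ = R₁ := Real.rpow_one _
      have h3 : R₁ * K = Real.sqrt (h / (i * f)) := by rw [hR₁]; field_simp
      calc R₁ ^ e * K ≤ R₁ * K := mul_le_mul_of_nonneg_right h2 K0.le
        _ = _ := h3
  have hXX := hX (2 * q / (i * R₁ ^ e)) (R₁ ^ e) (by positivity) hR0 hRc
  -- logarithms
  have hlogR : Real.log (R₁ ^ e) =
      e * ((Real.log h - Real.log i - Real.log f) / 2 - Real.log K) := by
    rw [Real.log_rpow hR₁0, hR₁, Real.log_div (by positivity) (by positivity),
      Real.log_sqrt (by positivity), Real.log_div (by positivity) (by positivity),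
      Real.log_mul (by positivity) (by positivity)]
    ring
  have hlT1 : Real.log z / 2 + Real.log τ ≤ Real.log T := by
    have := Real.log_le_log (by positivity) hT1
    rwa [Real.log_mul (by positivity) (by positivity), Real.log_sqrt (by positivity)] at this
  have hlT2 : (Real.log h - Real.log i) / 2 ≤ Real.log T := by
    have := Real.log_le_log (by positivity) hT2
    rwa [Real.log_sqrt (by positivity), Real.log_div (by positivity) (by positivity)] at this
  have hlq : 4 * Real.log q = Real.log h := by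
    rw [← hqh, Real.log_pow]; norm_num
  have hl16 : Real.log 16 = 2 * Real.log 4 := by
    rw [show (16 : ℝ) = 4 ^ 2 by norm_num, Real.log_pow]; norm_num
  have hlyp : (2 * (t : ℝ) + s) * Real.log 16 + 8 * s * Real.log K +
      2 * (2 * (t : ℝ) + s) * Real.log ζ + (3 * (s : ℝ) - 2 * t) * Real.log f ≤
      3 * (2 * (t : ℝ) + s) * Real.log i + (3 * (s : ℝ) - 2 * t) * Real.log z +
        2 * (3 * (s : ℝ) - 2 * t) * Real.log τ := by
    have := Real.log_le_log (by positivity) hyp
    rw [Real.log_mul (by positivity) (by positivity), Real.log_mul (by positivity) (by positivity),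
      Real.log_mul (by positivity) (by positivity), Real.log_mul (by positivity) (by positivity),
      Real.log_mul (by positivity) (by positivity), Real.log_pow, Real.log_pow, Real.log_pow,
      Real.log_pow, Real.log_pow, Real.log_pow, Real.log_pow, hcast] at this
    push_cast at this
    rw [hcast] at this
    linarith
  have hkey : Real.log 4 + 2 * Real.log q + Real.log K + Real.log ζ ≤
      2 * Real.log i + Real.log (R₁ ^ e) + Real.log T := by
    have e1 : e * (Real.log z / 2 + Real.log τ) + (1 - e) * ((Real.log h - Real.log i) / 2) ≤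
        Real.log T := by
      have a1 := mul_le_mul_of_nonneg_left hlT1 he0
      have a2 := mul_le_mul_of_nonneg_left hlT2 (by linarith : (0 : ℝ) ≤ 1 - e)
      linarith
    have e2 : Real.log 4 + (1 + e) * Real.log K + Real.log ζ + e / 2 * Real.log f ≤
        3 / 2 * Real.log i + e / 2 * Real.log z + e * Real.log τ := by
      have e3 : (8 * (s : ℝ)) = 2 * (2 * (t : ℝ) + s) * (1 + e) := by linarith
      rw [e3, ← hep, hl16] at hlyp
      have e4 : (2 * (t : ℝ) + s) * (Real.log 4 + (1 + e) * Real.log K + Real.log ζ +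
          e / 2 * Real.log f) ≤ (2 * (t : ℝ) + s) *
          (3 / 2 * Real.log i + e / 2 * Real.log z + e * Real.log τ) := by linarith
      exact le_of_mul_le_mul_left e4 hp
    rw [hlogR]
    linarith
  have hmain : 4 * q ^ 2 * K * ζ ≤ i ^ 2 * R₁ ^ e * T := by
    rw [← Real.log_le_log_iff (by positivity) (by positivity)]
    rw [Real.log_mul (by positivity) (by positivity), Real.log_mul (by positivity) (by positivity),
      Real.log_mul (by positivity) (by positivity), Real.log_mul (by positivity) (by positivity),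
      Real.log_mul (by positivity) (by positivity), Real.log_pow, Real.log_pow]
    push_cast
    exact hkey
  have hfin : q * (K * (2 * q / (i * R₁ ^ e)) * ζ) ≤ i * T / 2 := by
    have e5 : q * (K * (2 * q / (i * R₁ ^ e)) * ζ) = 4 * q ^ 2 * K * ζ / (2 * (i * R₁ ^ e)) := by
      field_simp
      ring
    rw [e5, div_le_iff₀ (by positivity)]
    calc 4 * q ^ 2 * K * ζ ≤ i ^ 2 * R₁ ^ e * T := hmain
      _ = i * T / 2 * (2 * (i * R₁ ^ e)) := by ring
  have hfst : q * (T / (2 * q / (i * R₁ ^ e) * R₁ ^ e)) = i * T / 2 := by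
    field_simp
  calc q * D ≤ q * (T / (2 * q / (i * R₁ ^ e) * R₁ ^ e) + K * (2 * q / (i * R₁ ^ e)) * ζ) :=
        mul_le_mul_of_nonneg_left hXX hq.le
    _ = q * (T / (2 * q / (i * R₁ ^ e) * R₁ ^ e)) + q * (K * (2 * q / (i * R₁ ^ e)) * ζ) := by ring
    _ ≤ i * T / 2 + i * T / 2 := by rw [hfst]; linarith
    _ = i * T := by ring

end Pool.Agent.RadIndex.RI
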