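import Pool.Agent.Work.MP_76dc41_al.RI.Stmts

/-!
# Block RI, item OUT (helper3)
-/

set_option autoImplicit false
set_option linter.unusedSectionVars false

namespace Pool.Agent.RadIndex.RI

open Pool.Agent Pool.Agent.RadIndex

namespace IOUT

variable {H : Type} [Group H]

/-- a conjugate of a simple subnormal subgroup -/
def cjS (hc : ∀ (S : SS H) (g : H), ∃ T : SS H, T.1 = S.1.map (MulAut.conj g).toMonoidHom)
    (g : H) (S : SS H) : SS H :=
  ⟨S.1.map (MulAut.conj g).toMonoidHom, by
    obtain ⟨T, hT⟩ := hc S g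
    rw [← hT]
    exact T.2⟩

lemma cjS_mul (hc : ∀ (S : SS H) (g : H), ∃ T : SS H, T.1 = S.1.map (MulAut.conj g).toMonoidHom)
    (g h : H) (S : SS H) : cjS hc (g * h) S = cjS hc g (cjS hc h S) := by
  apply Subtype.ext
  show S.1.map (MulAut.conj (g * h)).toMonoidHom =
    (S.1.map (MulAut.conj h).toMonoidHom).map (MulAut.conj g).toMonoidHom
  rw [Subgroup.map_map]
  congr 1
  ext x
  simp

lemma cjS_one (hc : ∀ (S : SS H) (g : H), ∃ T : SS H, T.1 = S.1.map (MulAut.conj g).toMonoidHom)
    (S : SS H) : cjS hc 1 S = S := by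
  apply Subtype.ext
  show S.1.map (MulAut.conj (1 : H)).toMonoidHom = S.1
  have : (MulAut.conj (1 : H)).toMonoidHom = MonoidHom.id H := by
    ext x
    simp
  rw [this, Subgroup.map_id]

/-- the action by conjugation -/
def phi (hc : ∀ (S : SS H) (g : H), ∃ T : SS H, T.1 = S.1.map (MulAut.conj g).toMonoidHom) :
    H →* Equiv.Perm (SS H) where
  toFun g :=
    { toFun := cjS hc g
      invFun := cjS hc g⁻¹
      left_inv := fun S => by rw [← cjS_mul, inv_mul_cancel, cjS_one]
      right_inv := fun S => by rw [← cjS_mul, mul_inv_cancel, cjS_one] }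
  map_one' := by
    ext1 S
    exact cjS_one hc S
  map_mul' g h := by
    ext1 S
    exact cjS_mul hc g h S

lemma mem_ker (hc : ∀ (S : SS H) (g : H), ∃ T : SS H, T.1 = S.1.map (MulAut.conj g).toMonoidHom)
    (g : H) : g ∈ (phi hc).ker ↔ ∀ S : SS H, S.1.map (MulAut.conj g).toMonoidHom = S.1 := by
  rw [MonoidHom.mem_ker]
  constructor
  · intro h S
    exact congrArg Subtype.val (congrArg (fun σ : Equiv.Perm (SS H) => σ S) h)
  · intro h
    ext1 S
    exact Subtype.ext (h S)

lemma norm_iff (S : Subgroup H) (g : H) :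
    S.map (MulAut.conj g).toMonoidHom = S ↔ g ∈ Subgroup.normalizer (S : Set H) := by
  rw [Subgroup.mem_normalizer_iff]
  constructor
  · intro h x
    constructor
    · intro hx
      have h1 : (MulAut.conj g).toMonoidHom x ∈ S.map (MulAut.conj g).toMonoidHom := ⟨x, hx, rfl⟩
      rw [h] at h1
      exact h1
    · intro hx
      have h1 : g * x * g⁻¹ ∈ S.map (MulAut.conj g).toMonoidHom := by
        rw [h]
        exact hx
      obtain ⟨y, hy, hyx⟩ := h1
      have h2 : y = x := (MulAut.conj g).injective hyx
      rw [← h2]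
      exact hy
  · intro h
    ext x
    constructor
    · rintro ⟨y, hy, rfl⟩
      exact (h y).1 hy
    · intro hx
      refine ⟨g⁻¹ * x * g, ?_, ?_⟩
      · refine (h (g⁻¹ * x * g)).2 ?_
        have : g * (g⁻¹ * x * g) * g⁻¹ = x := by group
        rw [this]
        exact hx
      · show g * (g⁻¹ * x * g) * g⁻¹ = x
        group

end IOUT

open IOUT in
theorem pr_OUT (hSOC : StSOC) : StOUT := by
  intro H _ _ hTR M _ hM V
  subst hM
  obtain ⟨hcomm, -, -, hcen, hc⟩ := hSOC H hTR
  classical
  -- the action
  have hsoc : soc H ≤ (phi hc).ker := by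
    intro m hm
    rw [mem_ker]
    intro S
    rw [norm_iff]
    have h1 : soc H ≤ Subgroup.normalizer (S.1 : Set H) := by
      unfold soc
      refine iSup_le fun T => ?_
      intro x hx
      rw [Subgroup.mem_normalizer_iff]
      by_cases hTS : T = S
      · subst hTS
        intro y
        constructor
        · intro hy
          exact T.1.mul_mem (T.1.mul_mem hx hy) (T.1.inv_mem hx)
        · intro hy
          have h2 := T.1.mul_mem (T.1.mul_mem (T.1.inv_mem hx) hy) hx
          have h3 : x⁻¹ * (x * y * x⁻¹) * x = y := by group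
          rw [h3] at h2
          exact h2
      · intro y
        constructor
        · intro hy
          have h2 := hcomm T S hTS x hx y hy
          rw [h2, mul_inv_cancel_right]
          exact hy
        · intro hy
          have h2 := hcomm T S hTS x hx _ hy
          have h3 : y = x * y * x⁻¹ := by
            have h4 : x * y = x * y * x⁻¹ * x := by group
            have h5 : x * (x * y * x⁻¹) = x * y := by rw [h2, ← h4]
            exact (mul_left_cancel h5).symm
          rw [h3]
          exact hy
    exact h1 hm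
  let φ' : H ⧸ soc H →* Equiv.Perm (SS H) := QuotientGroup.lift (soc H) (phi hc) hsoc
  let f : V →* Equiv.Perm (SS H) := φ'.comp V.subtype
  have hn : Nat.card (SS H) = Fintype.card (SS H) := Nat.card_eq_fintype_card
  have hrange : ACD8.kc f.range ≤ 4 ^ Fintype.card (SS H) := by
    refine (ACD8.kr_all _ (SS H) rfl _).trans ?_
    rw [hn]
    exact Nat.pow_le_pow_right (by norm_num) (by omega)
  have hker1 : ACD8.kc f.ker ≤ Nat.card φ'.ker := by
    refine (ACD8.kc_le_card _).trans ?_
    refine Nat.card_le_card_of_injective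
      (fun v : f.ker => (⟨((v : V) : H ⧸ soc H), v.2⟩ : φ'.ker)) ?_
    intro a b hab
    exact Subtype.ext (Subtype.ext (congrArg (fun z : φ'.ker => (z : H ⧸ soc H)) hab))
  -- the kernel
  have hcomap : φ'.ker.comap (QuotientGroup.mk' (soc H)) = (phi hc).ker := by
    ext g
    rw [Subgroup.mem_comap, MonoidHom.mem_ker, MonoidHom.mem_ker]
    rfl
  have hidx : (phi hc).ker.index = φ'.ker.index := by
    rw [← hcomap]
    exact Subgroup.index_comap_of_surjective _ (QuotientGroup.mk'_surjective (soc H))
  have hcard : Nat.card φ'.ker * Nat.card (soc H) = Nat.card (phi hc).ker := by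
    have h1 := Subgroup.card_mul_index (phi hc).ker
    have h2 := Subgroup.card_mul_index φ'.ker
    have h3 := Subgroup.card_eq_card_quotient_mul_card_subgroup (soc H)
    have h4 : 0 < φ'.ker.index := Nat.pos_of_ne_zero φ'.ker.index_ne_zero_of_finite
    apply Nat.eq_of_mul_eq_mul_right h4
    calc Nat.card φ'.ker * Nat.card (soc H) * φ'.ker.index
        = (Nat.card φ'.ker * φ'.ker.index) * Nat.card (soc H) := by ring
      _ = Nat.card H := by rw [h2, h3]
      _ = Nat.card (phi hc).ker * φ'.ker.index := by rw [← hidx, h1]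
  -- the kernel embeds in the product of the automorphism groups
  have hle : ∀ S : SS H, (phi hc).ker ≤ Subgroup.normalizer (S.1 : Set H) := by
    intro S g hg
    rw [mem_ker] at hg
    exact (norm_iff S.1 g).1 (hg S)
  let Ψ : (phi hc).ker →* (∀ S : SS H, MulAut S.1) :=
    MonoidHom.pi (fun S => (S.1.normalizerMonoidHom).comp (Subgroup.inclusion (hle S)))
  have hΨ : Function.Injective Ψ := by
    rw [← MonoidHom.ker_eq_bot_iff, eq_bot_iff]
    intro k hk
    rw [MonoidHom.mem_ker] at hk
    have h1 : ∀ S : SS H, S.1 ≤ Subgroup.centralizer {(k : H)} := by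
      intro S s hs
      have h2 := congrFun hk S
      have h3 : (Subgroup.inclusion (hle S) k) ∈ (S.1.normalizerMonoidHom).ker := by
        rw [MonoidHom.mem_ker]
        exact h2
      rw [Subgroup.normalizerMonoidHom_ker, Subgroup.mem_subgroupOf,
        Subgroup.mem_centralizer_iff] at h3
      rw [Subgroup.mem_centralizer_iff]
      rintro x hx
      rw [Set.mem_singleton_iff] at hx
      rw [hx]
      exact (h3 s hs).symm
    have h2 : soc H ≤ Subgroup.centralizer {(k : H)} := by
      unfold soc
      exact iSup_le h1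
    have h3 : (k : H) ∈ Subgroup.centralizer (soc H : Set H) := by
      rw [Subgroup.mem_centralizer_iff]
      intro m hm
      have h4 := h2 hm
      rw [Subgroup.mem_centralizer_iff] at h4
      exact (h4 k rfl).symm
    rw [hcen, Subgroup.mem_bot] at h3
    rw [Subgroup.mem_bot]
    exact Subtype.ext h3
  have hK : Nat.card (phi hc).ker ≤ ∏ S : SS H, Nat.card (MulAut S.1) := by
    refine (Nat.card_le_card_of_injective Ψ hΨ).trans ?_
    rw [Nat.card_pi]
  calc ACD8.kc V * Nat.card (soc H)
      ≤ (ACD8.kc f.ker * ACD8.kc f.range) * Nat.card (soc H) :=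
        Nat.mul_le_mul_right _ (ACD8.kc_hom f)
    _ ≤ (Nat.card φ'.ker * 4 ^ Fintype.card (SS H)) * Nat.card (soc H) :=
        Nat.mul_le_mul_right _ (Nat.mul_le_mul hker1 hrange)
    _ = 4 ^ Fintype.card (SS H) * (Nat.card φ'.ker * Nat.card (soc H)) := by ring
    _ = 4 ^ Fintype.card (SS H) * Nat.card (phi hc).ker := by rw [hcard]
    _ ≤ 4 ^ Fintype.card (SS H) * ∏ S : SS H, Nat.card (MulAut S.1) :=
        Nat.mul_le_mul_left _ hK
    _ = ∏ S : SS H, (4 * Nat.card (MulAut S.1)) := by
        rw [Finset.prod_mul_distrib, Finset.prod_const, Finset.card_univ]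

end Pool.Agent.RadIndex.RI
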