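import Pool.Agent.Work.MP_76dc41_al.RI.Stmts

set_option autoImplicit false

namespace Pool.Agent.RadIndex.RI

open Pool.Agent Pool.Agent.RadIndex

namespace IPA1

open Matrix Polynomial

variable {F : Type} [Field F]

abbrev lo (c : F) : Matrix.SpecialLinearGroup (Fin 2) F :=
  ⟨!![1, 0; c, 1], by simp [Matrix.det_fin_two]⟩

theorem mu1_mul (b c : F) : mu1 b * mu1 c = mu1 (b + c) := by
  apply Subtype.ext
  rw [Matrix.SpecialLinearGroup.coe_mul]
  simp only [mu1]
  ext i j
  fin_cases i <;> fin_cases j <;> simp [Matrix.mul_apply, Fin.sum_univ_two, add_comm]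

theorem mt_mul (x y : Fˣ) : mt x * mt y = mt (x * y) := by
  apply Subtype.ext
  rw [Matrix.SpecialLinearGroup.coe_mul]
  simp only [mt]
  ext i j
  fin_cases i <;> fin_cases j <;> simp [Matrix.mul_apply, Fin.sum_univ_two, mul_comm]

theorem mt_one : mt (1 : Fˣ) = 1 := by
  apply Subtype.ext
  simp only [mt]
  ext i j
  fin_cases i <;> fin_cases j <;> simp

theorem mt_conj (x : Fˣ) : mt x * mu1 1 = mu1 ((x : F) ^ 2) * mt x := by
  apply Subtype.ext
  rw [Matrix.SpecialLinearGroup.coe_mul, Matrix.SpecialLinearGroup.coe_mul]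
  simp only [mt, mu1]
  ext i j
  fin_cases i <;> fin_cases j <;>
    simp [Matrix.mul_apply, Fin.sum_univ_two, sq]

theorem w_conj (b : F) : mw * mu1 b = lo (-b) * mw := by
  apply Subtype.ext
  rw [Matrix.SpecialLinearGroup.coe_mul, Matrix.SpecialLinearGroup.coe_mul]
  simp only [mw, mu1]
  ext i j
  fin_cases i <;> fin_cases j <;> simp [Matrix.mul_apply, Fin.sum_univ_two]

theorem two_squares [Finite F] (b : F) : ∃ x y : F, b = x ^ 2 + y ^ 2 := by
  classical
  have := Fintype.ofFinite F
  by_cases h2 : ringChar F = 2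
  · obtain ⟨x, hx⟩ := FiniteField.isSquare_of_char_two h2 b
    exact ⟨x, 0, by rw [hx]; ring⟩
  · have hodd := FiniteField.odd_card_of_char_ne_two h2
    obtain ⟨x, y, hxy⟩ := FiniteField.exists_root_sum_quadratic (R := F) (f := X ^ 2)
      (g := X ^ 2 - C b) (degree_X_pow 2) (degree_X_pow_sub_C (by norm_num) b) hodd
    refine ⟨x, y, ?_⟩
    simp only [eval_pow, eval_X, eval_sub, eval_C] at hxy
    linear_combination -hxy

theorem gen (K : Subgroup (Matrix.SpecialLinearGroup (Fin 2) F)) (hu : ∀ b : F, mu1 b ∈ K)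
    (hw : mw ∈ K) : K = ⊤ := by
  have hl : ∀ c : F, lo c ∈ K := by
    intro c
    have h1 : lo c = mw * mu1 (-c) * mw⁻¹ := by
      rw [w_conj, neg_neg, mul_inv_cancel_right]
    rw [h1]
    exact K.mul_mem (K.mul_mem hw (hu _)) (K.inv_mem hw)
  have key : ∀ M : Matrix.SpecialLinearGroup (Fin 2) F, (M : Matrix (Fin 2) (Fin 2) F) 1 0 ≠ 0 →
      M ∈ K := by
    intro M hM
    have hdet := M.2
    rw [Matrix.det_fin_two] at hdet
    set p := (M : Matrix (Fin 2) (Fin 2) F) 0 0 with hp
    set q := (M : Matrix (Fin 2) (Fin 2) F) 0 1 with hq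
    set r := (M : Matrix (Fin 2) (Fin 2) F) 1 0 with hr
    set s := (M : Matrix (Fin 2) (Fin 2) F) 1 1 with hs
    have h1 : M = mu1 ((p - 1) / r) * lo r * mu1 ((s - 1) / r) := by
      apply Subtype.ext
      rw [Matrix.SpecialLinearGroup.coe_mul, Matrix.SpecialLinearGroup.coe_mul]
      simp only [mu1]
      have e1 : (p - 1) / r * r = p - 1 := div_mul_cancel₀ _ hM
      have e2 : r * ((s - 1) / r) = s - 1 := mul_div_cancel₀ _ hM
      ext i j
      fin_cases i <;> fin_cases j
      · simp [Matrix.mul_apply, Fin.sum_univ_two, ← hp, e1]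
      · simp only [Matrix.mul_apply, Fin.sum_univ_two]
        simp [← hq, e1]
        field_simp
        linear_combination (-1 : F) * hdet
      · simp [Matrix.mul_apply, Fin.sum_univ_two, ← hr]
      · simp [Matrix.mul_apply, Fin.sum_univ_two, ← hs, e2]
    rw [h1]
    exact K.mul_mem (K.mul_mem (hu _) (hl _)) (hu _)
  rw [eq_top_iff]
  intro M _
  by_cases hM : (M : Matrix (Fin 2) (Fin 2) F) 1 0 = 0
  · have h2 : mw * M ∈ K := by
      apply key
      have hdet := M.2
      rw [Matrix.det_fin_two, hM, mul_zero, sub_zero] at hdet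
      have h3 : (M : Matrix (Fin 2) (Fin 2) F) 0 0 ≠ 0 := by
        intro h0
        rw [h0, zero_mul] at hdet
        exact zero_ne_one hdet
      rw [Matrix.SpecialLinearGroup.coe_mul]
      simp only [mw, Matrix.mul_apply, Fin.sum_univ_two]
      simpa using h3
    have h4 := K.mul_mem (K.inv_mem hw) h2
    rwa [inv_mul_cancel_left] at h4
  · exact key M hM

end IPA1

open IPA1 in
theorem pr_PA1 : StPA1 := by
  intro F _ _ a _ ha
  set H := Subgroup.closure {pj (mu1 (1 : F)), pj (mw : Matrix.SpecialLinearGroup (Fin 2) F),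
    pj (mt a)} with hH
  set K : Subgroup (Matrix.SpecialLinearGroup (Fin 2) F) := H.comap (QuotientGroup.mk' _) with hK
  have h1 : mu1 (1 : F) ∈ K := by
    rw [hK, Subgroup.mem_comap]
    exact Subgroup.subset_closure (by simp [pj])
  have h2 : (mw : Matrix.SpecialLinearGroup (Fin 2) F) ∈ K := by
    rw [hK, Subgroup.mem_comap]
    exact Subgroup.subset_closure (by simp [pj])
  have h3 : mt a ∈ K := by
    rw [hK, Subgroup.mem_comap]
    exact Subgroup.subset_closure (by simp [pj])
  have h4 : ∀ x : Fˣ, mt x ∈ K := by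
    intro x
    let T : Fˣ →* Matrix.SpecialLinearGroup (Fin 2) F :=
      { toFun := mt, map_one' := mt_one, map_mul' := fun x y => (mt_mul x y).symm }
    have h5 : Subgroup.zpowers a ≤ K.comap T := by
      rw [Subgroup.zpowers_le]
      exact h3
    exact h5 (ha x)
  have hsq : ∀ x : F, mu1 (x ^ 2) ∈ K := by
    intro x
    by_cases hx : x = 0
    · have h6 : mu1 ((0 : F) ^ 2) = 1 := by
        apply Subtype.ext
        simp only [mu1]
        ext i j
        fin_cases i <;> fin_cases j <;> simp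
      rw [hx, h6]
      exact K.one_mem
    · have h6 := mt_conj (Units.mk0 x hx)
      rw [Units.val_mk0] at h6
      rw [← mul_inv_eq_iff_eq_mul] at h6
      rw [← h6]
      exact K.mul_mem (K.mul_mem (h4 _) h1) (K.inv_mem (h4 _))
  have hu : ∀ b : F, mu1 b ∈ K := by
    intro b
    obtain ⟨x, y, rfl⟩ := two_squares b
    rw [← mu1_mul]
    exact K.mul_mem (hsq x) (hsq y)
  have htop := gen K hu h2
  rw [eq_top_iff]
  intro z _
  obtain ⟨M, rfl⟩ := QuotientGroup.mk_surjective z
  have h7 : M ∈ K := by rw [htop]; trivial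
  exact h7

end Pool.Agent.RadIndex.RI
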