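import Pool.Agent.Work.MP_76dc41_al.RI.Stmts

set_option autoImplicit false

namespace Pool.Agent.RadIndex.RI

open Pool.Agent Pool.Agent.RadIndex

namespace IPA2

variable {F : Type} [Field F]

/-- the parameters `(a,b,c,α,β,γ)` -/
abbrev Tup (F : Type) : Type := (F × F × F) × (F × F × F)

/-- the conditions -/
def Good (t : Tup F) : Prop :=
  t.1.1 ^ 2 + t.1.2.1 * t.1.2.2 = 0 ∧ (t.1.2.1 ≠ 0 ∨ t.1.2.2 ≠ 0) ∧
  t.2.1 ^ 2 + t.2.2.1 * t.2.2.2 = -1 ∧
  2 * t.1.1 * t.2.1 + t.1.2.1 * t.2.2.2 + t.1.2.2 * t.2.2.1 = 1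

open Classical in
/-- the three free parameters -/
noncomputable def tau (t : Tup F) (h : Good t) : {w : F × F // w ≠ 0} × F :=
  if hb : t.1.2.1 ≠ 0 then
    (⟨(t.1.1, t.1.2.1), fun h0 => hb (by simpa using congrArg Prod.snd h0)⟩,
      t.2.1 - t.1.1 / t.1.2.1 * t.2.2.1)
  else
    (⟨(t.1.2.2, 0), fun h0 => (h.2.1.resolve_left hb) (by simpa using congrArg Prod.fst h0)⟩,
      t.2.1)

theorem tau_inj (t t' : Tup F) (h : Good t) (h' : Good t') (he : tau t h = tau t' h') :
    t = t' := by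
  obtain ⟨⟨a, b, c⟩, ⟨α, β, γ⟩⟩ := t
  obtain ⟨⟨a', b', c'⟩, ⟨α', β', γ'⟩⟩ := t'
  obtain ⟨h1, h2, h3, h4⟩ := h
  obtain ⟨h1', h2', h3', h4'⟩ := h'
  simp only at h1 h2 h3 h4 h1' h2' h3' h4'
  unfold tau at he
  simp only at he
  by_cases hb : b ≠ 0
  · by_cases hb' : b' ≠ 0
    · rw [dif_pos hb, dif_pos hb'] at he
      simp only [Prod.mk.injEq, Subtype.mk.injEq] at he
      obtain ⟨⟨e1, e2⟩, e3⟩ := he
      subst e1
      subst e2
      have ec : c = c' := by
        have : b * (c - c') = 0 := by linear_combination h1 - h1'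
        rcases mul_eq_zero.mp this with h0 | h0
        · exact absurd h0 hb
        · exact sub_eq_zero.mp h0
      subst ec
      obtain ⟨r, hr⟩ : ∃ r, r = a / b := ⟨_, rfl⟩
      have ha : a = r * b := by rw [hr]; field_simp
      rw [← hr] at e3
      subst ha
      have hc : c + r ^ 2 * b = 0 := by
        have : b * (c + r ^ 2 * b) = 0 := by linear_combination h1
        exact (mul_eq_zero.mp this).resolve_left hb
      have hβ : β = -b - b * (α - r * β) ^ 2 := by
        linear_combination b * h3 - β * h4 + β ^ 2 * hc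
      have hβ' : β' = -b - b * (α' - r * β') ^ 2 := by
        linear_combination b * h3' - β' * h4' + β' ^ 2 * hc
      have eβ : β = β' := by rw [hβ, hβ', e3]
      subst eβ
      have eα : α = α' := by linear_combination e3
      subst eα
      have eγ : γ = γ' := by
        have : b * (γ - γ') = 0 := by linear_combination h4 - h4'
        rcases mul_eq_zero.mp this with h0 | h0
        · exact absurd h0 hb
        · exact sub_eq_zero.mp h0
      subst eγ
      rfl
    · rw [dif_pos hb, dif_neg hb'] at he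
      simp only [Prod.mk.injEq, Subtype.mk.injEq] at he
      exact absurd he.1.2 hb
  · by_cases hb' : b' ≠ 0
    · rw [dif_neg hb, dif_pos hb'] at he
      simp only [Prod.mk.injEq, Subtype.mk.injEq] at he
      exact absurd he.1.2.symm hb'
    · rw [dif_neg hb, dif_neg hb'] at he
      simp only [Prod.mk.injEq, Subtype.mk.injEq] at he
      obtain ⟨⟨e1, -⟩, e3⟩ := he
      subst e1
      subst e3
      rw [not_not] at hb hb'
      subst hb
      subst hb'
      have hc : c ≠ 0 := h2.resolve_left (fun h => h rfl)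
      have ha : a = 0 := by
        have : a ^ 2 = 0 := by linear_combination h1
        exact pow_eq_zero_iff (two_ne_zero) |>.mp this
      have ha' : a' = 0 := by
        have : a' ^ 2 = 0 := by linear_combination h1'
        exact pow_eq_zero_iff (two_ne_zero) |>.mp this
      subst ha
      subst ha'
      have eβ : β = β' := by
        have : c * (β - β') = 0 := by linear_combination h4 - h4'
        rcases mul_eq_zero.mp this with h0 | h0
        · exact absurd h0 hc
        · exact sub_eq_zero.mp h0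
      subst eβ
      have hβ0 : β ≠ 0 := by
        rintro rfl
        simp at h4
      have eγ : γ = γ' := by
        have : β * (γ - γ') = 0 := by linear_combination h3 - h3'
        rcases mul_eq_zero.mp this with h0 | h0
        · exact absurd h0 hβ0
        · exact sub_eq_zero.mp h0
      subst eγ
      rfl

/-- a nilpotent two by two matrix -/
theorem nil_aux (N : Matrix (Fin 2) (Fin 2) F) (p : ℕ) (h : N ^ p = 0) :
    N 1 1 = - N 0 0 ∧ (N 0 0) ^ 2 + N 0 1 * N 1 0 = 0 := by
  have hn : IsNilpotent N := ⟨p, h⟩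
  have ht : N.trace = 0 := by
    have := Matrix.isNilpotent_trace_of_isNilpotent hn
    exact this.eq_zero
  have hd : N.det = 0 := by
    have : IsNilpotent N.det := ⟨p, by
      rw [← Matrix.det_pow, h]
      simp⟩
    exact this.eq_zero
  rw [Matrix.trace_fin_two] at ht
  rw [Matrix.det_fin_two] at hd
  have h1 : N 1 1 = - N 0 0 := by linear_combination ht
  refine ⟨h1, ?_⟩
  rw [h1] at hd
  linear_combination -hd

/-- the kernel of `SL_2 → PSL_2` -/
theorem pj_eq_one (U : Matrix.SpecialLinearGroup (Fin 2) F) :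
    pj U = 1 ↔ ∃ e : F, U.1 = e • (1 : Matrix (Fin 2) (Fin 2) F) := by
  unfold pj
  rw [QuotientGroup.eq_one_iff, Matrix.SpecialLinearGroup.mem_center_iff]
  constructor
  · rintro ⟨r, -, hr⟩
    exact ⟨r, by rw [← hr]; ext i j; fin_cases i <;> fin_cases j <;> simp⟩
  · rintro ⟨r, hr⟩
    refine ⟨r, ?_, ?_⟩
    · have := U.2
      rw [hr] at this
      simpa using this
    · rw [hr]; ext i j; fin_cases i <;> fin_cases j <;> simp

theorem scal_sq (U : Matrix.SpecialLinearGroup (Fin 2) F) (e : F)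
    (h : U.1 = e • (1 : Matrix (Fin 2) (Fin 2) F)) : e = 1 ∨ e = -1 := by
  have := U.2
  rw [h] at this
  simp at this
  exact this

/-- Cayley-Hamilton -/
theorem ch (V : Matrix.SpecialLinearGroup (Fin 2) F) :
    V.1 * V.1 = V.1.trace • V.1 - 1 := by
  have hd := V.2
  rw [Matrix.det_fin_two] at hd
  ext i j
  fin_cases i <;> fin_cases j <;>
    simp [Matrix.mul_apply, Fin.sum_univ_two, Matrix.trace_fin_two] <;>
    first | ring1 | linear_combination hd | linear_combination -hd

theorem pj_neg (U : Matrix.SpecialLinearGroup (Fin 2) F) : pj (-U) = pj U := by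
  have h1 : -U = (-1 : Matrix.SpecialLinearGroup (Fin 2) F) * U := by
    rw [neg_one_mul]
  have h2 : pj (-1 : Matrix.SpecialLinearGroup (Fin 2) F) = 1 := by
    rw [pj_eq_one]
    exact ⟨-1, by simp⟩
  calc pj (-U) = pj ((-1 : Matrix.SpecialLinearGroup (Fin 2) F) * U) := by rw [h1]
    _ = pj (-1 : Matrix.SpecialLinearGroup (Fin 2) F) * pj U := rfl
    _ = pj U := by rw [h2, one_mul]

/-- lift of an element of order `p` -/
theorem lift_x [Finite F] (p : ℕ) [CharP F p] [hp : Fact p.Prime]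
    (x : Matrix.ProjectiveSpecialLinearGroup (Fin 2) F) (h1 : x ^ p = 1) (h2 : x ≠ 1) :
    ∃ (U : Matrix.SpecialLinearGroup (Fin 2) F) (a b c : F), pj U = x ∧
      U.1 = !![1 + a, b; c, 1 - a] ∧ a ^ 2 + b * c = 0 ∧ (b ≠ 0 ∨ c ≠ 0) := by
  obtain ⟨U, hU⟩ := QuotientGroup.mk_surjective x
  -- a lift with `U ^ p = 1`
  have key : ∃ U : Matrix.SpecialLinearGroup (Fin 2) F, pj U = x ∧
      U.1 ^ p = (1 : Matrix (Fin 2) (Fin 2) F) := by
    have h3 : pj (U ^ p) = 1 := by
      rw [← h1, ← hU]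
      rfl
    obtain ⟨e, he⟩ := (pj_eq_one _).mp h3
    rw [Matrix.SpecialLinearGroup.coe_pow] at he
    rcases scal_sq (U ^ p) e (by rw [Matrix.SpecialLinearGroup.coe_pow]; exact he) with h4 | h4
    · exact ⟨U, hU, by rw [he, h4, one_smul]⟩
    · refine ⟨-U, ?_, ?_⟩
      · rw [← hU]
        exact pj_neg U
      · rw [Matrix.SpecialLinearGroup.coe_neg]
        rcases hp.out.eq_two_or_odd' with h5 | h5
        · subst h5
          have h6 : (2 : F) = 0 := by exact_mod_cast CharP.cast_eq_zero F 2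
          rw [neg_sq, he, h4]
          have : (-1 : F) = 1 := by linear_combination -h6
          rw [this, one_smul]
        · rw [h5.neg_pow, he, h4]
          simp
  obtain ⟨U, hUx, hUp⟩ := key
  have hN : (U.1 - 1) ^ p = 0 := by
    rw [sub_pow_char_of_commute, hUp]
    · simp
    · exact Commute.one_right _
  obtain ⟨e1, e2⟩ := nil_aux _ p hN
  refine ⟨U, U.1 0 0 - 1, U.1 0 1, U.1 1 0, hUx, ?_, ?_, ?_⟩
  · ext i j
    fin_cases i <;> fin_cases j <;> simp
    simp at e1
    linear_combination e1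
  · simp at e2
    linear_combination e2
  · by_contra hcon
    rw [not_or, not_not, not_not] at hcon
    have e3 : U.1 0 0 - 1 = 0 := by
      have : (U.1 0 0 - 1) ^ 2 = 0 := by simpa [hcon.1] using e2
      exact (pow_eq_zero_iff two_ne_zero).mp this
    have e4 : U.1 1 1 - 1 = 0 := by
      have : U.1 1 1 - 1 = -(U.1 0 0 - 1) := by simpa using e1
      rw [this, e3, neg_zero]
    apply h2
    rw [← hUx, pj_eq_one]
    refine ⟨1, ?_⟩
    ext i j
    fin_cases i <;> fin_cases j <;> simp [hcon.1, hcon.2]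
    · linear_combination e3
    · linear_combination e4

/-- an involution lifts to a matrix of trace zero -/
theorem lift_y (W : Matrix.SpecialLinearGroup (Fin 2) F) (h1 : (pj W) ^ 2 = 1) (h2 : pj W ≠ 1) :
    W.1 0 0 + W.1 1 1 = 0 := by
  have h3 : pj (W * W) = 1 := by
    rw [← h1, sq]
    rfl
  obtain ⟨e, he⟩ := (pj_eq_one _).mp h3
  rw [Matrix.SpecialLinearGroup.coe_mul, ch] at he
  by_contra hcon
  apply h2
  rw [pj_eq_one]
  rw [← Matrix.trace_fin_two] at hcon
  refine ⟨(W.1.trace)⁻¹ * (e + 1), ?_⟩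
  have : W.1.trace • W.1 = (e + 1) • (1 : Matrix (Fin 2) (Fin 2) F) := by
    rw [add_smul, one_smul, ← he, sub_add_cancel]
  rw [mul_smul, ← this, smul_smul, inv_mul_cancel₀ hcon, one_smul]

/-- an element of order three has trace `± 1` -/
theorem lift_v (V : Matrix.SpecialLinearGroup (Fin 2) F) (h1 : (pj V) ^ 3 = 1) (h2 : pj V ≠ 1) :
    V.1.trace = 1 ∨ V.1.trace = -1 := by
  have h3 : pj (V * V * V) = 1 := by
    rw [← h1, pow_succ, sq]
    rfl
  obtain ⟨e, he⟩ := (pj_eq_one _).mp h3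
  rw [Matrix.SpecialLinearGroup.coe_mul, Matrix.SpecialLinearGroup.coe_mul, ch, sub_mul, one_mul,
    Matrix.smul_mul, ch] at he
  by_contra hcon
  obtain ⟨t, ht⟩ : ∃ t, t = V.1.trace := ⟨_, rfl⟩
  rw [← ht] at he hcon
  have ht2 : t ^ 2 - 1 ≠ 0 := by
    intro h0
    have : (t - 1) * (t + 1) = 0 := by linear_combination h0
    rcases mul_eq_zero.mp this with h | h
    · exact hcon (Or.inl (by linear_combination h))
    · exact hcon (Or.inr (by linear_combination h))
  have h5 : (t ^ 2 - 1) • V.1 = (t + e) • (1 : Matrix (Fin 2) (Fin 2) F) := by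
    rw [add_smul, ← he, smul_sub, smul_smul, sub_smul, one_smul, ← sq]
    abel
  apply h2
  rw [pj_eq_one]
  refine ⟨(t ^ 2 - 1)⁻¹ * (t + e), ?_⟩
  rw [mul_smul, ← h5, smul_smul, inv_mul_cancel₀ ht2, one_smul]

/-- the parameters of a pair -/
theorem param [Finite F] (p : ℕ) [CharP F p] [hp : Fact p.Prime]
    (x y : Matrix.ProjectiveSpecialLinearGroup (Fin 2) F)
    (h : x ^ p = 1 ∧ x ≠ 1 ∧ y ^ 2 = 1 ∧ y ≠ 1 ∧ (x * y) ^ 3 = 1 ∧ x * y ≠ 1) :
    ∃ (t : Tup F) (U W : Matrix.SpecialLinearGroup (Fin 2) F), Good t ∧ pj U = x ∧ pj W = y ∧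
      U.1 = !![1 + t.1.1, t.1.2.1; t.1.2.2, 1 - t.1.1] ∧
      W.1 = !![t.2.1, t.2.2.1; t.2.2.2, -t.2.1] := by
  obtain ⟨hx, hx1, hy, hy1, hv, hv1⟩ := h
  obtain ⟨U, a, b, c, hU, hUm, hn, hbc⟩ := lift_x p x hx hx1
  have key : ∃ W : Matrix.SpecialLinearGroup (Fin 2) F, pj W = y ∧ (U.1 * W.1).trace = 1 := by
    obtain ⟨W, hW⟩ := QuotientGroup.mk_surjective y
    have hW' : pj W = y := hW
    have h3 : pj (U * W) = x * y := by
      rw [← hU, ← hW']
      rfl
    rcases lift_v (U * W) (by rw [h3]; exact hv) (by rw [h3]; exact hv1) with h4 | h4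
    · exact ⟨W, hW', by rw [← Matrix.SpecialLinearGroup.coe_mul]; exact h4⟩
    · refine ⟨-W, by rw [pj_neg, hW'], ?_⟩
      rw [Matrix.SpecialLinearGroup.coe_neg, mul_neg, Matrix.trace_neg,
        ← Matrix.SpecialLinearGroup.coe_mul, h4, neg_neg]
  obtain ⟨W, hW, htr⟩ := key
  have h5 := lift_y W (by rw [hW]; exact hy) (by rw [hW]; exact hy1)
  have h6 : W.1 1 1 = - W.1 0 0 := by linear_combination h5
  have h7 := W.2
  rw [Matrix.det_fin_two, h6] at h7
  rw [Matrix.trace_fin_two, Matrix.mul_apply, Matrix.mul_apply, Fin.sum_univ_two, Fin.sum_univ_two,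
    hUm, h6] at htr
  simp at htr
  refine ⟨((a, b, c), (W.1 0 0, W.1 0 1, W.1 1 0)), U, W, ⟨hn, hbc, ?_, ?_⟩, hU, hW, hUm, ?_⟩
  · simp only
    linear_combination -h7
  · simp only
    linear_combination htr
  · ext i j
    fin_cases i <;> fin_cases j <;> simp [h6]

end IPA2

/-- PA2: possible images of `u(1)` and `w` -/
theorem pr_PA2 : StPA2 := by
  intro F _ _ p _ _
  classical
  have key : ∀ z : {z : Matrix.ProjectiveSpecialLinearGroup (Fin 2) F ×
        Matrix.ProjectiveSpecialLinearGroup (Fin 2) F //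
      z.1 ^ p = 1 ∧ z.1 ≠ 1 ∧ z.2 ^ 2 = 1 ∧ z.2 ≠ 1 ∧ (z.1 * z.2) ^ 3 = 1 ∧ z.1 * z.2 ≠ 1},
      ∃ (t : IPA2.Tup F) (U W : Matrix.SpecialLinearGroup (Fin 2) F), IPA2.Good t ∧
        pj U = z.1.1 ∧ pj W = z.1.2 ∧
        U.1 = !![1 + t.1.1, t.1.2.1; t.1.2.2, 1 - t.1.1] ∧
        W.1 = !![t.2.1, t.2.2.1; t.2.2.2, -t.2.1] :=
    fun z => IPA2.param p z.1.1 z.1.2 z.2
  choose t U W h1 h2 h3 h4 h5 using key
  have hinj : Function.Injective (fun z => IPA2.tau (t z) (h1 z)) := by
    intro z z' hz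
    have e := IPA2.tau_inj _ _ _ _ hz
    have eU : U z = U z' := by
      apply Subtype.ext
      rw [h4, h4, e]
    have eW : W z = W z' := by
      apply Subtype.ext
      rw [h5, h5, e]
    apply Subtype.ext
    apply Prod.ext
    · rw [← h2, ← h2, eU]
    · rw [← h3, ← h3, eW]
  have hc := Nat.card_le_card_of_injective _ hinj
  have hcard : Nat.card ({w : F × F // w ≠ 0} × F) = (Nat.card F ^ 2 - 1) * Nat.card F := by
    have : Fintype F := Fintype.ofFinite F
    rw [Nat.card_prod]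
    congr 1
    have h6 : Nat.card {w : F × F // w ≠ 0} = Nat.card (F × F) - 1 := by
      rw [Nat.card_eq_fintype_card, Nat.card_eq_fintype_card]
      exact Set.card_ne_eq (0 : F × F)
    rw [h6, Nat.card_prod, sq]
  rw [hcard] at hc
  refine hc.trans ?_
  nlinarith [Nat.zero_le ((Nat.card F ^ 2 - 1) * Nat.card F)]

end Pool.Agent.RadIndex.RI
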