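import Pool.Agent.Work.MP_76dc41_al.RI.Stmts

/-!
# Item PAU: the number of automorphisms of `PSL_2(F)`
-/

set_option autoImplicit false

open Module Representation Pool.Agent.DC7914

namespace Pool.Agent.RadIndex.RI

open Pool.Agent Pool.Agent.RadIndex

namespace IPAU

variable {F : Type} [Field F]

/-- an element of the centre has vanishing upper right entry -/
theorem center_entry (A : Matrix.SpecialLinearGroup (Fin 2) F)
    (hA : A ∈ Subgroup.center (Matrix.SpecialLinearGroup (Fin 2) F)) :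
    (A : Matrix (Fin 2) (Fin 2) F) 0 1 = 0 := by
  rw [Matrix.SpecialLinearGroup.mem_center_iff] at hA
  obtain ⟨r, -, hr⟩ := hA
  rw [← hr]
  simp

theorem pj_ne_one (A : Matrix.SpecialLinearGroup (Fin 2) F)
    (hA : (A : Matrix (Fin 2) (Fin 2) F) 0 1 ≠ 0) : pj A ≠ 1 := by
  intro h
  exact hA (center_entry A ((QuotientGroup.eq_one_iff A).1 h))

theorem pj_mul (A B : Matrix.SpecialLinearGroup (Fin 2) F) : pj (A * B) = pj A * pj B := rfl

theorem pj_pow (A : Matrix.SpecialLinearGroup (Fin 2) F) (n : ℕ) : pj (A ^ n) = pj A ^ n := rfl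

theorem mu1_pow (n : ℕ) : (mu1 (1 : F)) ^ n = mu1 (n : F) := by
  induction n with
  | zero =>
    ext i j
    fin_cases i <;> fin_cases j <;> simp [mu1]
  | succ n ih =>
    rw [pow_succ, ih]
    ext i j
    fin_cases i <;> fin_cases j <;> simp [mu1, Matrix.mul_apply, Fin.sum_univ_two, add_comm]

theorem u_pow (p : ℕ) [CharP F p] : pj (mu1 (1 : F)) ^ p = 1 := by
  rw [← pj_pow, mu1_pow, CharP.cast_eq_zero]
  have h : (mu1 (0 : F)) = 1 := by
    ext i j
    fin_cases i <;> fin_cases j <;> simp [mu1]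
  rw [h]
  rfl

theorem u_ne : pj (mu1 (1 : F)) ≠ 1 := by
  apply pj_ne_one
  simp [mu1]

theorem w_ne : pj (mw : Matrix.SpecialLinearGroup (Fin 2) F) ≠ 1 := by
  apply pj_ne_one
  simp [mw]

theorem w_sq : pj (mw : Matrix.SpecialLinearGroup (Fin 2) F) ^ 2 = 1 := by
  rw [← pj_pow]
  apply (QuotientGroup.eq_one_iff _).2
  rw [Matrix.SpecialLinearGroup.mem_center_iff]
  refine ⟨-1, by simp, ?_⟩
  ext i j
  fin_cases i <;> fin_cases j <;>
    simp [mw, pow_two, Matrix.mul_apply, Fin.sum_univ_two]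

theorem uw_ne : pj (mu1 (1 : F)) * pj mw ≠ 1 := by
  rw [← pj_mul]
  apply pj_ne_one
  simp [mu1, mw, Matrix.mul_apply, Fin.sum_univ_two]

theorem uw_cube : (pj (mu1 (1 : F)) * pj mw) ^ 3 = 1 := by
  rw [← pj_mul, ← pj_pow]
  have h : (mu1 (1 : F) * mw) ^ 3 = 1 := by
    ext i j
    fin_cases i <;> fin_cases j <;>
      simp [mu1, mw, pow_succ, Matrix.mul_apply, Fin.sum_univ_two]
  rw [h]
  rfl

/-- counting a family of pairs -/
theorem card_bound {M A : Type} [Finite A] {B : A → Type} [∀ z, Finite (B z)] (f : ∀ _ : M, A)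
    (g : ∀ m : M, B (f m)) (inj : ∀ m m' : M, (⟨f m, g m⟩ : Σ z, B z) = ⟨f m', g m'⟩ → m = m')
    (n k : ℕ) (hn : Nat.card A ≤ n) (hk : ∀ z, Nat.card (B z) ≤ k) : Nat.card M ≤ n * k := by
  haveI : Fintype A := Fintype.ofFinite A
  have h1 : Nat.card M ≤ Nat.card (Σ z, B z) :=
    Nat.card_le_card_of_injective (fun m => (⟨f m, g m⟩ : Σ z, B z)) (fun m m' h => inj m m' h)
  have h2 : Nat.card (Σ z, B z) ≤ Nat.card A * k := by
    rw [Nat.card_sigma]
    calc ∑ z, Nat.card (B z) ≤ ∑ _z : A, k := Finset.sum_le_sum fun z _ => hk z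
      _ = Nat.card A * k := by
        rw [Finset.sum_const, Finset.card_univ, Nat.card_eq_fintype_card, smul_eq_mul]
  exact h1.trans (h2.trans (Nat.mul_le_mul_right k hn))

end IPAU

open IPAU in
theorem pr_PAU (hPA1 : StPA1) (hPA2 : StPA2) (hPA3 : StPA3) : StPAU := by
  intro F _ _ hq
  obtain ⟨p, hp⟩ := CharP.exists F
  have : Fact p.Prime := ⟨CharP.char_is_prime F p⟩
  obtain ⟨a, ha⟩ := IsCyclic.exists_generator (α := Fˣ)
  have : Finite (Matrix.SpecialLinearGroup (Fin 2) F) := Subtype.finite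
  have : Finite (Matrix.ProjectiveSpecialLinearGroup (Fin 2) F) :=
    inferInstanceAs (Finite (_ ⧸ Subgroup.center (Matrix.SpecialLinearGroup (Fin 2) F)))
  have h1 := hPA1 F a hq ha
  have h2 := hPA2 F p
  have h3 := hPA3 F a hq ha
  have hC := prf_CARD F
  set S := Matrix.ProjectiveSpecialLinearGroup (Fin 2) F with hS
  set u : S := pj (mu1 (1 : F)) with hu
  set w : S := pj (mw : Matrix.SpecialLinearGroup (Fin 2) F) with hw
  set t : S := pj (mt a) with ht
  have key : Nat.card (MulAut S) ≤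
      (2 * Nat.card F * (Nat.card F ^ 2 - 1)) * Nat.log 2 (Nat.card F) := by
    refine card_bound (M := MulAut S)
      (A := {z : S × S // z.1 ^ p = 1 ∧ z.1 ≠ 1 ∧ z.2 ^ 2 = 1 ∧ z.2 ≠ 1 ∧ (z.1 * z.2) ^ 3 = 1 ∧
        z.1 * z.2 ≠ 1})
      (B := fun z => {y : S // ∃ α : MulAut S, α u = z.1.1 ∧ α w = z.1.2 ∧ α t = y})
      (fun α => ⟨(α u, α w), ?_⟩) (fun α => ⟨α t, α, rfl, rfl, rfl⟩) ?_ _ _ h2
      (fun z => h3 z.1.1 z.1.2)
    · have hne : ∀ x : S, x ≠ 1 → α x ≠ 1 := by
        intro x hx h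
        exact hx (α.injective (h.trans (map_one α).symm))
      refine ⟨?_, hne _ u_ne, ?_, hne _ w_ne, ?_, ?_⟩
      · change (α u) ^ p = 1
        rw [← map_pow, hu, u_pow, map_one]
      · change (α w) ^ 2 = 1
        rw [← map_pow, hw, w_sq, map_one]
      · change (α u * α w) ^ 3 = 1
        rw [← map_mul, ← map_pow, hu, hw, uw_cube, map_one]
      · change α u * α w ≠ 1
        rw [← map_mul]
        exact hne _ uw_ne
    · intro α β h
      have e1 : α u = β u := congrArg (fun z => z.1.1.1) h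
      have e2 : α w = β w := congrArg (fun z => z.1.1.2) h
      have e3 : α t = β t := congrArg (fun z => z.2.1) h
      have e4 : (α : S →* S) = (β : S →* S) := by
        apply MonoidHom.eq_of_eqOn_dense h1
        rintro x hx
        rcases hx with rfl | rfl | hx
        · exact e1
        · exact e2
        · rw [Set.mem_singleton_iff.1 hx]
          exact e3
      ext x
      exact DFunLike.congr_fun e4 x
  have hg : Nat.gcd 2 (Nat.card F - 1) ≤ 2 := Nat.gcd_le_left _ (by norm_num)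
  have hle : Nat.card F * (Nat.card F ^ 2 - 1) ≤ Nat.card S * 2 := by
    rw [← hC]
    exact Nat.mul_le_mul_left _ hg
  calc Nat.card (MulAut S) ≤ (2 * Nat.card F * (Nat.card F ^ 2 - 1)) * Nat.log 2 (Nat.card F) := key
    _ = (Nat.card F * (Nat.card F ^ 2 - 1)) * (2 * Nat.log 2 (Nat.card F)) := by ring
    _ ≤ (Nat.card S * 2) * (2 * Nat.log 2 (Nat.card F)) := Nat.mul_le_mul_right _ hle
    _ = 4 * Nat.log 2 (Nat.card F) * Nat.card S := by ring

end Pool.Agent.RadIndex.RI
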