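import Pool.Agent.Work.MP_76dc41_al.RI.Stmts

/-!
# MP_76dc41_al, block RI, item PCL: classes of `PSL_2(F)` with a cyclic centraliser
-/

set_option autoImplicit false

namespace Pool.Agent.RadIndex.RI

open Pool.Agent Pool.Agent.RadIndex

namespace IPCL

variable {F : Type} [Field F]

/-- equality in `PSL_2`, in terms of matrices -/
theorem pj_eq (x y : Matrix.SpecialLinearGroup (Fin 2) F) (h : pj x = pj y) :
    ∃ r : F, (r = 1 ∨ r = -1) ∧ ∀ i j, y i j = r * x i j := by
  have h1 : x⁻¹ * y ∈ Subgroup.center (Matrix.SpecialLinearGroup (Fin 2) F) :=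
    QuotientGroup.eq.1 h
  obtain ⟨r, hr, hs⟩ := Matrix.SpecialLinearGroup.mem_center_iff.1 h1
  have hr2 : r = 1 ∨ r = -1 := by
    have h2 : r ^ 2 = 1 := by simpa using hr
    rw [pow_two] at h2
    exact mul_self_eq_one_iff.1 h2
  refine ⟨r, hr2, ?_⟩
  have h3 : (y : Matrix (Fin 2) (Fin 2) F) = (x : Matrix (Fin 2) (Fin 2) F) * Matrix.scalar (Fin 2) r := by
    rw [hs, ← Matrix.SpecialLinearGroup.coe_mul, mul_inv_cancel_left]
  intro i j
  have h4 : (y : Matrix (Fin 2) (Fin 2) F) i j = ((x : Matrix (Fin 2) (Fin 2) F) * Matrix.scalar (Fin 2) r) i j := by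
    rw [h3]
  rw [Matrix.scalar_apply, Matrix.mul_diagonal] at h4
  rw [mul_comm]
  exact h4

/-- the elements commuting with the image of a diagonal matrix -/
theorem comm_diag (a : Fˣ) (ha : a ^ 4 ≠ 1) (Y : Matrix.SpecialLinearGroup (Fin 2) F)
    (h : pj Y * pj (mt a) = pj (mt a) * pj Y) : ∃ p : Fˣ, Y = mt p := by
  have h0 : pj (Y * mt a) = pj (mt a * Y) := h
  obtain ⟨r, hr, hy⟩ := pj_eq _ _ h0
  have ha0 : (a : F) ≠ 0 := a.ne_zero
  have hai : (a : F) * ((a⁻¹ : Fˣ) : F) = 1 := by simp
  have ha4 : (a : F) ^ 4 ≠ 1 := by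
    intro h4
    apply ha
    ext
    simpa using h4
  have ha2 : (a : F) ^ 2 ≠ 1 := fun h2 => ha4 (by rw [show (4 : ℕ) = 2 * 2 from rfl, pow_mul, h2, one_pow])
  have ha2' : (a : F) ^ 2 ≠ -1 := fun h2 => ha4 (by rw [show (4 : ℕ) = 2 * 2 from rfl, pow_mul, h2]; ring)
  have e01 : ((mt a).1 * Y.1) 0 1 = r * (Y.1 * (mt a).1) 0 1 := hy 0 1
  have e10 : ((mt a).1 * Y.1) 1 0 = r * (Y.1 * (mt a).1) 1 0 := hy 1 0
  rw [Matrix.mul_apply, Matrix.mul_apply, Fin.sum_univ_two, Fin.sum_univ_two] at e01 e10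
  have hdet := Y.det_coe
  rw [Matrix.det_fin_two] at hdet
  have q0 : Y 0 1 = 0 := by
    have e : (a : F) * Y 0 1 = r * (Y 0 1 * ((a⁻¹ : Fˣ) : F)) := by
      simpa [mt] using e01
    have e' : Y 0 1 * ((a : F) ^ 2 - r) = 0 := by
      have : (a : F) * ((a : F) * Y 0 1) = (a : F) * (r * (Y 0 1 * ((a⁻¹ : Fˣ) : F))) := by rw [e]
      linear_combination this + r * Y 0 1 * hai
    rcases mul_eq_zero.1 e' with h1 | h1
    · exact h1
    · exfalso
      rcases hr with rfl | rfl
      · exact ha2 (by linear_combination h1)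
      · exact ha2' (by linear_combination h1)
  have r0 : Y 1 0 = 0 := by
    have e : ((a⁻¹ : Fˣ) : F) * Y 1 0 = r * (Y 1 0 * (a : F)) := by
      simpa [mt] using e10
    have e' : Y 1 0 * (1 - r * (a : F) ^ 2) = 0 := by
      have : (a : F) * (((a⁻¹ : Fˣ) : F) * Y 1 0) = (a : F) * (r * (Y 1 0 * (a : F))) := by rw [e]
      linear_combination this - Y 1 0 * hai
    rcases mul_eq_zero.1 e' with h1 | h1
    · exact h1
    · exfalso
      rcases hr with rfl | rfl
      · exact ha2 (by linear_combination -h1)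
      · exact ha2' (by linear_combination h1)
  have hps : Y 0 0 * Y 1 1 = 1 := by
    rw [q0, r0] at hdet
    simpa using hdet
  refine ⟨⟨Y 0 0, Y 1 1, hps, by rw [mul_comm]; exact hps⟩, ?_⟩
  ext i j
  fin_cases i <;> fin_cases j
  · simp [mt]
  · simpa [mt] using q0
  · simpa [mt] using r0
  · simp [mt]

/-- the homomorphism from the units to the diagonal matrices -/
noncomputable def tau (F : Type) [Field F] : Fˣ →* Matrix.ProjectiveSpecialLinearGroup (Fin 2) F where
  toFun a := pj (mt a)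
  map_one' := by
    have : (mt (1 : Fˣ) : Matrix.SpecialLinearGroup (Fin 2) F) = 1 := by
      ext i j
      fin_cases i <;> fin_cases j <;> simp [mt]
    rw [this]
    rfl
  map_mul' a b := by
    have : (mt (a * b) : Matrix.SpecialLinearGroup (Fin 2) F) = mt a * mt b := by
      ext i j
      change (mt (a * b)).1 i j = ((mt a).1 * (mt b).1) i j
      rw [Matrix.mul_apply, Fin.sum_univ_two]
      fin_cases i <;> fin_cases j <;> simp [mt, mul_comm]
    rw [this]
    rfl

theorem cyc [Finite F] (a : Fˣ) (ha : a ^ 4 ≠ 1) :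
    IsCyclic (Subgroup.centralizer ({pj (mt a)} : Set (Matrix.ProjectiveSpecialLinearGroup (Fin 2) F))) := by
  have hle : Subgroup.centralizer ({pj (mt a)} : Set (Matrix.ProjectiveSpecialLinearGroup (Fin 2) F)) ≤
      (tau F).range := by
    intro y hy
    obtain ⟨Y, rfl⟩ := QuotientGroup.mk_surjective y
    rw [Subgroup.mem_centralizer_singleton_iff] at hy
    obtain ⟨p, rfl⟩ := comm_diag a ha Y hy
    exact ⟨p, rfl⟩
  have : IsCyclic (tau F).range :=
    isCyclic_of_surjective (tau F).rangeRestrict (MonoidHom.rangeRestrict_surjective _)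
  exact isCyclic_of_injective (Subgroup.inclusion hle) (Subgroup.inclusion_injective hle)

/-- conjugate elements have isomorphic centralisers -/
theorem cyc_conj {G : Type} [Group G] (x y : G) (h : IsConj x y)
    (hx : IsCyclic (Subgroup.centralizer ({x} : Set G))) :
    IsCyclic (Subgroup.centralizer ({y} : Set G)) := by
  obtain ⟨c, rfl⟩ := isConj_iff.1 h
  have hmem : ∀ z : Subgroup.centralizer ({c * x * c⁻¹} : Set G), c⁻¹ * (z : G) * c ∈
      Subgroup.centralizer ({x} : Set G) := by
    intro z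
    have hz := z.2
    rw [Subgroup.mem_centralizer_singleton_iff] at hz ⊢
    have h1 : (z : G) * (c * x * c⁻¹) = (c * x * c⁻¹) * z := hz
    have h2 : c⁻¹ * (z : G) * c * x = x * (c⁻¹ * (z : G) * c) := by
      calc c⁻¹ * (z : G) * c * x = c⁻¹ * ((z : G) * (c * x * c⁻¹)) * c := by group
        _ = c⁻¹ * ((c * x * c⁻¹) * z) * c := by rw [h1]
        _ = x * (c⁻¹ * (z : G) * c) := by group
    exact h2
  let f : Subgroup.centralizer ({c * x * c⁻¹} : Set G) →* Subgroup.centralizer ({x} : Set G) :=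
    { toFun := fun z => ⟨c⁻¹ * (z : G) * c, hmem z⟩
      map_one' := by ext; simp
      map_mul' := fun z w => by
        apply Subtype.ext
        change c⁻¹ * ((z : G) * (w : G)) * c = (c⁻¹ * (z : G) * c) * (c⁻¹ * (w : G) * c)
        group }
  apply isCyclic_of_injective f
  intro z w hzw
  have h3 : c⁻¹ * (z : G) * c = c⁻¹ * (w : G) * c := congrArg Subtype.val hzw
  apply Subtype.ext
  exact mul_left_cancel (mul_right_cancel h3)

theorem tr_eq (a b : Fˣ) (h : IsConj (pj (mt a)) (pj (mt b))) :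
    b = a ∨ b = -a ∨ b = a⁻¹ ∨ b = -a⁻¹ := by
  obtain ⟨c, hc⟩ := isConj_iff.1 h
  obtain ⟨C, rfl⟩ := QuotientGroup.mk_surjective c
  have h0 : pj (C * mt a * C⁻¹) = pj (mt b) := hc
  obtain ⟨r, hr, hy⟩ := pj_eq _ _ h0
  have ht : (mt b : Matrix.SpecialLinearGroup (Fin 2) F).1.trace =
      r * (mt a : Matrix.SpecialLinearGroup (Fin 2) F).1.trace := by
    have h1 : (C * mt a * C⁻¹ : Matrix.SpecialLinearGroup (Fin 2) F).1.trace =
        (mt a : Matrix.SpecialLinearGroup (Fin 2) F).1.trace := by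
      have h2 : (C * mt a * C⁻¹ : Matrix.SpecialLinearGroup (Fin 2) F).1 =
          (C * mt a : Matrix.SpecialLinearGroup (Fin 2) F).1 * (C⁻¹).1 := rfl
      rw [h2, Matrix.trace_mul_comm]
      have h3 : (C⁻¹).1 * (C * mt a : Matrix.SpecialLinearGroup (Fin 2) F).1 =
          (C⁻¹ * (C * mt a) : Matrix.SpecialLinearGroup (Fin 2) F).1 := rfl
      rw [h3, inv_mul_cancel_left]
    rw [← h1, Matrix.trace_fin_two, Matrix.trace_fin_two, mul_add]
    exact congrArg₂ (· + ·) (hy 0 0) (hy 1 1)
  have ht' : (b : F) + ((b⁻¹ : Fˣ) : F) = r * ((a : F) + ((a⁻¹ : Fˣ) : F)) := by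
    simpa [mt, Matrix.trace_fin_two] using ht
  have hai : (a : F) * ((a⁻¹ : Fˣ) : F) = 1 := by simp
  have hbi : (b : F) * ((b⁻¹ : Fˣ) : F) = 1 := by simp
  have hr2 : r * r = 1 := by rcases hr with rfl | rfl <;> ring
  have hprod : ((b : F) - r * a) * ((b : F) * a - r) = 0 := by
    linear_combination (a : F) * b * ht' - (a : F) * hbi + r * (b : F) * hai + (a : F) * hr2
  rcases mul_eq_zero.1 hprod with h1 | h1
  · rcases hr with rfl | rfl
    · left
      ext
      linear_combination h1
    · right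
      left
      ext
      push_cast
      linear_combination h1
  · have h2 : (b : F) = r * ((a⁻¹ : Fˣ) : F) := by
      have : ((b : F) * a - r) * ((a⁻¹ : Fˣ) : F) = 0 := by rw [h1, zero_mul]
      linear_combination this - (b : F) * hai
    rcases hr with rfl | rfl
    · right
      right
      left
      ext
      linear_combination h2
    · right
      right
      right
      ext
      rw [Units.val_neg]
      linear_combination h2

end IPCL

open IPCL in
theorem pr_PCL : StPCL := by
  classical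
  intro F _ _
  have : Fintype F := Fintype.ofFinite F
  have : Finite (Matrix.ProjectiveSpecialLinearGroup (Fin 2) F) := inferInstance
  have : Finite (ConjClasses (Matrix.ProjectiveSpecialLinearGroup (Fin 2) F)) :=
    Finite.of_surjective _ ConjClasses.mk_surjective
  have : Fintype (ConjClasses (Matrix.ProjectiveSpecialLinearGroup (Fin 2) F)) := Fintype.ofFinite _
  let s : Finset Fˣ := Finset.univ.filter fun a => a ^ 4 ≠ 1
  let f : Fˣ → ConjClasses (Matrix.ProjectiveSpecialLinearGroup (Fin 2) F) :=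
    fun a => ConjClasses.mk (pj (mt a))
  have hs : Nat.card F ≤ s.card + 5 := by
    have h1 : (Finset.univ.filter fun a : Fˣ => a ^ 4 = 1).card ≤ 4 :=
      IsCyclic.card_pow_eq_one_le (by norm_num)
    have h2 := Finset.card_filter_add_card_filter_not (s := (Finset.univ : Finset Fˣ)) (fun a => a ^ 4 = 1)
    have h3 : (Finset.univ : Finset Fˣ).card = Fintype.card F - 1 := by
      rw [Finset.card_univ, Fintype.card_units]
    have h4 : 0 < Fintype.card F := Fintype.card_pos
    rw [Nat.card_eq_fintype_card]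
    have h5 : s.card = (Finset.univ.filter fun a : Fˣ => ¬ a ^ 4 = 1).card := rfl
    omega
  have hfib : s.card ≤ 4 * (s.image f).card := by
    apply Finset.card_le_mul_card_image
    intro C hC
    obtain ⟨a, -, rfl⟩ := Finset.mem_image.1 hC
    have hsub : (s.filter fun x => f x = f a) ⊆ {a, -a, a⁻¹, -a⁻¹} := by
      intro b hb
      have h1 : f b = f a := (Finset.mem_filter.1 hb).2
      have h2 : IsConj (pj (mt a)) (pj (mt b)) := ConjClasses.mk_eq_mk_iff_isConj.1 h1.symm
      simp only [Finset.mem_insert, Finset.mem_singleton]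
      exact tr_eq a b h2
    exact (Finset.card_le_card hsub).trans Finset.card_le_four
  have himg : (s.image f).card ≤ Nat.card {C : ConjClasses (Matrix.ProjectiveSpecialLinearGroup (Fin 2) F) //
      ∀ x, ConjClasses.mk x = C → IsCyclic (Subgroup.centralizer
        ({x} : Set (Matrix.ProjectiveSpecialLinearGroup (Fin 2) F)))} := by
    rw [Nat.card_eq_fintype_card, Fintype.card_subtype]
    apply Finset.card_le_card
    intro C hC
    obtain ⟨a, ha, rfl⟩ := Finset.mem_image.1 hC
    rw [Finset.mem_filter]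
    refine ⟨Finset.mem_univ _, fun x hx => ?_⟩
    exact cyc_conj _ _ (ConjClasses.mk_eq_mk_iff_isConj.1 hx).symm (cyc a (Finset.mem_filter.1 ha).2)
  omega

end Pool.Agent.RadIndex.RI
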