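import Pool.Agent.Work.MP_76dc41_al.RI.Stmts

/-!
# Item PKY (helper42): class numbers of the subgroups of `PSL_2(F)`
-/

set_option autoImplicit false

open Module Representation Pool.Agent.DC7914

namespace Pool.Agent.RadIndex.RI

open Pool.Agent Pool.Agent.RadIndex

namespace IPKY

theorem cnt {α F : Type} [Finite α] [Field F] [Finite F] (f g : α → F) (A B : F → F)
    (hinj : ∀ u v, f u = f v → g u = g v → u = v)
    (hq : ∀ u, g u * g u + A (f u) * g u + B (f u) = 0) :
    Nat.card α ≤ 2 * Nat.card F := by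
  classical
  have := Fintype.ofFinite α
  have := Fintype.ofFinite F
  have h1 := Finset.card_le_mul_card_image (f := f) (Finset.univ : Finset α) 2 (by
    intro r _
    by_contra hc
    obtain ⟨u, hu, v, hv, w, hw, huv, huw, hvw⟩ := Finset.two_lt_card.mp (not_le.mp hc)
    rw [Finset.mem_filter] at hu hv hw
    have eu := hq u
    have ev := hq v
    have ew := hq w
    rw [hu.2] at eu
    rw [hv.2] at ev
    rw [hw.2] at ew
    have nuv : g u - g v ≠ 0 := fun h => huv (hinj u v (hu.2.trans hv.2.symm) (sub_eq_zero.mp h))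
    have nuw : g u - g w ≠ 0 := fun h => huw (hinj u w (hu.2.trans hw.2.symm) (sub_eq_zero.mp h))
    have s1 : (g u - g v) * (g u + g v + A r) = 0 := by linear_combination eu - ev
    have s2 : (g u - g w) * (g u + g w + A r) = 0 := by linear_combination eu - ew
    have s3 := (mul_eq_zero.mp s1).resolve_left nuv
    have s4 := (mul_eq_zero.mp s2).resolve_left nuw
    have s5 : g v = g w := by linear_combination s3 - s4
    exact hvw (hinj v w (hv.2.trans hw.2.symm) s5))
  have h2 : (Finset.univ.image f).card ≤ Fintype.card F := Finset.card_le_univ _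
  rw [Nat.card_eq_fintype_card, Nat.card_eq_fintype_card]
  calc Fintype.card α = (Finset.univ : Finset α).card := rfl
    _ ≤ 2 * (Finset.univ.image f).card := h1
    _ ≤ 2 * Fintype.card F := Nat.mul_le_mul_left 2 h2

theorem quot_cent {G : Type} [Group G] [Finite G] (N : Subgroup G) [N.Normal] (x : G) :
    Nat.card (Subgroup.centralizer ({(QuotientGroup.mk x : G ⧸ N)} : Set (G ⧸ N))) ≤
      Nat.card (Subgroup.centralizer ({x} : Set G)) := by
  classical
  have := Fintype.ofFinite G
  set Cb := Subgroup.centralizer ({(QuotientGroup.mk x : G ⧸ N)} : Set (G ⧸ N)) with hCb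
  set D := Cb.comap (QuotientGroup.mk' N) with hD
  have h1 : Nat.card D = Nat.card Cb * Nat.card N := by
    have e1 : D.index = Cb.index :=
      Subgroup.index_comap_of_surjective Cb (QuotientGroup.mk'_surjective N)
    have e2 := Subgroup.card_mul_index D
    have e3 := Subgroup.card_mul_index Cb
    have e4 : Nat.card G = Nat.card (G ⧸ N) * Nat.card N := Subgroup.card_eq_card_quotient_mul_card_subgroup N
    have e5 : 0 < Cb.index := Nat.pos_of_ne_zero Subgroup.index_ne_zero_of_finite
    rw [e1, e4, ← e3] at e2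
    refine Nat.eq_of_mul_eq_mul_right e5 ?_
    rw [e2]
    ring
  have hmem : ∀ w : G, w ∈ D → x⁻¹ * w⁻¹ * x * w ∈ N := by
    intro w hw
    have hw1 : (QuotientGroup.mk w : G ⧸ N) ∈ Cb := hw
    rw [hCb, Subgroup.mem_centralizer_singleton_iff] at hw1
    rw [← QuotientGroup.eq_one_iff]
    have e6 : ((x⁻¹ * w⁻¹ * x * w : G) : G ⧸ N) =
        (QuotientGroup.mk x : G ⧸ N)⁻¹ * (QuotientGroup.mk w : G ⧸ N)⁻¹ *
          ((QuotientGroup.mk x : G ⧸ N) * (QuotientGroup.mk w : G ⧸ N)) := by
      rw [← mul_assoc]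
      rfl
    rw [e6, ← hw1]
    group
  have h2 : Nat.card D ≤ Nat.card (Subgroup.centralizer ({x} : Set G)) * Nat.card N := by
    have h3 := Finset.card_le_mul_card_image
      (f := fun w : D => (⟨x⁻¹ * (w : G)⁻¹ * x * w, hmem w w.2⟩ : N)) (Finset.univ : Finset D)
      (Nat.card (Subgroup.centralizer ({x} : Set G))) (by
        intro r hr
        obtain ⟨w₀, -, hw₀⟩ := Finset.mem_image.mp hr
        rw [Nat.card_eq_fintype_card]
        refine Finset.card_le_card_of_injOn
          (t := (Finset.univ : Finset (Subgroup.centralizer ({x} : Set G))))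
          (fun w : D => if h : (w : G) * (w₀ : G)⁻¹ ∈ Subgroup.centralizer ({x} : Set G) then
            (⟨(w : G) * (w₀ : G)⁻¹, h⟩ : Subgroup.centralizer ({x} : Set G)) else 1)
          (fun _ _ => Finset.mem_coe.mpr (Finset.mem_univ _)) ?_
        have key : ∀ w : D, w ∈ Finset.univ.filter (fun w : D =>
            (⟨x⁻¹ * (w : G)⁻¹ * x * w, hmem w w.2⟩ : N) = r) →
            (w : G) * (w₀ : G)⁻¹ ∈ Subgroup.centralizer ({x} : Set G) := by
          intro w hw
          have h4 := (Finset.mem_filter.mp hw).2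
          rw [← hw₀] at h4
          have h5 : x⁻¹ * (w : G)⁻¹ * x * w = x⁻¹ * (w₀ : G)⁻¹ * x * w₀ := congrArg Subtype.val h4
          have h6 : (w : G)⁻¹ * x * w = (w₀ : G)⁻¹ * x * w₀ := by
            have h7 := congrArg (fun z => x * z) h5
            simpa [mul_assoc] using h7
          rw [Subgroup.mem_centralizer_singleton_iff]
          have h8 : (w : G) * (w₀ : G)⁻¹ * x = (w : G) * ((w₀ : G)⁻¹ * x * w₀) * (w₀ : G)⁻¹ := by
            group
          rw [h8, ← h6]
          group
        intro w hw w' hw' hww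
        have hw1 := key w (Finset.mem_coe.mp hw)
        have hw2 := key w' (Finset.mem_coe.mp hw')
        simp only [dif_pos hw1, dif_pos hw2, Subtype.mk.injEq] at hww
        exact Subtype.ext (mul_right_cancel hww))
    have h9 : (Finset.univ.image (fun w : D =>
        (⟨x⁻¹ * (w : G)⁻¹ * x * w, hmem w w.2⟩ : N))).card ≤ Nat.card N := by
      rw [Nat.card_eq_fintype_card]
      exact Finset.card_le_univ _
    calc Nat.card D = (Finset.univ : Finset D).card := Nat.card_eq_fintype_card
      _ ≤ _ := h3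
      _ ≤ _ := Nat.mul_le_mul_left _ h9
  rw [h1] at h2
  exact Nat.le_of_mul_le_mul_right h2 Nat.card_pos

theorem sl_cent {F : Type} [Field F] [Finite F] (x : Matrix.SpecialLinearGroup (Fin 2) F)
    (hx : x ∉ Subgroup.center (Matrix.SpecialLinearGroup (Fin 2) F)) :
    Nat.card (Subgroup.centralizer ({x} : Set (Matrix.SpecialLinearGroup (Fin 2) F))) ≤
      2 * Nat.card F := by
  classical
  have := Fintype.ofFinite F
  have hcomm : ∀ w : Subgroup.centralizer ({x} : Set (Matrix.SpecialLinearGroup (Fin 2) F)),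
      (w.1.1 0 1) * (x.1 1 0) = (x.1 0 1) * (w.1.1 1 0) ∧
      (x.1 0 1) * (w.1.1 0 0 - w.1.1 1 1) = (w.1.1 0 1) * (x.1 0 0 - x.1 1 1) ∧
      (w.1.1 1 0) * (x.1 0 0 - x.1 1 1) = (x.1 1 0) * (w.1.1 0 0 - w.1.1 1 1) ∧
      (w.1.1 0 0) * (w.1.1 1 1) - (w.1.1 0 1) * (w.1.1 1 0) = 1 := by
    intro w
    have h1 := (Subgroup.mem_centralizer_singleton_iff).mp w.2
    have h2 : w.1.1 * x.1 = x.1 * w.1.1 := congrArg Subtype.val h1
    have h00 := congrFun (congrFun h2 0) 0
    have h01 := congrFun (congrFun h2 0) 1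
    have h10 := congrFun (congrFun h2 1) 0
    simp only [Matrix.mul_apply, Fin.sum_univ_two] at h00 h01 h10
    have hd : w.1.1.det = 1 := w.1.2
    rw [Matrix.det_fin_two] at hd
    exact ⟨by linear_combination h00, by linear_combination h01, by linear_combination h10,
      hd⟩
  have hext : ∀ u v : Subgroup.centralizer ({x} : Set (Matrix.SpecialLinearGroup (Fin 2) F)),
      u.1.1 0 0 = v.1.1 0 0 → u.1.1 0 1 = v.1.1 0 1 → u.1.1 1 0 = v.1.1 1 0 →
      u.1.1 1 1 = v.1.1 1 1 → u = v := by
    intro u v h00 h01 h10 h11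
    apply Subtype.ext
    apply Subtype.ext
    ext i j
    fin_cases i <;> fin_cases j <;> assumption
  by_cases hb : x.1 0 1 = 0
  · by_cases hc : x.1 1 0 = 0
    · have had : x.1 0 0 - x.1 1 1 ≠ 0 := by
        intro h
        apply hx
        rw [Matrix.SpecialLinearGroup.mem_center_iff]
        refine ⟨x.1 0 0, ?_, ?_⟩
        · have hd : x.1.det = 1 := x.2
          rw [Matrix.det_fin_two] at hd
          rw [Fintype.card_fin]
          linear_combination hd + (x.1 0 1) * hc + (x.1 0 0) * h
        · ext i j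
          fin_cases i <;> fin_cases j
          · simp
          · simpa using hb.symm
          · simpa using hc.symm
          · have h' : x.1 0 0 = x.1 1 1 := sub_eq_zero.mp h
            simpa using h'
      refine cnt (fun w => w.1.1 0 0) (fun w => w.1.1 1 1) (fun r => -r⁻¹) (fun _ => 0) ?_ ?_
      · intro u v h1 h2
        have h1' : u.1.1 0 0 = v.1.1 0 0 := h1
        have h2' : u.1.1 1 1 = v.1.1 1 1 := h2
        have zr : ∀ w : Subgroup.centralizer
            ({x} : Set (Matrix.SpecialLinearGroup (Fin 2) F)), w.1.1 0 1 = 0 ∧ w.1.1 1 0 = 0 := by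
          intro w
          obtain ⟨-, e2, e3, -⟩ := hcomm w
          rw [hb, zero_mul] at e2
          rw [hc, zero_mul] at e3
          exact ⟨(mul_eq_zero.mp e2.symm).resolve_right had,
            (mul_eq_zero.mp e3).resolve_right had⟩
        exact hext u v h1' ((zr u).1.trans (zr v).1.symm) ((zr u).2.trans (zr v).2.symm) h2'
      · intro w
        obtain ⟨-, e2, e3, e4⟩ := hcomm w
        rw [hb, zero_mul] at e2
        have e5 : w.1.1 0 1 = 0 := (mul_eq_zero.mp e2.symm).resolve_right had
        rw [e5, zero_mul, sub_zero] at e4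
        have e6 : (w.1.1 0 0)⁻¹ = w.1.1 1 1 := inv_eq_of_mul_eq_one_right e4
        show w.1.1 1 1 * w.1.1 1 1 + -(w.1.1 0 0)⁻¹ * w.1.1 1 1 + 0 = 0
        rw [e6]
        ring
    · refine cnt (fun w => w.1.1 1 0) (fun w => w.1.1 1 1)
        (fun s => s / x.1 1 0 * (x.1 0 0 - x.1 1 1))
        (fun s => -(s / x.1 1 0) ^ 2 * (x.1 0 1) * (x.1 1 0) - 1) ?_ ?_
      · intro u v h1 h2
        have h1' : u.1.1 1 0 = v.1.1 1 0 := h1
        have h2' : u.1.1 1 1 = v.1.1 1 1 := h2
        obtain ⟨a1, -, a3, -⟩ := hcomm u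
        obtain ⟨b1, -, b3, -⟩ := hcomm v
        refine hext u v ?_ ?_ h1' h2'
        · have h3 : (x.1 1 0) * (u.1.1 0 0 - v.1.1 0 0) = 0 := by
            linear_combination b3 - a3 + (x.1 0 0 - x.1 1 1) * h1' + (x.1 1 0) * h2'
          exact sub_eq_zero.mp ((mul_eq_zero.mp h3).resolve_left hc)
        · have h3 : (x.1 1 0) * (u.1.1 0 1 - v.1.1 0 1) = 0 := by
            linear_combination a1 - b1 + (x.1 0 1) * h1'
          exact sub_eq_zero.mp ((mul_eq_zero.mp h3).resolve_left hc)
      · intro w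
        obtain ⟨a1, -, a3, a4⟩ := hcomm w
        have e1 : w.1.1 0 1 = w.1.1 1 0 / x.1 1 0 * (x.1 0 1) := by
          field_simp
          linear_combination a1
        have e2 : w.1.1 0 0 = w.1.1 1 1 + w.1.1 1 0 / x.1 1 0 * (x.1 0 0 - x.1 1 1) := by
          field_simp
          linear_combination -a3
        have e3 : w.1.1 1 0 = w.1.1 1 0 / x.1 1 0 * (x.1 1 0) := by
          field_simp
        show w.1.1 1 1 * w.1.1 1 1 + w.1.1 1 0 / x.1 1 0 * (x.1 0 0 - x.1 1 1) * w.1.1 1 1 +
          (-(w.1.1 1 0 / x.1 1 0) ^ 2 * (x.1 0 1) * (x.1 1 0) - 1) = 0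
        set β := w.1.1 1 0 / x.1 1 0 with hβ
        rw [e1, e2, e3] at a4
        linear_combination a4
  · refine cnt (fun w => w.1.1 0 1) (fun w => w.1.1 1 1)
      (fun s => s / x.1 0 1 * (x.1 0 0 - x.1 1 1))
      (fun s => -(s / x.1 0 1) ^ 2 * (x.1 0 1) * (x.1 1 0) - 1) ?_ ?_
    · intro u v h1 h2
      have h1' : u.1.1 0 1 = v.1.1 0 1 := h1
      have h2' : u.1.1 1 1 = v.1.1 1 1 := h2
      obtain ⟨a1, a2, -, -⟩ := hcomm u
      obtain ⟨b1, b2, -, -⟩ := hcomm v
      refine hext u v ?_ h1' ?_ h2'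
      · have h3 : (x.1 0 1) * (u.1.1 0 0 - v.1.1 0 0) = 0 := by
          linear_combination a2 - b2 + (x.1 0 0 - x.1 1 1) * h1' + (x.1 0 1) * h2'
        exact sub_eq_zero.mp ((mul_eq_zero.mp h3).resolve_left hb)
      · have h3 : (x.1 0 1) * (u.1.1 1 0 - v.1.1 1 0) = 0 := by
          linear_combination b1 - a1 + (x.1 1 0) * h1'
        exact sub_eq_zero.mp ((mul_eq_zero.mp h3).resolve_left hb)
    · intro w
      obtain ⟨a1, a2, -, a4⟩ := hcomm w
      have e1 : w.1.1 1 0 = w.1.1 0 1 / x.1 0 1 * (x.1 1 0) := by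
        field_simp
        linear_combination -a1
      have e2 : w.1.1 0 0 = w.1.1 1 1 + w.1.1 0 1 / x.1 0 1 * (x.1 0 0 - x.1 1 1) := by
        field_simp
        linear_combination a2
      have e3 : w.1.1 0 1 = w.1.1 0 1 / x.1 0 1 * (x.1 0 1) := by
        field_simp
      show w.1.1 1 1 * w.1.1 1 1 + w.1.1 0 1 / x.1 0 1 * (x.1 0 0 - x.1 1 1) * w.1.1 1 1 +
        (-(w.1.1 0 1 / x.1 0 1) ^ 2 * (x.1 0 1) * (x.1 1 0) - 1) = 0
      set β := w.1.1 0 1 / x.1 0 1 with hβ
      rw [e1, e2, e3] at a4
      linear_combination a4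

end IPKY

/-- item PKY -/
theorem pr_PKY : StPKY := by
  classical
  intro F _ _ Y
  have := Fintype.ofFinite F
  have : Finite (Matrix.ProjectiveSpecialLinearGroup (Fin 2) F) :=
    Quotient.finite _
  have := Fintype.ofFinite (Matrix.ProjectiveSpecialLinearGroup (Fin 2) F)
  have := Fintype.ofFinite Y
  have h1 := ACD8.comm_count Y
  have h2 : ∀ x : Y, (Finset.univ.filter (fun y : Y => x * y = y * x)).card ≤
      (if x = 1 then Nat.card Y else 0) + 2 * Nat.card F := by
    intro x
    by_cases hx : x = 1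
    · rw [if_pos hx]
      refine le_trans (Finset.card_filter_le _ _) ?_
      rw [Finset.card_univ, Nat.card_eq_fintype_card]
      exact Nat.le_add_right _ _
    · rw [if_neg hx, zero_add]
      obtain ⟨g, hg⟩ := QuotientGroup.mk_surjective (x : Matrix.ProjectiveSpecialLinearGroup (Fin 2) F)
      have hgc : g ∉ Subgroup.center (Matrix.SpecialLinearGroup (Fin 2) F) := by
        intro h
        apply hx
        apply Subtype.ext
        rw [← hg]
        exact (QuotientGroup.eq_one_iff g).mpr h
      have h3 := (IPKY.quot_cent (Subgroup.center (Matrix.SpecialLinearGroup (Fin 2) F)) g).trans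
        (IPKY.sl_cent g hgc)
      refine le_trans ?_ h3
      rw [Nat.card_eq_fintype_card]
      refine Finset.card_le_card_of_injOn (t := (Finset.univ : Finset (Subgroup.centralizer
        ({(QuotientGroup.mk g : Matrix.SpecialLinearGroup (Fin 2) F ⧸
          Subgroup.center (Matrix.SpecialLinearGroup (Fin 2) F))} : Set _))))
        (fun y : Y => if h : (y : Matrix.ProjectiveSpecialLinearGroup (Fin 2) F) ∈
          Subgroup.centralizer ({(QuotientGroup.mk g : Matrix.SpecialLinearGroup (Fin 2) F ⧸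
            Subgroup.center (Matrix.SpecialLinearGroup (Fin 2) F))} : Set _) then ⟨y, h⟩ else 1)
        (fun _ _ => Finset.mem_coe.mpr (Finset.mem_univ _)) ?_
      have key : ∀ y : Y, y ∈ Finset.univ.filter (fun y : Y => x * y = y * x) →
          (y : Matrix.ProjectiveSpecialLinearGroup (Fin 2) F) ∈
            Subgroup.centralizer ({(QuotientGroup.mk g : Matrix.SpecialLinearGroup (Fin 2) F ⧸
              Subgroup.center (Matrix.SpecialLinearGroup (Fin 2) F))} : Set _) := by
        intro y hy
        have h4 := (Finset.mem_filter.mp hy).2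
        rw [Subgroup.mem_centralizer_singleton_iff]
        have h5 : (x : Matrix.ProjectiveSpecialLinearGroup (Fin 2) F) * y = y * x :=
          congrArg Subtype.val h4
        rw [hg]
        exact h5.symm
      intro y hy y' hy' hyy
      have k1 := key y (Finset.mem_coe.mp hy)
      have k2 := key y' (Finset.mem_coe.mp hy')
      simp only [dif_pos k1, dif_pos k2, Subtype.mk.injEq] at hyy
      exact Subtype.ext hyy
  have h6 : ACD8.kc Y * Nat.card Y ≤ (2 * Nat.card F + 1) * Nat.card Y := by
    rw [← h1]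
    refine (Finset.sum_le_sum fun x _ => h2 x).trans ?_
    rw [Finset.sum_add_distrib, Finset.sum_ite_eq' Finset.univ (1 : Y), if_pos (Finset.mem_univ _),
      Finset.sum_const, Finset.card_univ, smul_eq_mul, Nat.card_eq_fintype_card (α := Y)]
    exact le_of_eq (by ring)
  exact Nat.le_of_mul_le_mul_right h6 Nat.card_pos

end Pool.Agent.RadIndex.RI
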