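import Pool.Agent.Work.MP_76dc41_al.RI.Stmts

/-!
# Item PRD of block RI: products of rich groups
-/

set_option autoImplicit false
set_option linter.unusedSectionVars false

open Module Representation Pool.Agent.DC7914

namespace Pool.Agent.RadIndex.RI

open Pool.Agent Pool.Agent.RadIndex

namespace IPRD

/-- the elements of `A` fix the irreducible characters of `A` -/
theorem cj_self {G : Type} [Group G] {A : Subgroup G} [A.Normal] {η : A → ℂ} (h : IsIrrChar η)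
    {a : G} (ha : a ∈ A) : cj a η = η := by
  funext n
  have h1 : MulAut.conjNormal a n = (⟨a, ha⟩ : A) * n * (⟨a, ha⟩ : A)⁻¹ := by
    ext
    simp
  show η (MulAut.conjNormal a n) = η n
  rw [h1]
  exact h.conj n ⟨a, ha⟩

theorem orb_card {G : Type} [Group G] [Fintype G] {A : Subgroup G} [A.Normal] {η : A → ℂ}
    (h : ∀ g : G, cj g η = η) : (orb A η).card = 1 := by
  rw [Finset.card_eq_one]
  refine ⟨η, ?_⟩
  ext m
  rw [Finset.mem_singleton, mem_orb]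
  constructor
  · rintro ⟨g, hg⟩
    rw [← hg, h g]
  · intro hm
    exact ⟨1, by rw [hm, h 1]⟩

end IPRD

open IPRD in
theorem pr_PRD (hSUM : StSUM) (hFIX : StFIX) : StPRD := by
  classical
  intro H₁ H₂ _ _ _ _ τ₁ τ₂ ζ₁ ζ₂ hτ₁ hτ₂ hζ₁ hζ₂ hperf hR₁ hR₂ G _ _ N _ _ l hiso hl hinv
  obtain ⟨e⟩ := hiso
  let π : G →* H₁ × H₂ := e.toMonoidHom.comp (QuotientGroup.mk' N)
  have hπs : Function.Surjective π := e.surjective.comp (QuotientGroup.mk'_surjective N)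
  have hπN : ∀ g : G, π g = 1 ↔ g ∈ N := by
    intro g
    show e (QuotientGroup.mk' N g) = 1 ↔ _
    rw [map_eq_one_iff e e.injective]
    exact QuotientGroup.eq_one_iff g
  let p₁ : G →* H₁ := (MonoidHom.fst H₁ H₂).comp π
  let p₂ : G →* H₂ := (MonoidHom.snd H₁ H₂).comp π
  have hp₂ : Function.Surjective p₂ := by
    intro x
    obtain ⟨g, hg⟩ := hπs (1, x)
    exact ⟨g, by show (π g).2 = x; rw [hg]⟩
  let A : Subgroup G := p₂.ker
  let B : Subgroup G := p₁.ker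
  have hA : ∀ g, g ∈ A ↔ (π g).2 = 1 := fun g => Iff.rfl
  have hB : ∀ g, g ∈ B ↔ (π g).1 = 1 := fun g => Iff.rfl
  letI : Fintype A := Fintype.ofFinite A
  letI : Fintype (N.subgroupOf A) := Fintype.ofFinite _
  have hNA : N ≤ A := fun g hg => by rw [hA, (hπN g).2 hg]; rfl
  let p : A →* H₁ := p₁.comp A.subtype
  have hp : Function.Surjective p := by
    intro x
    obtain ⟨g, hg⟩ := hπs (x, 1)
    exact ⟨⟨g, by rw [hA, hg]⟩, by show (π g).1 = x; rw [hg]⟩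
  have hpk : p.ker = N.subgroupOf A := by
    ext a
    rw [MonoidHom.mem_ker, Subgroup.mem_subgroupOf, ← hπN]
    show (π a).1 = 1 ↔ π a = 1
    constructor
    · intro h
      exact Prod.ext h ((hA a).1 a.2)
    · intro h
      rw [h]; rfl
  have hinf : A ⊓ B ≤ N := by
    rintro g ⟨h1, h2⟩
    exact (hπN g).1 (Prod.ext ((hB g).1 h2) ((hA g).1 h1))
  have hsup : ∀ g : G, ∃ a ∈ A, ∃ b ∈ B, g = a * b := by
    intro g
    obtain ⟨a, ha⟩ := hπs ((π g).1, 1)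
    refine ⟨a, by rw [hA, ha], a⁻¹ * g, ?_, by group⟩
    rw [hB, map_mul, map_inv, ha]
    simp
  have hpf : ∀ f : A →* ℂˣ, (∀ n : A, (n : G) ∈ N → f n = 1) → f = 1 := by
    intro f hf
    have hk : p.ker ≤ f.ker := by
      intro a ha
      rw [hpk, Subgroup.mem_subgroupOf] at ha
      exact hf a ha
    let f' := MonoidHom.liftOfSurjective p hp ⟨f, hk⟩
    have h1 : f' = 1 := hperf f'
    have h2 : ∀ a, f' (p a) = f a := fun a =>
      MonoidHom.liftOfRightInverse_comp_apply p _ _ ⟨f, hk⟩ a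
    ext a
    rw [← h2 a, h1]; rfl
  have iso₂ : Nonempty (G ⧸ A ≃* H₂) :=
    ⟨QuotientGroup.quotientKerEquivOfSurjective p₂ hp₂⟩
  have iso₁ : Nonempty (A ⧸ N.subgroupOf A ≃* H₁) :=
    ⟨(QuotientGroup.quotientMulEquivOfEq hpk.symm).trans
      (QuotientGroup.quotientKerEquivOfSurjective p hp)⟩
  have hl' : IsIrrChar (down hNA l) := STEP_irr_down hNA hl
  set E : Finset (A → ℂ) := ovr (N.subgroupOf A) (down hNA l) with hE
  have hEirr : ∀ η ∈ E, IsIrrChar η := by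
    intro η hη
    rw [hE, STEP_mem_ovr] at hη
    exact hη.1
  have hEinv : ∀ η ∈ E, ∀ g : G, cj g η = η := by
    intro η hη g
    obtain ⟨a, ha, b, hb, rfl⟩ := hsup g
    rw [← cj_cj, cj_self (hEirr η hη) ha]
    exact hFIX G N A B hNA hinf hpf l hl hinv η hη b hb
  have hcard : ∀ η ∈ E, ((orb A η).card : ℝ) = 1 := by
    intro η hη
    rw [orb_card (hEinv η hη), Nat.cast_one]
  have hsum : ∀ f : (G → ℂ) → ℝ, ∑ χ ∈ ovr N l, f χ = ∑ η ∈ E, ∑ χ ∈ ovr A η, f χ := by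
    intro f
    rw [hSUM G N A hNA l hl hinv f]
    refine Finset.sum_congr rfl fun η hη => ?_
    rw [hcard η hη, div_one]
  have hl1 : ‖down hNA l 1‖ = ‖l 1‖ := by rw [STEP_down_one]
  have hinvA : ∀ a : A, cj a (down hNA l) = down hNA l := by
    intro a
    funext x
    have h1 := congrFun (hinv (a : G)) (Subgroup.subgroupOfEquivOfLe hNA x)
    have h2 : cj a (down hNA l) x = cj (a : G) l (Subgroup.subgroupOfEquivOfLe hNA x) := rfl
    rw [h2, h1]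
    rfl
  have k₁ := hR₁ A (N.subgroupOf A) (down hNA l) iso₁ hl' hinvA
  rw [hl1] at k₁
  obtain ⟨k₁a, k₁b⟩ := k₁
  have k₂ : ∀ η ∈ E, τ₂ * ‖η 1‖ ≤ ∑ χ ∈ ovr A η, ‖χ 1‖ ∧
      ∑ χ ∈ ovr A η, ‖η 1‖ / ‖χ 1‖ ≤ ζ₂ := fun η hη =>
    hR₂ G A η iso₂ (hEirr η hη) (hEinv η hη)
  have hpos : ∀ η ∈ E, 0 < ‖η 1‖ := fun η hη => norm_pos_iff.2 (hEirr η hη).one_ne_zero
  constructor
  · rw [hsum]
    calc τ₁ * τ₂ * ‖l 1‖ = τ₂ * (τ₁ * ‖l 1‖) := by ring
      _ ≤ τ₂ * ∑ η ∈ E, ‖η 1‖ := mul_le_mul_of_nonneg_left k₁a hτ₂.le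
      _ = ∑ η ∈ E, τ₂ * ‖η 1‖ := Finset.mul_sum _ _ _
      _ ≤ ∑ η ∈ E, ∑ χ ∈ ovr A η, ‖χ 1‖ := Finset.sum_le_sum fun η hη => (k₂ η hη).1
  · rw [hsum]
    calc ∑ η ∈ E, ∑ χ ∈ ovr A η, ‖l 1‖ / ‖χ 1‖
        = ∑ η ∈ E, (‖l 1‖ / ‖η 1‖) * ∑ χ ∈ ovr A η, ‖η 1‖ / ‖χ 1‖ := by
          refine Finset.sum_congr rfl fun η hη => ?_
          rw [Finset.mul_sum]
          refine Finset.sum_congr rfl fun χ _ => ?_
          have h1 := (hpos η hη).ne'
          rw [div_mul_div_comm, mul_comm ‖l 1‖ ‖η 1‖, mul_div_mul_left _ _ h1]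
      _ ≤ ∑ η ∈ E, (‖l 1‖ / ‖η 1‖) * ζ₂ := by
          refine Finset.sum_le_sum fun η hη => ?_
          exact mul_le_mul_of_nonneg_left (k₂ η hη).2 (by positivity)
      _ = (∑ η ∈ E, ‖l 1‖ / ‖η 1‖) * ζ₂ := (Finset.sum_mul _ _ _).symm
      _ ≤ ζ₁ * ζ₂ := mul_le_mul_of_nonneg_right k₁b hζ₂.le

end Pool.Agent.RadIndex.RI
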