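import Pool.Agent.Work.MP_76dc41_al.RI.Stmts

/-!
# Item PRF (helper94): linear characters of a nonsolvable simple group
-/

set_option autoImplicit false
set_option linter.unusedSectionVars false

open Module Representation Pool.Agent.DC7914

namespace Pool.Agent.RadIndex.RI

open Pool.Agent Pool.Agent.RadIndex

theorem pr_PRF : StPRF := by
  intro S _ hS hns f
  rcases hS.eq_bot_or_eq_top_of_normal f.ker inferInstance with h | h
  · exfalso
    apply hns
    have hinj : Function.Injective f := (MonoidHom.ker_eq_bot_iff f).1 h
    have hcomm : ∀ a b : S, a * b = b * a := fun a b => hinj (by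
      rw [map_mul, map_mul, mul_comm])
    exact Group.isSolvable_of_comm hcomm
  · ext x
    have hx : x ∈ f.ker := h ▸ Subgroup.mem_top x
    rw [MonoidHom.mem_ker] at hx
    rw [hx, MonoidHom.one_apply]

end Pool.Agent.RadIndex.RI
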