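import Pool.Agent.Work.MP_76dc41_al.RI.Stmts

/-!
# The groups `PSL_2(q)` are rich (PRI)
-/

set_option autoImplicit false
set_option linter.unusedSectionVars false

open Module Representation Pool.Agent.DC7914

namespace Pool.Agent.RadIndex.RI

open Pool.Agent Pool.Agent.RadIndex

namespace IPRI

/-- the number of classes of elements with a cyclic centraliser -/
noncomputable def ncl (S : Type) [Group S] : ℕ :=
  Nat.card {C : ConjClasses S // ∀ x : S, ConjClasses.mk x = C →
    IsCyclic (Subgroup.centralizer ({x} : Set S))}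

theorem cyc_transport {S T : Type} [Group S] [Group T] (e : S ≃* T) (y : T)
    (h : IsCyclic (Subgroup.centralizer ({e.symm y} : Set S))) :
    IsCyclic (Subgroup.centralizer ({y} : Set T)) := by
  let f : Subgroup.centralizer ({e.symm y} : Set S) →* Subgroup.centralizer ({y} : Set T) :=
    { toFun := fun x => ⟨e x.1, by
        rw [Subgroup.mem_centralizer_singleton_iff]
        have h1 := (Subgroup.mem_centralizer_singleton_iff).mp x.2
        have h2 := congrArg e h1
        rw [map_mul, map_mul, e.apply_symm_apply] at h2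
        exact h2⟩
      map_one' := by ext; simp
      map_mul' := fun a b => by ext; simp }
  have hf : Function.Surjective f := by
    rintro ⟨y', hy'⟩
    refine ⟨⟨e.symm y', ?_⟩, ?_⟩
    · rw [Subgroup.mem_centralizer_singleton_iff] at hy' ⊢
      rw [← map_mul, ← map_mul, hy']
    · apply Subtype.ext
      exact e.apply_symm_apply y'
  exact isCyclic_of_surjective f hf

theorem ncl_le {S T : Type} [Group S] [Group T] [Finite T] (e : S ≃* T) : ncl S ≤ ncl T := by
  have : Finite (ConjClasses T) := inferInstance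
  let f : {C : ConjClasses S // ∀ x : S, ConjClasses.mk x = C →
      IsCyclic (Subgroup.centralizer ({x} : Set S))} →
      {C : ConjClasses T // ∀ x : T, ConjClasses.mk x = C →
      IsCyclic (Subgroup.centralizer ({x} : Set T))} := fun C =>
    ⟨ConjClasses.map (e : S →* T) C.1, by
      obtain ⟨C, hC⟩ := C
      intro y hy
      apply cyc_transport e y
      apply hC
      obtain ⟨x₀, rfl⟩ := ConjClasses.exists_rep C
      have h1 : ConjClasses.mk y = ConjClasses.mk (e x₀) := hy
      rw [ConjClasses.mk_eq_mk_iff_isConj] at h1 ⊢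
      have h2 := MonoidHom.map_isConj (e.symm : T →* S) h1
      have h3 : (e.symm : T →* S) (e x₀) = x₀ := e.symm_apply_apply x₀
      rw [h3] at h2
      exact h2⟩
  apply Nat.card_le_card_of_injective f
  rintro ⟨C, hC⟩ ⟨D, hD⟩ h
  have h1 : ConjClasses.map (e : S →* T) C = ConjClasses.map (e : S →* T) D :=
    congrArg Subtype.val h
  apply Subtype.ext
  show C = D
  obtain ⟨x, rfl⟩ := ConjClasses.exists_rep C
  obtain ⟨y, rfl⟩ := ConjClasses.exists_rep D
  have h2 : ConjClasses.mk (e x) = ConjClasses.mk (e y) := h1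
  rw [ConjClasses.mk_eq_mk_iff_isConj] at h2 ⊢
  have h3 := MonoidHom.map_isConj (e.symm : T →* S) h2
  have h4 : (e.symm : T →* S) (e x) = x := e.symm_apply_apply x
  have h5 : (e.symm : T →* S) (e y) = y := e.symm_apply_apply y
  rw [h4, h5] at h3
  exact h3

theorem num {ι : Type} (s : Finset ι) (e : ι → ℕ) (m : ℕ) (hm : 0 < m)
    (h1 : ∀ i ∈ s, e i = 1 ∨ m ≤ e i)
    (h2 : ∀ i ∈ s, ∀ j ∈ s, e i = 1 → e j = 1 → i = j) (hk : s.card ≤ 2 * m) :
    ((s.card : ℝ) - 1) * m ≤ ∑ i ∈ s, (e i : ℝ) ∧ ∑ i ∈ s, (1 : ℝ) / e i ≤ 3 := by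
  classical
  have hm' : (0 : ℝ) < m := by exact_mod_cast hm
  have hc1 : (s.filter (fun i => e i = 1)).card ≤ 1 := by
    rw [Finset.card_le_one]
    intro a ha b hb
    rw [Finset.mem_filter] at ha hb
    exact h2 a ha.1 b hb.1 ha.2 hb.2
  have hc2 : (s.filter (fun i => e i = 1)).card + (s.filter (fun i => ¬ e i = 1)).card = s.card :=
    Finset.card_filter_add_card_filter_not _
  have hc1' : ((s.filter (fun i => e i = 1)).card : ℝ) ≤ 1 := by exact_mod_cast hc1
  have hc2' : ((s.filter (fun i => e i = 1)).card : ℝ) + ((s.filter (fun i => ¬ e i = 1)).card : ℝ)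
      = s.card := by exact_mod_cast hc2
  have hbig : ∀ i ∈ s.filter (fun i => ¬ e i = 1), (m : ℝ) ≤ e i := by
    intro i hi
    rw [Finset.mem_filter] at hi
    rcases h1 i hi.1 with h3 | h3
    · exact absurd h3 hi.2
    · exact_mod_cast h3
  constructor
  · rw [← Finset.sum_filter_add_sum_filter_not s (fun i => e i = 1)]
    have e1 : 0 ≤ ∑ i ∈ s.filter (fun i => e i = 1), (e i : ℝ) :=
      Finset.sum_nonneg fun i _ => Nat.cast_nonneg _
    have e2 : ((s.filter (fun i => ¬ e i = 1)).card : ℝ) * m ≤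
        ∑ i ∈ s.filter (fun i => ¬ e i = 1), (e i : ℝ) := by
      have := Finset.card_nsmul_le_sum (s.filter (fun i => ¬ e i = 1)) (fun i => (e i : ℝ)) m hbig
      rwa [nsmul_eq_mul] at this
    have e3 : ((s.card : ℝ) - 1) * m ≤ ((s.filter (fun i => ¬ e i = 1)).card : ℝ) * m :=
      mul_le_mul_of_nonneg_right (by linarith) hm'.le
    linarith
  · rw [← Finset.sum_filter_add_sum_filter_not s (fun i => e i = 1)]
    have e1 : ∑ i ∈ s.filter (fun i => e i = 1), (1 : ℝ) / e i ≤ 1 := by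
      have : ∑ i ∈ s.filter (fun i => e i = 1), (1 : ℝ) / e i =
          ∑ i ∈ s.filter (fun i => e i = 1), (1 : ℝ) := by
        refine Finset.sum_congr rfl fun i hi => ?_
        rw [(Finset.mem_filter.mp hi).2]
        norm_num
      rw [this, Finset.sum_const, nsmul_eq_mul, mul_one]
      exact hc1'
    have e2 : ∑ i ∈ s.filter (fun i => ¬ e i = 1), (1 : ℝ) / e i ≤
        ((s.filter (fun i => ¬ e i = 1)).card : ℝ) * (1 / m) := by
      have := Finset.sum_le_card_nsmul (s.filter (fun i => ¬ e i = 1)) (fun i => (1 : ℝ) / e i)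
        (1 / m) (fun i hi => one_div_le_one_div_of_le hm' (hbig i hi))
      rwa [nsmul_eq_mul] at this
    have e3 : ((s.filter (fun i => ¬ e i = 1)).card : ℝ) ≤ 2 * m := by
      have : (s.filter (fun i => ¬ e i = 1)).card ≤ 2 * m := (Finset.card_filter_le _ _).trans hk
      exact_mod_cast this
    have e4 : ((s.filter (fun i => ¬ e i = 1)).card : ℝ) * (1 / m) ≤ 2 := by
      rw [mul_one_div, div_le_iff₀ hm']
      exact e3
    linarith

theorem numq (q k : ℕ) (hq : 17 ≤ q) (h1 : Odd q → 2 * k ≤ q + 5) (h2 : Even q → k ≤ q + 1) :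
    k ≤ 2 * ((q - 1) / Nat.gcd 2 (q - 1)) ∧
      ((q : ℝ) - 1) / 2 ≤ (((q - 1) / Nat.gcd 2 (q - 1) : ℕ) : ℝ) ∧
      0 < (q - 1) / Nat.gcd 2 (q - 1) := by
  rcases Nat.even_or_odd q with he | ho
  · have h3 := h2 he
    rw [PSLItem.gcd_even (by omega) he, Nat.div_one]
    refine ⟨by omega, ?_, by omega⟩
    rw [Nat.cast_sub (by omega)]
    have : (17 : ℝ) ≤ q := by exact_mod_cast hq
    push_cast
    linarith
  · have h3 := h1 ho
    rw [PSLItem.gcd_odd ho]
    obtain ⟨m, rfl⟩ := ho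
    have e1 : (2 * m + 1 - 1) / 2 = m := by omega
    rw [e1]
    refine ⟨by omega, ?_, by omega⟩
    push_cast
    linarith

end IPRI

theorem pr_PRI (hNCL : StNCL) (hPCL : StPCL) : StPRI := by
  intro F _ _ hq G _ _ N _ _ l hiso hl hinv
  have burn := prf_BURN
  have iso := prf_ISO
  have inter := prf_INTER
  have transfer := prf_TRANSFER burn
  have ext := prf_EXT burn (prf_FORM inter) transfer iso
  have fix := prf_FIX ext prf_GALL
  have deg := prf_DEG burn ext fix transfer iso
  have one := prf_ONE prf_GALL iso prf_BLOCK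
  have unip := prf_UNIP prf_TRICK prf_PRIME
  obtain ⟨hsimple, hperf⟩ := prf_PERF F (by omega)
  obtain ⟨D, hD⟩ := unip F (by omega)
  have hform : FormTriv F D.c := hD (Or.inr (Or.inl hq))
  have hl0 : 0 < ‖l 1‖ := lt_of_lt_of_le one_pos (one_le_deg hl)
  obtain ⟨e, he1, he2, _, he4⟩ := one _ hperf G N l hiso hl hinv
  obtain ⟨n1, n2, n3⟩ := IPRI.numq (Nat.card F) (Nat.card (ConjClasses
    (Matrix.ProjectiveSpecialLinearGroup (Fin 2) F))) hq (prf_KPSL F).1 (prf_KPSL F).2
  have hdeg : ∀ χ ∈ ovr N l, e χ = 1 ∨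
      (Nat.card F - 1) / Nat.gcd 2 (Nat.card F - 1) ≤ e χ := by
    intro χ hχ
    rcases deg _ F _ hsimple D hform G N l hiso hl hinv χ hχ with h1 | h1
    · left
      rw [(he1 χ hχ).2] at h1
      have : (e χ : ℝ) = 1 := by
        apply mul_right_cancel₀ hl0.ne'
        rw [h1, one_mul]
      exact_mod_cast this
    · right
      rw [(he1 χ hχ).2] at h1
      have := le_of_mul_le_mul_right h1 hl0
      exact_mod_cast this
  obtain ⟨s1, s2⟩ := IPRI.num (ovr N l) e _ n3 hdeg he2
    (he4.trans n1)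
  -- the number of characters
  have hk : Nat.card F ≤ 4 * (ovr N l).card + 5 := by
    obtain ⟨i⟩ := hiso
    have h1 : IPRI.ncl (Matrix.ProjectiveSpecialLinearGroup (Fin 2) F) ≤ IPRI.ncl (G ⧸ N) :=
      IPRI.ncl_le i.symm
    have h2 : IPRI.ncl (G ⧸ N) ≤ (ovr N l).card := hNCL G N l hl hinv
    have h3 : Nat.card F ≤ 4 * IPRI.ncl (Matrix.ProjectiveSpecialLinearGroup (Fin 2) F) + 5 :=
      hPCL F
    omega
  have hk' : (Nat.card F : ℝ) ≤ 4 * ((ovr N l).card : ℝ) + 5 := by exact_mod_cast hk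
  have hq' : (17 : ℝ) ≤ Nat.card F := by exact_mod_cast hq
  constructor
  · have e1 : ∑ χ ∈ ovr N l, ‖χ 1‖ = (∑ χ ∈ ovr N l, (e χ : ℝ)) * ‖l 1‖ := by
      rw [Finset.sum_mul]
      exact Finset.sum_congr rfl fun χ hχ => (he1 χ hχ).2
    rw [e1]
    refine mul_le_mul_of_nonneg_right (le_trans ?_ s1) hl0.le
    have e2 : ((Nat.card F : ℝ) - 9) / 4 ≤ ((ovr N l).card : ℝ) - 1 := by linarith
    calc ((Nat.card F : ℝ) - 9) * ((Nat.card F : ℝ) - 1) / 8
        = (((Nat.card F : ℝ) - 9) / 4) * (((Nat.card F : ℝ) - 1) / 2) := by ring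
      _ ≤ (((ovr N l).card : ℝ) - 1) *
          (((Nat.card F - 1) / Nat.gcd 2 (Nat.card F - 1) : ℕ) : ℝ) :=
        mul_le_mul e2 n2 (by linarith) (by linarith)
  · have e1 : ∑ χ ∈ ovr N l, ‖l 1‖ / ‖χ 1‖ = ∑ χ ∈ ovr N l, (1 : ℝ) / e χ := by
      refine Finset.sum_congr rfl fun χ hχ => ?_
      rw [(he1 χ hχ).2]
      have : (0 : ℝ) < e χ := by exact_mod_cast (he1 χ hχ).1
      field_simp
    rw [e1]
    exact s2

end Pool.Agent.RadIndex.RI
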