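import Pool.Agent.Work.MP_76dc41_al.RI.Stmts

/-!
# Item PTY (helper53): the numbers for `PSL_2(q)`
-/

set_option autoImplicit false

open Pool.Agent.DC7914

namespace Pool.Agent.RadIndex.RI

open Pool.Agent Pool.Agent.RadIndex

namespace IPTY

theorem num0 (L : ℕ) (hL : 128 ≤ L) : 2 ^ 61 * L ^ 8 ≤ 2 ^ L := by
  induction L, hL using Nat.le_induction with
  | base => norm_num
  | succ L hL ih =>
    have h1 : (L + 1) ^ 8 ≤ 2 * L ^ 8 := by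
      have h2 : (128 * (L + 1)) ^ 8 ≤ (129 * L) ^ 8 := Nat.pow_le_pow_left (by omega) 8
      rw [mul_pow, mul_pow] at h2
      have h3 : 129 ^ 8 * L ^ 8 ≤ 128 ^ 8 * (2 * L ^ 8) := by
        have : (129 : ℕ) ^ 8 ≤ 2 * 128 ^ 8 := by norm_num
        nlinarith [Nat.zero_le (L ^ 8)]
      exact Nat.le_of_mul_le_mul_left (h2.trans h3) (by norm_num)
    calc 2 ^ 61 * (L + 1) ^ 8 ≤ 2 ^ 61 * (2 * L ^ 8) := Nat.mul_le_mul_left _ h1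
      _ = 2 * (2 ^ 61 * L ^ 8) := by ring
      _ ≤ 2 * 2 ^ L := Nat.mul_le_mul_left _ ih
      _ = 2 ^ (L + 1) := by ring

theorem num1 (q L s A k i : ℕ) (h1 : 2 ^ 61 * L ^ 8 ≤ q) (h2 : q ≤ s) (h3 : A ≤ 4 * L * s)
    (h4 : k ≤ 2 * q + 1) (h5 : q + 1 ≤ 2 * i) : (4 * A * k) ^ 8 ≤ s ^ (8 + 1) * i ^ 8 := by
  have h6 : 4 * A * k ≤ 64 * L * s * i := by
    calc 4 * A * k ≤ 4 * (4 * L * s) * (4 * i) := by
          apply Nat.mul_le_mul (Nat.mul_le_mul_left _ h3)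
          omega
      _ = 64 * L * s * i := by ring
  have h7 : 64 ^ 8 * L ^ 8 ≤ s := by
    have : (64 : ℕ) ^ 8 ≤ 2 ^ 61 := by norm_num
    exact (Nat.mul_le_mul_right _ this).trans (h1.trans h2)
  calc (4 * A * k) ^ 8 ≤ (64 * L * s * i) ^ 8 := Nat.pow_le_pow_left h6 8
    _ = (64 ^ 8 * L ^ 8) * (s ^ 8 * i ^ 8) := by ring
    _ ≤ s * (s ^ 8 * i ^ 8) := Nat.mul_le_mul_right _ h7
    _ = s ^ (8 + 1) * i ^ 8 := by ring

theorem num2 (q L s A k : ℕ) (h0 : 1 ≤ q) (h1 : 2 ^ 61 * L ^ 8 ≤ q) (h2 : q ≤ s) (h3 : A ≤ 4 * L * s)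
    (h4 : k ≤ 2 * q + 1) : ((4 * A) ^ 2 * k) ^ 8 ≤ s ^ (2 * 8 + 2 * 1 + 8) := by
  have h6 : (4 * A) ^ 2 * k ≤ (16 * L * s) ^ 2 * (4 * q) := by
    apply Nat.mul_le_mul
    · apply Nat.pow_le_pow_left
      calc 4 * A ≤ 4 * (4 * L * s) := Nat.mul_le_mul_left _ h3
        _ = 16 * L * s := by ring
    · omega
  have h7 : (2 ^ 61 * L ^ 8) ^ 2 ≤ q ^ 2 := Nat.pow_le_pow_left h1 2
  calc ((4 * A) ^ 2 * k) ^ 8 ≤ ((16 * L * s) ^ 2 * (4 * q)) ^ 8 := Nat.pow_le_pow_left h6 8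
    _ = 2 ^ 80 * (L ^ 16 * (s ^ 16 * q ^ 8)) := by ring
    _ ≤ 2 ^ 122 * (L ^ 16 * (s ^ 16 * q ^ 8)) := Nat.mul_le_mul_right _ (by norm_num)
    _ = (2 ^ 61 * L ^ 8) ^ 2 * (s ^ 16 * q ^ 8) := by ring
    _ ≤ q ^ 2 * (s ^ 16 * q ^ 8) := Nat.mul_le_mul_right _ h7
    _ = q ^ 10 * s ^ 16 := by ring
    _ ≤ s ^ 10 * s ^ 16 := Nat.mul_le_mul_right _ (Nat.pow_le_pow_left h2 10)
    _ = s ^ (2 * 8 + 2 * 1 + 8) := by ring

theorem num3 (q L s a : ℝ) (hL : 0 ≤ L) (ha : 0 ≤ a) (hs : 0 ≤ s) (h0 : 1000 ≤ q)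
    (h1 : 2 ^ 61 * L ^ 8 ≤ q) (h2 : s ≤ q ^ 3) (h3 : a ≤ 4 * L * s) :
    16 ^ (2 * 8 + 8) * (4 * a) ^ (8 * 8) * (3 : ℝ) ^ (2 * (2 * 8 + 8)) * s ^ (3 * 8 - 2 * 8) ≤
      s ^ (8 * 8) * ((q - 9) * (q - 1) / 8) ^ (2 * (3 * 8 - 2 * 8)) := by
  have hq0 : 0 ≤ q := by linarith
  have ht : q ^ 4 / 128 ≤ ((q - 9) * (q - 1) / 8) ^ 2 := by
    have h5 : 0.9 * q ^ 2 ≤ (q - 9) * (q - 1) := by nlinarith
    have h6 : (0.9 * q ^ 2) ^ 2 ≤ ((q - 9) * (q - 1)) ^ 2 := pow_le_pow_left₀ (by positivity) h5 2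
    have h7 : 0 ≤ q ^ 4 := by positivity
    nlinarith
  have hL8 : 0 ≤ L ^ 8 := pow_nonneg hL 8
  have h8 : 2 ^ 44 * 3 ^ 6 * L ^ 8 * s ≤ ((q - 9) * (q - 1) / 8) ^ 2 := by
    refine le_trans ?_ ht
    have h9 : 128 * (2 ^ 44 * 3 ^ 6) * L ^ 8 ≤ q := by
      refine le_trans ?_ h1
      apply mul_le_mul_of_nonneg_right _ hL8
      norm_num
    have h10 : (128 * (2 ^ 44 * 3 ^ 6) * L ^ 8) * s ≤ q * q ^ 3 :=
      mul_le_mul h9 h2 hs hq0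
    have h11 : q * q ^ 3 = q ^ 4 := by ring
    rw [h11] at h10
    rw [le_div_iff₀ (by norm_num)]
    calc 2 ^ 44 * 3 ^ 6 * L ^ 8 * s * 128 = (128 * (2 ^ 44 * 3 ^ 6) * L ^ 8) * s := by ring
      _ ≤ q ^ 4 := h10
  have h12 : 16 ^ 3 * (4 * a) ^ 8 * 3 ^ 6 * s ≤ s ^ 8 * ((q - 9) * (q - 1) / 8) ^ 2 := by
    have h13 : (4 * a) ^ 8 ≤ (16 * L * s) ^ 8 := by
      apply pow_le_pow_left₀ (by positivity)
      linarith
    calc 16 ^ 3 * (4 * a) ^ 8 * 3 ^ 6 * s ≤ 16 ^ 3 * (16 * L * s) ^ 8 * 3 ^ 6 * s := by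
          apply mul_le_mul_of_nonneg_right _ hs
          apply mul_le_mul_of_nonneg_right _ (by norm_num)
          exact mul_le_mul_of_nonneg_left h13 (by norm_num)
      _ = s ^ 8 * (2 ^ 44 * 3 ^ 6 * L ^ 8 * s) := by ring
      _ ≤ s ^ 8 * ((q - 9) * (q - 1) / 8) ^ 2 := mul_le_mul_of_nonneg_left h8 (by positivity)
  have h14 := pow_le_pow_left₀ (by positivity) h12 8
  calc 16 ^ (2 * 8 + 8) * (4 * a) ^ (8 * 8) * (3 : ℝ) ^ (2 * (2 * 8 + 8)) * s ^ (3 * 8 - 2 * 8)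
      = (16 ^ 3 * (4 * a) ^ 8 * 3 ^ 6 * s) ^ 8 := by ring
    _ ≤ (s ^ 8 * ((q - 9) * (q - 1) / 8) ^ 2) ^ 8 := h14
    _ = s ^ (8 * 8) * ((q - 9) * (q - 1) / 8) ^ (2 * (3 * 8 - 2 * 8)) := by ring

end IPTY

open IPTY in
theorem pr_PTY (hPRI : StPRI) (hPKY : StPKY) (hPAU : StPAU) : StPTY := by
  intro F _ _ hq
  have hq4 : 4 ≤ Nat.card F := le_trans (by norm_num) hq
  have hq17 : 17 ≤ Nat.card F := le_trans (by norm_num) hq
  obtain ⟨hsimple, hperf⟩ := prf_PERF F hq4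
  obtain ⟨D, -⟩ := prf_UNIP prf_TRICK prf_PRIME F hq4
  have hcard := prf_CARD F
  have haut := hPAU F hq4
  have hidx : ∀ Y : Subgroup (Matrix.ProjectiveSpecialLinearGroup (Fin 2) F), Y ≠ ⊤ →
      1 + (Nat.card F - 1) / Nat.gcd 2 (Nat.card F - 1) ≤ Y.index := fun Y hY =>
    prf_IDX _ F _ hsimple D Y hY
  have hpky := hPKY F
  have hpri := hPRI F hq17
  set q := Nat.card F with hqdef
  set s := Nat.card (Matrix.ProjectiveSpecialLinearGroup (Fin 2) F) with hsdef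
  set A := Nat.card (MulAut (Matrix.ProjectiveSpecialLinearGroup (Fin 2) F)) with hAdef
  set g := Nat.gcd 2 (q - 1) with hg
  have hg1 : 0 < g := Nat.gcd_pos_of_pos_left _ (by norm_num)
  have hg2 : g ≤ 2 := Nat.gcd_le_left _ (by norm_num)
  have hgd : g ∣ q - 1 := Nat.gcd_dvd_right _ _
  have hL : 128 ≤ Nat.log 2 q := by
    have h1 := Nat.log_mono_right (b := 2) hq
    rwa [Nat.log_pow (by norm_num)] at h1
  have hLq : 2 ^ 61 * (Nat.log 2 q) ^ 8 ≤ q :=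
    (num0 _ hL).trans (Nat.pow_log_le_self 2 (by omega))
  have hqs : q ≤ s := by
    have h1 : q * (q ^ 2 - 1) ≤ s * 2 := by
      rw [← hcard]
      exact Nat.mul_le_mul_left _ hg2
    have h2 : q * 2 ≤ q * (q ^ 2 - 1) := by
      apply Nat.mul_le_mul_left
      have : 4 ^ 2 ≤ q ^ 2 := Nat.pow_le_pow_left hq4 2
      omega
    omega
  have hs3 : s ≤ q ^ 3 := by
    have h1 : s * 1 ≤ s * g := Nat.mul_le_mul_left _ hg1
    have h2 : q * (q ^ 2 - 1) ≤ q * q ^ 2 := Nat.mul_le_mul_left _ (Nat.sub_le _ _)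
    calc s = s * 1 := (mul_one s).symm
      _ ≤ s * g := h1
      _ = q * (q ^ 2 - 1) := hcard
      _ ≤ q * q ^ 2 := h2
      _ = q ^ 3 := by ring
  refine ⟨⟨?_, ?_⟩, ?_⟩
  · intro Y hY
    refine num1 q (Nat.log 2 q) s A (ACD8.kc Y) Y.index hLq hqs haut (hpky Y) ?_
    have h1 := hidx Y hY
    obtain ⟨c, hc⟩ := hgd
    rw [hc, Nat.mul_div_cancel_left _ hg1] at h1
    have h2 : g * c ≤ 2 * c := Nat.mul_le_mul_right _ hg2
    omega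
  · refine num2 q (Nat.log 2 q) s A _ (by omega) hLq hqs haut ?_
    rw [← ACD8.kc_congr (Subgroup.topEquiv (G := Matrix.ProjectiveSpecialLinearGroup (Fin 2) F))]
    exact hpky ⊤
  · have hqR : (1000 : ℝ) ≤ (q : ℝ) := by
      have : 1000 ≤ q := le_trans (by norm_num) hq
      exact_mod_cast this
    refine ⟨((q : ℝ) - 9) * ((q : ℝ) - 1) / 8, 3, ?_, by norm_num, hpri, ?_⟩
    · have h1 : (0 : ℝ) < (q : ℝ) - 9 := by linarith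
      have h2 : (0 : ℝ) < (q : ℝ) - 1 := by linarith
      positivity
    · exact num3 q (Nat.log 2 q : ℕ) s A (Nat.cast_nonneg _) (Nat.cast_nonneg _) (Nat.cast_nonneg _)
        hqR (by exact_mod_cast hLq) (by exact_mod_cast hs3) (by exact_mod_cast haut)

end Pool.Agent.RadIndex.RI
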