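import Pool.Agent.Work.MP_76dc41_al.RI.Stmts

/-!
# The simple subnormal subgroups of a group with trivial solvable radical
-/

set_option autoImplicit false

namespace Pool.Agent.RadIndex.RI

open Pool.Agent Pool.Agent.RadIndex

namespace ISOC

variable {H : Type} [Group H]

theorem not_comm_self (S : Subgroup H) (h2 : ¬ Group.IsSolvable S)
    (hc : ∀ x ∈ S, ∀ y ∈ S, x * y = y * x) : False := by
  apply h2
  apply Group.isSolvable_of_comm
  intro a b
  exact Subtype.ext (hc a a.2 b b.2)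

theorem comm_of_ne (hWIE : StWIE) (hNSL : StNSL) [Finite H] (hT : ACD8.TrivRad H) (S T : SS H)
    (hne : S ≠ T) : ∀ x ∈ S.1, ∀ y ∈ T.1, x * y = y * x := by
  have hS := hNSL H hT S.1 S.2.1 S.2.2
  have hT' := hNSL H hT T.1 T.2.1 T.2.2
  rcases hWIE H S.1 T.1 S.2.1 T.2.1 S.2.2 hS with h | h
  · rcases hWIE H T.1 S.1 T.2.1 S.2.1 T.2.2 hT' with h' | h'
    · exact absurd (Subtype.ext (le_antisymm h h')) hne
    · exact (not_comm_self S.1 hS (fun x hx y hy => h' x (h hx) y hy)).elim
  · exact h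

theorem simple_map (S : Subgroup H) (hS : IsSimpleGroup S) {K : Type} [Group K] (f : H →* K)
    (hf : Function.Injective f) : IsSimpleGroup (S.map f) := by
  exact (S.equivMapOfInjective f hf).isSimpleGroup_congr.1 hS

theorem conj_ex (S : SS H) (g : H) : ∃ T : SS H, T.1 = S.1.map (MulAut.conj g).toMonoidHom :=
  ⟨⟨S.1.map (MulAut.conj g).toMonoidHom,
    S.2.1.map (f := (MulAut.conj g).toMonoidHom) (MulAut.conj g).surjective,
    simple_map S.1 S.2.2 _ (MulAut.conj g).injective⟩, rfl⟩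

theorem le_soc (S : SS H) : S.1 ≤ soc H := le_iSup (fun S : SS H => S.1) S

theorem soc_normal : (soc H).Normal := by
  refine ⟨fun n hn g => ?_⟩
  have h : (soc H).map (MulAut.conj g).toMonoidHom ≤ soc H := by
    unfold soc
    rw [Subgroup.map_iSup]
    refine iSup_le fun S => ?_
    obtain ⟨T, hT⟩ := conj_ex S g
    rw [← hT]
    exact le_soc T
  exact h ⟨n, hn, rfl⟩

theorem indep (hNSL : StNSL) [Finite H] (hT : ACD8.TrivRad H)
    (hc : ∀ S T : SS H, S ≠ T → ∀ x ∈ S.1, ∀ y ∈ T.1, x * y = y * x) :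
    iSupIndep (fun S : SS H => S.1) := by
  intro S
  rw [Subgroup.disjoint_def]
  intro x hx hx'
  have h1 : (⨆ T : SS H, ⨆ _ : T ≠ S, T.1) ≤ Subgroup.centralizer (S.1 : Set H) := by
    refine iSup_le fun T => iSup_le fun hne => ?_
    intro y hy
    rw [Subgroup.mem_centralizer_iff]
    intro s hs
    exact hc S T (Ne.symm hne) s hs y hy
  have h2 := h1 hx'
  rw [Subgroup.mem_centralizer_iff] at h2
  exact ACD8.center_triv S.1 S.2.2 (hNSL H hT S.1 S.2.1 S.2.2) x hx (fun t ht => (h2 t ht).symm)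

theorem cent_bot (hNSL : StNSL) [Finite H] (hT : ACD8.TrivRad H) :
    Subgroup.centralizer (soc H : Set H) = ⊥ := by
  by_contra hne
  have hsn : (soc H).Normal := soc_normal
  set C : Subgroup H := Subgroup.centralizer (soc H : Set H) with hC
  have hCn : C.Normal := by
    rw [hC]
    infer_instance
  have hnt : Nontrivial C := (Subgroup.nontrivial_iff_ne_bot C).2 hne
  obtain ⟨M, T, hM, hMT, hmin⟩ := ACD8.exists_min (H := C)
  have h1 : IsSimpleGroup T := ACD8.min_simple M T hMT hmin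
  have h2 : T.IsSubnormal := ACD8.min_subnormal M T hMT
  have h3 : (T.map C.subtype).IsSubnormal := h2.trans' hCn.isSubnormal
  have h4 : IsSimpleGroup (T.map C.subtype) := simple_map T h1 _ C.subtype_injective
  have h5 := hNSL H hT _ h3 h4
  have h6 : T.map C.subtype ≤ soc H := le_soc ⟨T.map C.subtype, h3, h4⟩
  have h7 : T.map C.subtype ≤ C := Subgroup.map_subtype_le T
  refine not_comm_self _ h5 (fun x hx y hy => ?_)
  have h8 := h7 hx
  rw [hC, Subgroup.mem_centralizer_iff] at h8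
  exact (h8 y (h6 hy)).symm

end ISOC

theorem pr_SOC (hWIE : StWIE) (hNSL : StNSL) : StSOC := by
  intro H _ _ hT
  have hc := ISOC.comm_of_ne hWIE hNSL hT
  exact ⟨hc, ISOC.indep hNSL hT hc, ISOC.soc_normal, ISOC.cent_bot hNSL hT, ISOC.conj_ex⟩

end Pool.Agent.RadIndex.RI
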