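import Pool.Agent.Work.MP_76dc41_al.RI.Stmts

set_option autoImplicit false
set_option linter.unusedSectionVars false

open Module Representation Pool.Agent.DC7914

namespace Pool.Agent.RadIndex.RI

open Pool.Agent Pool.Agent.RadIndex

namespace ISTB

section

variable {G : Type} [Group G] [Fintype G] (N : Subgroup G) [N.Normal] [Fintype N]

/-- the two multiplicities vanish together -/
theorem mu_ne (χ : ACD8.IrrC G) (θ : ACD8.IrrC N) (h : mu χ.1 θ.1 ≠ 0) : ACD8.mu N χ θ ≠ 0 := by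
  intro h0
  apply h
  have h1 := ACD8.mu_ip N χ θ
  rw [h0, Nat.cast_zero] at h1
  unfold ACD8.ip at h1
  have h2 : (Nat.card N : ℂ)⁻¹ ≠ 0 := by
    rw [Ne, inv_eq_zero]
    exact_mod_cast Nat.card_pos.ne'
  have h3 := (mul_eq_zero.1 h1).resolve_left h2
  unfold mu
  have h4 : ∑ n : N, θ.1 n * χ.1 ((n⁻¹ : N) : G) = ∑ n : N, χ.1 (n : G) * θ.1 n⁻¹ := by
    refine Fintype.sum_equiv (Equiv.inv N) _ _ fun n => ?_
    rw [Equiv.inv_apply, inv_inv, mul_comm]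
  rw [h4]
  refine Eq.trans ?_ h3
  refine Finset.sum_congr ?_ fun _ _ => rfl
  ext x
  simp

theorem exists_over (θ : ACD8.IrrC N) : ∃ χ : ACD8.IrrC G, θ ∈ ACD8.cst N χ := by
  by_contra hno
  push Not at hno
  have h1 := ACD8.mu_sum N θ
  have h2 : ∑ χ : ACD8.IrrC G, ACD8.dg χ * ACD8.mu N χ θ = 0 := by
    refine Finset.sum_eq_zero fun χ _ => ?_
    have h3 := hno χ
    rw [ACD8.mem_cst, not_not] at h3
    rw [h3, mul_zero]
  rw [h2, zero_mul] at h1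
  have h4 : 0 < Nat.card G * ACD8.dg θ := Nat.mul_pos Nat.card_pos (ACD8.dg_pos θ)
  omega

end

end ISTB

open ISTB in
theorem pr_STB : StSTB := by
  classical
  intro G _ _ N _ _ l hl
  obtain ⟨n, ρ, hρ, hlρ⟩ := hl
  let θ : ACD8.IrrC N := ⟨l, n, ρ, hρ, hlρ.symm⟩
  obtain ⟨χ₀, hχ₀⟩ := exists_over N θ
  have hcj : ∀ g : G, ((ACD8.cj N g θ : ACD8.IrrC N) : N → ℂ) = cj g l := fun g => rfl
  refine ⟨ACD8.stq N θ, ?_, ?_, ?_⟩
  · intro g
    rw [ACD8.mem_stq, ACD8.mem_stb, Subtype.ext_iff, hcj]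
  · rw [← ACD8.card_cst_eq N χ₀ θ hχ₀]
    have h1 : orb N l = (ACD8.cst N χ₀).image (fun η : ACD8.IrrC N => (η : N → ℂ)) := by
      ext m
      rw [mem_orb, Finset.mem_image]
      constructor
      · rintro ⟨g, rfl⟩
        refine ⟨ACD8.cj N g θ, ?_, hcj g⟩
        rw [ACD8.mem_cst, ACD8.mu_cj]
        exact (ACD8.mem_cst N χ₀ θ).1 hχ₀
      · rintro ⟨η, hη, rfl⟩
        obtain ⟨g, hg⟩ := ACD8.clifford_conn N χ₀ θ η ((ACD8.mem_cst N χ₀ θ).1 hχ₀)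
          ((ACD8.mem_cst N χ₀ η).1 hη)
        exact ⟨g, by rw [hg, hcj]⟩
    rw [h1, Finset.card_image_of_injective _ Subtype.val_injective]
  · refine le_trans ?_ (ACD8.card_fib_le_stab N χ₀ θ hχ₀)
    have h2 : ovr N l ⊆ (ACD8.fib N (ACD8.cst N χ₀)).image
        (fun η : ACD8.IrrC G => (η : G → ℂ)) := by
      intro χ hχ
      unfold ovr at hχ
      rw [Finset.mem_filter, mem_irrs] at hχ
      obtain ⟨⟨m, σ, hσ, hχσ⟩, hmu⟩ := hχ
      rw [Finset.mem_image]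
      let χ' : ACD8.IrrC G := ⟨χ, m, σ, hσ, hχσ.symm⟩
      refine ⟨χ', ?_, rfl⟩
      rw [ACD8.mem_fib]
      refine ACD8.cst_eq N χ' χ₀ θ ?_ hχ₀
      rw [ACD8.mem_cst]
      exact mu_ne N χ' θ hmu
    refine (Finset.card_le_card h2).trans ?_
    exact Finset.card_image_le

end Pool.Agent.RadIndex.RI
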