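import Pool.Agent.Work.MP_76dc41_al.RI.Stmts

/-!
# Item SUM: sums over the characters above an invariant character
-/

set_option autoImplicit false
set_option linter.unusedSectionVars false

open Module Representation Pool.Agent.DC7914

namespace Pool.Agent.RadIndex.RI

open Pool.Agent Pool.Agent.RadIndex

namespace ISUM

/-- conjugation by `g` on `N`, as a subgroup of `A` -/
def cEq {G : Type} [Group G] (N A : Subgroup G) [N.Normal] [A.Normal] (g : G) :
    N.subgroupOf A ≃ N.subgroupOf A where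
  toFun x := ⟨MulAut.conjNormal g x.1, by
    rw [Subgroup.mem_subgroupOf, MulAut.conjNormal_apply]
    exact Subgroup.Normal.conj_mem inferInstance _ (Subgroup.mem_subgroupOf.1 x.2) g⟩
  invFun x := ⟨MulAut.conjNormal g⁻¹ x.1, by
    rw [Subgroup.mem_subgroupOf, MulAut.conjNormal_apply]
    exact Subgroup.Normal.conj_mem inferInstance _ (Subgroup.mem_subgroupOf.1 x.2) g⁻¹⟩
  left_inv x := by
    apply Subtype.ext
    show MulAut.conjNormal g⁻¹ (MulAut.conjNormal g x.1) = x.1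
    rw [map_inv]
    exact MulAut.inv_apply_self A _ x.1
  right_inv x := by
    apply Subtype.ext
    show MulAut.conjNormal g (MulAut.conjNormal g⁻¹ x.1) = x.1
    rw [map_inv]
    exact MulAut.apply_inv_self A _ x.1

/-- conjugation of a character of `A` does not change its multiplicity over an invariant `l` -/
theorem mu_cj_down {G : Type} [Group G] [Fintype G] {N A : Subgroup G} [N.Normal] [A.Normal]
    [Fintype N] [Fintype A] [Fintype (N.subgroupOf A)] (h : N ≤ A) (l : N → ℂ)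
    (hinv : ∀ g : G, cj g l = l) (g : G) (η : A → ℂ) :
    mu (cj g η) (down h l) = mu η (down h l) := by
  unfold mu
  refine Fintype.sum_equiv (cEq N A g) _ _ fun x => ?_
  have e1 : down h l (cEq N A g x) = down h l x := by
    have e2 : Subgroup.subgroupOfEquivOfLe h (cEq N A g x) =
        MulAut.conjNormal g (Subgroup.subgroupOfEquivOfLe h x) := by
      apply Subtype.ext
      rw [MulAut.conjNormal_apply]
      show ((MulAut.conjNormal g x.1 : A) : G) = g * ((x.1 : A) : G) * g⁻¹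
      rw [MulAut.conjNormal_apply]
    show l (Subgroup.subgroupOfEquivOfLe h (cEq N A g x)) = l (Subgroup.subgroupOfEquivOfLe h x)
    rw [e2]
    exact congrFun (hinv g) _
  have e3 : cj g η ((x⁻¹ : N.subgroupOf A) : A) = η (((cEq N A g x)⁻¹ : N.subgroupOf A) : A) := by
    show η (MulAut.conjNormal g ((x⁻¹ : N.subgroupOf A) : A)) = _
    congr 1
    show MulAut.conjNormal g (x.1⁻¹) = (MulAut.conjNormal g x.1)⁻¹
    rw [map_inv]
  rw [e1, e3]

theorem orb_eq {G : Type} [Group G] [Fintype G] {A : Subgroup G} [A.Normal] {η φ : A → ℂ}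
    (h : φ ∈ orb A η) : orb A φ = orb A η := by
  obtain ⟨g, rfl⟩ := mem_orb.1 h
  ext ψ
  rw [mem_orb, mem_orb]
  constructor
  · rintro ⟨x, rfl⟩
    exact ⟨g * x, (cj_cj g x η).symm⟩
  · rintro ⟨x, rfl⟩
    refine ⟨g⁻¹ * x, ?_⟩
    rw [cj_cj, mul_inv_cancel_left]

end ISUM

theorem pr_SUM : StSUM := by
  classical
  intro G _ _ N A _ _ _ _ _ h l hl hinv f
  have hΦ : ∀ φ, φ ∈ ovr (N.subgroupOf A) (down h l) ↔ IsIrrChar φ ∧ mu φ (down h l) ≠ 0 :=
    fun φ => STEP_mem_ovr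
  have horb : ∀ φ ∈ ovr (N.subgroupOf A) (down h l), ∀ ψ ∈ orb A φ,
      ψ ∈ ovr (N.subgroupOf A) (down h l) := by
    intro φ hφ ψ hψ
    rw [hΦ] at hφ ⊢
    obtain ⟨g, rfl⟩ := mem_orb.1 hψ
    refine ⟨irr_cj g hφ.1, ?_⟩
    rw [ISUM.mu_cj_down h l hinv]
    exact hφ.2
  have e1 : ∀ φ ∈ ovr (N.subgroupOf A) (down h l),
      (∑ χ ∈ ovr A φ, f χ) / ((orb A φ).card : ℝ) =
      ∑ χ ∈ irrs G, if mu χ φ ≠ 0 then f χ / ((orb A φ).card : ℝ) else 0 := by
    intro φ _
    unfold ovr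
    rw [Finset.sum_div, Finset.sum_filter]
  have e2 : ∑ χ ∈ ovr N l, f χ = ∑ χ ∈ irrs G, if mu χ l ≠ 0 then f χ else 0 := by
    unfold ovr
    rw [Finset.sum_filter]
  rw [Finset.sum_congr rfl e1, Finset.sum_comm, e2]
  refine Finset.sum_congr rfl fun χ hχ => ?_
  rw [mem_irrs] at hχ
  by_cases hm : mu χ l ≠ 0
  · rw [if_pos hm]
    obtain ⟨η, hη, hχη, hηl⟩ := (prf_TRANS G N A h l hl χ hχ).1 hm
    have hηΦ : η ∈ ovr (N.subgroupOf A) (down h l) := (hΦ η).2 ⟨hη, hηl⟩
    have e3 : (ovr (N.subgroupOf A) (down h l)).filter (fun φ => mu χ φ ≠ 0) = orb A η := by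
      ext φ
      rw [Finset.mem_filter]
      constructor
      · rintro ⟨a, c⟩
        exact (prf_ORB G A η φ hη ((hΦ φ).1 a).1 χ hχ hχη).1 c
      · intro hφ
        exact ⟨horb η hηΦ φ hφ, (prf_ORB G A η φ hη (irr_orb hη hφ) χ hχ hχη).2 hφ⟩
    rw [← Finset.sum_filter, e3]
    have e4 : ∀ φ ∈ orb A η, f χ / ((orb A φ).card : ℝ) = f χ / ((orb A η).card : ℝ) := by
      intro φ hφ
      rw [ISUM.orb_eq hφ]
    rw [Finset.sum_congr rfl e4, Finset.sum_const, nsmul_eq_mul]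
    have hc : ((orb A η).card : ℝ) ≠ 0 := by
      have h1 : 0 < (orb A η).card := Finset.card_pos.2 ⟨η, self_mem_orb η⟩
      exact_mod_cast h1.ne'
    field_simp
  · rw [if_neg hm]
    symm
    refine Finset.sum_eq_zero fun φ hφ => ?_
    rw [hΦ] at hφ
    rw [if_neg]
    intro hc
    exact hm ((prf_TRANS G N A h l hl χ hχ).2 ⟨φ, hφ.1, hc, hφ.2⟩)

end Pool.Agent.RadIndex.RI
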