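import Pool.Agent.Work.MP_76dc41_al.RI.Stmts

/-!
# Rich simple factors, item WIE (Wielandt): a nonabelian simple subnormal subgroup is contained in a
given subnormal subgroup or commutes with it
-/

set_option autoImplicit false

namespace Pool.Agent.RadIndex.RI

open Pool.Agent Pool.Agent.RadIndex

namespace IWIE

theorem simple_sub {H : Type} [Group H] {S K : Subgroup H} (h : S ≤ K) (hs : IsSimpleGroup S) :
    IsSimpleGroup (S.subgroupOf K) := by
  haveI := hs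
  exact (Subgroup.subgroupOfEquivOfLe h).isSimpleGroup

theorem nsol_sub {H : Type} [Group H] {S K : Subgroup H} (h : S ≤ K)
    (hs : ¬ Group.IsSolvable S) : ¬ Group.IsSolvable (S.subgroupOf K) := by
  intro h'
  haveI := h'
  exact hs (Group.isSolvable_of_surjective (f := (Subgroup.subgroupOfEquivOfLe h).toMonoidHom)
    (Subgroup.subgroupOfEquivOfLe h).surjective)

theorem card_lt {H : Type} [Group H] [Finite H] {K : Subgroup H} (h : K < ⊤) :
    Nat.card K < Nat.card H := by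
  by_contra h'
  exact h.ne (Subgroup.eq_top_of_le_card K (not_lt.1 h'))

/-- If `x` commutes with the commutators `y t y⁻¹ t⁻¹` (`x`, `y` in `S`) and with their conjugates,
then the simple nonsolvable group `S` commutes with `t`. -/
theorem comm_of {H : Type} [Group H] (S D : Subgroup H) [D.Normal] (hs : IsSimpleGroup S)
    (hsol : ¬ Group.IsSolvable S) (t : H) (hc : ∀ x ∈ S, ∀ d ∈ D, x * d = d * x)
    (hD : ∀ x ∈ S, x * t * x⁻¹ * t⁻¹ ∈ D) : ∀ x ∈ S, x * t = t * x := by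
  have hmul : ∀ x ∈ S, ∀ y ∈ S, (x * y) * t * (x * y)⁻¹ * t⁻¹ =
      (y * t * y⁻¹ * t⁻¹) * (x * t * x⁻¹ * t⁻¹) := by
    intro x hx y hy
    have h1 := hc x hx _ (hD y hy)
    calc (x * y) * t * (x * y)⁻¹ * t⁻¹ = x * (y * t * y⁻¹ * t⁻¹) * (t * x⁻¹ * t⁻¹) := by group
      _ = (y * t * y⁻¹ * t⁻¹) * x * (t * x⁻¹ * t⁻¹) := by rw [h1]
      _ = (y * t * y⁻¹ * t⁻¹) * (x * t * x⁻¹ * t⁻¹) := by group
  have hcom : ∀ x ∈ S, ∀ y ∈ S, (y * t * y⁻¹ * t⁻¹) * (x * t * x⁻¹ * t⁻¹) =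
      (x * t * x⁻¹ * t⁻¹) * (y * t * y⁻¹ * t⁻¹) := by
    intro x hx y hy
    obtain ⟨d, hd⟩ : ∃ d, d = y * t * y⁻¹ * t⁻¹ := ⟨_, rfl⟩
    have hdD : d ∈ D := hd ▸ hD y hy
    rw [← hd]
    have h1 := hc x hx d hdD
    have h2 : t⁻¹ * d * t ∈ D := by
      have := (inferInstance : D.Normal).conj_mem d hdD t⁻¹
      rwa [inv_inv] at this
    have h3 := hc x⁻¹ (S.inv_mem hx) _ h2
    have h4 : (t * x⁻¹ * t⁻¹) * d = d * (t * x⁻¹ * t⁻¹) := by
      calc (t * x⁻¹ * t⁻¹) * d = t * (x⁻¹ * (t⁻¹ * d * t)) * t⁻¹ := by group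
        _ = t * ((t⁻¹ * d * t) * x⁻¹) * t⁻¹ := by rw [h3]
        _ = d * (t * x⁻¹ * t⁻¹) := by group
    calc d * (x * t * x⁻¹ * t⁻¹) = (d * x) * (t * x⁻¹ * t⁻¹) := by group
      _ = (x * d) * (t * x⁻¹ * t⁻¹) := by rw [h1]
      _ = x * (d * (t * x⁻¹ * t⁻¹)) := by group
      _ = x * ((t * x⁻¹ * t⁻¹) * d) := by rw [h4]
      _ = (x * t * x⁻¹ * t⁻¹) * d := by group
  let φ : S →* H :=
    { toFun := fun x => (x : H) * t * (x : H)⁻¹ * t⁻¹
      map_one' := by simp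
      map_mul' := fun x y => by
        show ((x * y : S) : H) * t * ((x * y : S) : H)⁻¹ * t⁻¹ = _
        rw [Subgroup.coe_mul, hmul x x.2 y y.2, hcom x x.2 y y.2] }
  haveI := hs
  rcases (MonoidHom.normal_ker φ).eq_bot_or_eq_top with h | h
  · exfalso
    apply hsol
    apply Group.isSolvable_of_comm
    intro a b
    have hinj : Function.Injective φ := (MonoidHom.ker_eq_bot_iff φ).1 h
    apply hinj
    rw [map_mul, map_mul]
    exact hcom b b.2 a a.2
  · intro x hx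
    have h1 : (⟨x, hx⟩ : S) ∈ φ.ker := by rw [h]; exact Subgroup.mem_top _
    have h2 : x * t * x⁻¹ * t⁻¹ = 1 := h1
    calc x * t = (x * t * x⁻¹ * t⁻¹) * (t * x) := by group
      _ = t * x := by rw [h2, one_mul]

theorem wie : ∀ n : ℕ, ∀ (H : Type) [Group H] [Finite H], Nat.card H = n →
    ∀ (S T : Subgroup H), S.IsSubnormal → T.IsSubnormal → IsSimpleGroup S →
    ¬ Group.IsSolvable S → S ≤ T ∨ ∀ x ∈ S, ∀ y ∈ T, x * y = y * x := by
  intro n
  induction n using Nat.strong_induction_on with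
  | _ n ih =>
    intro H _ _ hn S T hS hT hs hsol
    by_cases hTt : T = ⊤
    · left
      rw [hTt]
      exact le_top
    by_cases hSt : S = ⊤
    · subst hSt
      haveI := hs
      have h0 : IsSimpleGroup H := (Subgroup.topEquiv : (⊤ : Subgroup H) ≃* H).symm.isSimpleGroup
      rcases hT.eq_bot_or_top_of_isSimpleGroup h0 with h | h
      · right
        intro x _ y hy
        rw [h, Subgroup.mem_bot] at hy
        rw [hy, mul_one, one_mul]
      · exact absurd h hTt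
    obtain ⟨T₁, hT₁n, hTT₁, hT₁⟩ := hT.exists_normal_and_le_and_lt_top_of_ne hTt
    obtain ⟨N₁, hN₁n, hSN₁, hN₁⟩ := hS.exists_normal_and_le_and_lt_top_of_ne hSt
    by_cases hST : S ≤ T₁
    · rcases ih (Nat.card T₁) (hn ▸ card_lt hT₁) T₁ rfl (S.subgroupOf T₁) (T.subgroupOf T₁)
        hS.subgroupOf hT.subgroupOf (simple_sub hST hs) (nsol_sub hST hsol) with h | h
      · left
        intro x hx
        exact Subgroup.mem_subgroupOf.1 (h (Subgroup.mem_subgroupOf.2 hx :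
          (⟨x, hST hx⟩ : T₁) ∈ S.subgroupOf T₁))
      · right
        intro x hx y hy
        have h1 := h ⟨x, hST hx⟩ (Subgroup.mem_subgroupOf.2 hx) ⟨y, hTT₁ hy⟩
          (Subgroup.mem_subgroupOf.2 hy)
        exact congrArg Subtype.val h1
    · right
      have hcD : ∀ x ∈ S, ∀ d ∈ N₁ ⊓ T₁, x * d = d * x := by
        rcases ih (Nat.card N₁) (hn ▸ card_lt hN₁) N₁ rfl (S.subgroupOf N₁) (T₁.subgroupOf N₁)
          hS.subgroupOf (hT₁n.isSubnormal.subgroupOf) (simple_sub hSN₁ hs) (nsol_sub hSN₁ hsol)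
          with h | h
        · exfalso
          apply hST
          intro x hx
          exact Subgroup.mem_subgroupOf.1 (h (Subgroup.mem_subgroupOf.2 hx :
            (⟨x, hSN₁ hx⟩ : N₁) ∈ S.subgroupOf N₁))
        · intro x hx d hd
          have h1 := h ⟨x, hSN₁ hx⟩ (Subgroup.mem_subgroupOf.2 hx) ⟨d, hd.1⟩
            (Subgroup.mem_subgroupOf.2 hd.2)
          exact congrArg Subtype.val h1
      haveI : (N₁ ⊓ T₁).Normal := @Subgroup.normal_inf_normal _ _ N₁ T₁ hN₁n hT₁n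
      intro x hx y hy
      refine comm_of S (N₁ ⊓ T₁) hs hsol y hcD ?_ x hx
      intro z hz
      refine Subgroup.mem_inf.2 ⟨?_, ?_⟩
      · have h1 : y * z⁻¹ * y⁻¹ ∈ N₁ := hN₁n.conj_mem _ (N₁.inv_mem (hSN₁ hz)) y
        have h2 := N₁.mul_mem (hSN₁ hz) h1
        have h3 : z * y * z⁻¹ * y⁻¹ = z * (y * z⁻¹ * y⁻¹) := by group
        rw [h3]
        exact h2
      · have h1 : z * y * z⁻¹ ∈ T₁ := hT₁n.conj_mem _ (hTT₁ hy) z
        exact T₁.mul_mem h1 (T₁.inv_mem (hTT₁ hy))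

end IWIE

theorem pr_WIE : StWIE := by
  intro H _ _ S T hS hT hs hsol
  exact IWIE.wie _ H rfl S T hS hT hs hsol

end Pool.Agent.RadIndex.RI
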