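import Pool.Agent.Work.MP_76dc41_al.RI.Asm
import Pool.Agent.Work.MP_76dc41_al.RI.Bridge
import Pool.Agent.Work.MP_76dc41_al.RI.I_STB
import Pool.Agent.Work.MP_76dc41_al.RI.I_CLI
import Pool.Agent.Work.MP_76dc41_al.RI.I_SUM
import Pool.Agent.Work.MP_76dc41_al.RI.I_FIX
import Pool.Agent.Work.MP_76dc41_al.RI.I_FIB
import Pool.Agent.Work.MP_76dc41_al.RI.I_LM
import Pool.Agent.Work.MP_76dc41_al.RI.I_PRD
import Pool.Agent.Work.MP_76dc41_al.RI.I_RPI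
import Pool.Agent.Work.MP_76dc41_al.RI.I_NUM
import Pool.Agent.Work.MP_76dc41_al.RI.I_NU0
import Pool.Agent.Work.MP_76dc41_al.RI.I_ACB
import Pool.Agent.Work.MP_76dc41_al.RI.I_INV
import Pool.Agent.Work.MP_76dc41_al.RI.I_WIE
import Pool.Agent.Work.MP_76dc41_al.RI.I_NSL
import Pool.Agent.Work.MP_76dc41_al.RI.I_SOC
import Pool.Agent.Work.MP_76dc41_al.RI.I_IPR
import Pool.Agent.Work.MP_76dc41_al.RI.I_OUT
import Pool.Agent.Work.MP_76dc41_al.RI.I_CNA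
import Pool.Agent.Work.MP_76dc41_al.RI.I_CNB
import Pool.Agent.Work.MP_76dc41_al.RI.I_CNT
import Pool.Agent.Work.MP_76dc41_al.RI.I_GRP
import Pool.Agent.Work.MP_76dc41_al.RI.I_PRF
import Pool.Agent.Work.MP_76dc41_al.RI.I_NCL
import Pool.Agent.Work.MP_76dc41_al.RI.I_PCL
import Pool.Agent.Work.MP_76dc41_al.RI.I_PKY
import Pool.Agent.Work.MP_76dc41_al.RI.I_PA1
import Pool.Agent.Work.MP_76dc41_al.RI.I_PA2
import Pool.Agent.Work.MP_76dc41_al.RI.I_PA3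
import Pool.Agent.Work.MP_76dc41_al.RI.I_PAU
import Pool.Agent.Work.MP_76dc41_al.RI.I_PRI
import Pool.Agent.Work.MP_76dc41_al.RI.I_PTY

/-!
# Rich simple factors: the theorem
-/

set_option autoImplicit false

namespace Pool.Agent.RadIndex.RI

theorem psl2_type : StPTY :=
  pr_PTY (pr_PRI pr_NCL pr_PCL) pr_PKY (pr_PAU pr_PA1 pr_PA2 pr_PA3)

theorem rich_main : StTHM := by
  have soc : StSOC := pr_SOC pr_WIE pr_NSL
  have inv := pr_INV (pr_LM pr_STB pr_SUM pr_FIX pr_FIB) pr_NUM (pr_RPI (pr_PRD pr_SUM pr_FIX))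
  have grp := pr_GRP pr_NSL soc pr_IPR (pr_OUT soc) (pr_CNT (pr_CNB pr_CNA))
  exact pr_THM pr_STB pr_CLI inv pr_NU0 pr_ACB grp pr_NSL pr_PRF

/-- the criterion in terms of the definitions of `RI/Defs.lean` -/
theorem rich_crit (s t r : ℕ) (hs : 0 < s) (hst : s ≤ 2 * t) (hr : 8 * r + 2 * t ≤ 3 * s)
    (G : Type) [Group G] [Finite G] (N : Subgroup G) [N.Normal] (hN : RadAlt.TrivRad (G ⧸ N))
    (h : ∀ S : Subgroup (G ⧸ N), S.IsSubnormal → IsSimpleGroup S →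
      RadAlt.LocBound s t r S ∧ (RadAlt.FewCl s r S ∨ RadAlt.ManyChars s t S)) :
    (Nat.card (G ⧸ N) : ℝ) ≤ RadAlt.acd G ^ 4 := by
  refine rich_main s t r hs hst hr G N hN fun S h1 h2 => ?_
  obtain ⟨h3, h4⟩ := h S h1 h2
  refine ⟨h3, h4.imp id ?_⟩
  rintro ⟨u, v, hu, hv, hR, hT⟩
  exact ⟨u, v, hu, hv, IBR.rich_iff.1 hR, hT⟩

/-- the families -/
theorem rich_families (G : Type) [Group G] [Finite G] (N : Subgroup G) [N.Normal]
    (hN : RadAlt.TrivRad (G ⧸ N))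
    (h : ∀ S : Subgroup (G ⧸ N), S.IsSubnormal → IsSimpleGroup S →
      RadAlt.AltOrLin 160 84 S ∨ RadAlt.IsPSL2 (2 ^ 128) S) :
    (Nat.card (G ⧸ N) : ℝ) ≤ RadAlt.acd G ^ 4 := by
  refine rich_main 8 8 1 (by norm_num) (by norm_num) (by norm_num) G N hN fun S h1 h2 => ?_
  rcases h S h1 h2 with h3 | ⟨F, _, _, hF, ⟨e⟩⟩
  · have h4 : ∀ Y : Subgroup S, (4 * Nat.card (MulAut S) * ACD8.kc Y) ^ 8 ≤
        Nat.card S ^ (8 + 1) * Y.index ^ 8 := by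
      intro Y
      apply RadAlt.loc_of_crit
      rcases h3 with ⟨n, hn, ⟨e⟩⟩ | ⟨n, F, _, _, hn, ⟨e⟩⟩
      · exact RadAlt.crit_congr e (ACD8.alt_crit (α := Fin n) (by simpa using hn))
      · exact RadAlt.crit_congr e (ACD8.psl_crit n hn F)
    obtain ⟨h5, h6⟩ := IBR.lc_of_loc h4
    exact ⟨h5, Or.inl h6⟩
  · obtain ⟨h5, h6⟩ := psl2_type F hF
    exact ⟨IBR.lc_congr e h5, Or.inr (IBR.richT_congr e h6)⟩

end Pool.Agent.RadIndex.RI
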