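import Pool.Agent.Work.MP_76dc41_al.RI.Stmts

/-!
# Item CNA: subgroups of finite products of groups, coordinate by coordinate
-/

set_option autoImplicit false

namespace Pool.Agent.RadIndex.RI

open Pool.Agent Pool.Agent.RadIndex Pool.Agent.DC7914

namespace ICNA

section
variable {n : ℕ} {S : Fin n → Type} [∀ i, Group (S i)] (Z : Subgroup (∀ i, S i)) (r : Fin n → ℕ)

/-- elements of `Z` with trivial coordinates at the places of rank at least `m` -/
def T (m : ℕ) : Subgroup (∀ i, S i) where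
  carrier := {z | z ∈ Z ∧ ∀ k, m ≤ r k → z k = 1}
  one_mem' := ⟨Z.one_mem, fun k _ => rfl⟩
  mul_mem' := by
    rintro a b ⟨ha, ha'⟩ ⟨hb, hb'⟩
    exact ⟨Z.mul_mem ha hb, fun k hk => by rw [Pi.mul_apply, ha' k hk, hb' k hk, one_mul]⟩
  inv_mem' := by
    rintro a ⟨ha, ha'⟩
    exact ⟨Z.inv_mem ha, fun k hk => by rw [Pi.inv_apply, ha' k hk, inv_one]⟩

theorem mem_T {m : ℕ} {z : ∀ i, S i} : z ∈ T Z r m ↔ z ∈ Z ∧ ∀ k, m ≤ r k → z k = 1 := Iff.rfl

/-- the `j`-th coordinates of the elements with trivial coordinates of higher rank -/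
def E (j : Fin n) : Subgroup (S j) := (T Z r (r j + 1)).map (Pi.evalMonoidHom S j)

theorem mem_E {j : Fin n} {x : S j} :
    x ∈ E Z r j ↔ ∃ z ∈ Z, (∀ k, r j < r k → z k = 1) ∧ z j = x := by
  constructor
  · rintro ⟨z, ⟨hz, hz'⟩, rfl⟩
    exact ⟨z, hz, hz', rfl⟩
  · rintro ⟨z, hz, hz', rfl⟩
    exact ⟨z, ⟨hz, hz'⟩, rfl⟩

theorem T_le (m : ℕ) : T Z r m ≤ T Z r (m + 1) := by
  rintro z ⟨hz, hz'⟩
  exact ⟨hz, fun k hk => hz' k (by omega)⟩

theorem step [∀ i, Finite (S i)] (hr : Function.Injective r) (m : ℕ) (j : Fin n) (hj : r j = m) :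
    Nat.card (T Z r (m + 1)) = Nat.card (E Z r j) * Nat.card (T Z r m) ∧
      ACD8.kc (T Z r (m + 1)) ≤ ACD8.kc (E Z r j) * ACD8.kc (T Z r m) := by
  subst hj
  let f : T Z r (r j + 1) →* S j := (Pi.evalMonoidHom S j).comp (T Z r (r j + 1)).subtype
  have hker : f.ker = (T Z r (r j)).subgroupOf (T Z r (r j + 1)) := by
    ext z
    rw [MonoidHom.mem_ker, Subgroup.mem_subgroupOf, mem_T]
    constructor
    · intro h
      refine ⟨z.2.1, fun k hk => ?_⟩
      by_cases hkj : k = j
      · subst hkj; exact h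
      · apply z.2.2 k
        have h1 : r k ≠ r j := fun h2 => hkj (hr h2)
        omega
    · rintro ⟨_, h⟩
      exact h j le_rfl
  have hran : f.range = E Z r j := by
    ext x
    rw [MonoidHom.mem_range, mem_E]
    constructor
    · rintro ⟨z, rfl⟩
      exact ⟨z.1, z.2.1, z.2.2, rfl⟩
    · rintro ⟨z, hz, hz', rfl⟩
      exact ⟨⟨z, hz, hz'⟩, rfl⟩
  have e : f.ker ≃* T Z r (r j) :=
    (MulEquiv.subgroupCongr hker).trans (Subgroup.subgroupOfEquivOfLe (T_le Z r (r j)))
  constructor
  · have h1 := Subgroup.card_mul_index f.ker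
    rw [Subgroup.index_ker, hran, Nat.card_congr e.toEquiv] at h1
    rw [← h1, mul_comm]
  · have h1 := ACD8.kc_hom f
    rw [ACD8.kc_congr e, hran] at h1
    rw [mul_comm]
    exact h1

theorem main [∀ i, Finite (S i)] (hr : Function.Injective r) (m : ℕ) :
    Nat.card (T Z r m) = ∏ i ∈ Finset.univ.filter (fun i => r i < m), Nat.card (E Z r i) ∧
      ACD8.kc (T Z r m) ≤ ∏ i ∈ Finset.univ.filter (fun i => r i < m), ACD8.kc (E Z r i) := by
  induction m with
  | zero =>
    have h : T Z r 0 = ⊥ := by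
      rw [eq_bot_iff]
      rintro z ⟨_, hz⟩
      rw [Subgroup.mem_bot]
      funext k
      exact hz k (Nat.zero_le _)
    have h2 : Finset.univ.filter (fun i : Fin n => r i < 0) = ∅ := by
      ext i; simp
    rw [h, h2, Finset.prod_empty, Finset.prod_empty]
    refine ⟨Subgroup.card_bot, ?_⟩
    rw [ACD8.kc_subsingleton]
  | succ m ih =>
    by_cases hj : ∃ j, r j = m
    · obtain ⟨j, hj⟩ := hj
      have h2 : Finset.univ.filter (fun i : Fin n => r i < m + 1) =
          insert j (Finset.univ.filter (fun i : Fin n => r i < m)) := by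
        ext i
        simp only [Finset.mem_filter, Finset.mem_univ, true_and, Finset.mem_insert]
        constructor
        · intro h
          by_cases h3 : r i = m
          · left; exact hr (h3.trans hj.symm)
          · right; omega
        · rintro (rfl | h)
          · omega
          · omega
      have h3 : j ∉ Finset.univ.filter (fun i : Fin n => r i < m) := by
        simp [hj]
      obtain ⟨s1, s2⟩ := step Z r hr m j hj
      rw [h2, Finset.prod_insert h3, Finset.prod_insert h3, s1, ih.1]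
      exact ⟨rfl, s2.trans (Nat.mul_le_mul_left _ ih.2)⟩
    · have h2 : Finset.univ.filter (fun i : Fin n => r i < m + 1) =
          Finset.univ.filter (fun i : Fin n => r i < m) := by
        ext i
        simp only [Finset.mem_filter, Finset.mem_univ, true_and]
        have h3 : r i ≠ m := fun h => hj ⟨i, h⟩
        omega
      have h4 : T Z r (m + 1) = T Z r m := by
        ext z
        rw [mem_T, mem_T]
        constructor
        · rintro ⟨h5, h6⟩
          refine ⟨h5, fun k hk => h6 k ?_⟩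
          have h3 : r k ≠ m := fun h => hj ⟨k, h⟩
          omega
        · rintro ⟨h5, h6⟩
          exact ⟨h5, fun k hk => h6 k (by omega)⟩
      rw [h2, h4]
      exact ih

theorem all [∀ i, Finite (S i)] (hr : Function.Injective r) (hn : ∀ i, r i < n) :
    Nat.card Z = ∏ i, Nat.card (E Z r i) ∧ ACD8.kc Z ≤ ∏ i, ACD8.kc (E Z r i) := by
  have h := main Z r hr n
  have h1 : T Z r n = Z := by
    ext z
    rw [mem_T]
    refine ⟨fun h => h.1, fun h => ⟨h, fun k hk => ?_⟩⟩
    have := hn k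
    omega
  have h2 : Finset.univ.filter (fun i : Fin n => r i < n) = Finset.univ := by
    ext i; simp [hn i]
  rw [h1, h2] at h
  exact h

end

end ICNA

theorem pr_CNA : StCNA := by
  intro n S _ _ Z
  let r : Fin n → ℕ := fun k => (k : ℕ)
  let r' : Fin n → ℕ := fun k => (Fin.rev k : ℕ)
  have hr : Function.Injective r := fun a b h => Fin.ext h
  have hr' : Function.Injective r' := fun a b h => Fin.rev_injective (Fin.ext h)
  obtain ⟨a1, a2⟩ := ICNA.all Z r hr (fun i => i.2)
  obtain ⟨b1, b2⟩ := ICNA.all Z r' hr' (fun i => (Fin.rev i).2)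
  refine ⟨ICNA.E Z r, ICNA.E Z r', a1, b1, a2, b2, ?_⟩
  intro i x hx y hy
  obtain ⟨z, hz, hz', rfl⟩ := (ICNA.mem_E Z r).1 hx
  obtain ⟨w, hw, hw', rfl⟩ := (ICNA.mem_E Z r').1 hy
  have h : Pi.mulSingle i (z i * w i * (z i)⁻¹ * (w i)⁻¹) = z * w * z⁻¹ * w⁻¹ := by
    funext k
    by_cases hk : k = i
    · subst hk
      rw [Pi.mulSingle_eq_same]
      rfl
    · rw [Pi.mulSingle_eq_of_ne hk]
      change 1 = z k * w k * (z k)⁻¹ * (w k)⁻¹
      rcases lt_or_gt_of_ne hk with h1 | h1
      · have h2 : w k = 1 := by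
          apply hw' k
          change ((Fin.rev i : Fin n) : ℕ) < ((Fin.rev k : Fin n) : ℕ)
          rw [Fin.val_rev, Fin.val_rev]
          have h3 : (k : ℕ) < (i : ℕ) := h1
          have := i.2
          omega
        rw [h2]; simp
      · have h2 : z k = 1 := hz' k h1
        rw [h2]; simp
  rw [h]
  exact Z.mul_mem (Z.mul_mem (Z.mul_mem hz hw) (Z.inv_mem hz)) (Z.inv_mem hw)

end Pool.Agent.RadIndex.RI
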