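import Pool.Agent.Work.MP_76dc41_al.RI.Stmts

set_option autoImplicit false

namespace Pool.Agent.RadIndex.RI

open Pool.Agent Pool.Agent.RadIndex

namespace IPA3

variable {F : Type} [Field F]

open Matrix

theorem cu (b : F) : (mu1 b : Matrix (Fin 2) (Fin 2) F) = !![1, b; 0, 1] := rfl

theorem cw : ((mw : Matrix.SpecialLinearGroup (Fin 2) F) : Matrix (Fin 2) (Fin 2) F) =
    !![0, 1; -1, 0] := rfl

theorem ct (a : Fˣ) : (mt a : Matrix (Fin 2) (Fin 2) F) = !![(a : F), 0; 0, ((a⁻¹ : Fˣ) : F)] := rfl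

/-- equality in the projective group -/
theorem pj_eq (x y : SpecialLinearGroup (Fin 2) F) (h : pj x = pj y) :
    ∃ r : F, r ^ 2 = 1 ∧ ∀ i j, (y : Matrix (Fin 2) (Fin 2) F) i j =
      r * (x : Matrix (Fin 2) (Fin 2) F) i j := by
  have h1 : x⁻¹ * y ∈ Subgroup.center (SpecialLinearGroup (Fin 2) F) := QuotientGroup.eq.mp h
  rw [Matrix.SpecialLinearGroup.mem_center_iff] at h1
  obtain ⟨r, hr, hs⟩ := h1
  refine ⟨r, by simpa using hr, ?_⟩
  have h2 : y = x * (x⁻¹ * y) := by group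
  have h3 : (y : Matrix (Fin 2) (Fin 2) F) = (x : Matrix (Fin 2) (Fin 2) F) * scalar (Fin 2) r := by
    rw [hs, ← Matrix.SpecialLinearGroup.coe_mul, ← h2]
  intro i j
  rw [h3]
  fin_cases i <;> fin_cases j <;> simp [Matrix.mul_apply, Fin.sum_univ_two, mul_comm]

/-- the converse, for a sign -/
theorem pj_neg (x y : SpecialLinearGroup (Fin 2) F) (r : F) (hr : r ^ 2 = 1)
    (h : ∀ i j, (y : Matrix (Fin 2) (Fin 2) F) i j =
      r * (x : Matrix (Fin 2) (Fin 2) F) i j) : pj x = pj y := by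
  apply QuotientGroup.eq.mpr
  rw [Matrix.SpecialLinearGroup.mem_center_iff]
  refine ⟨r, by simpa using hr, ?_⟩
  have h3 : (y : Matrix (Fin 2) (Fin 2) F) = (x : Matrix (Fin 2) (Fin 2) F) * scalar (Fin 2) r := by
    ext i j
    rw [h]
    fin_cases i <;> fin_cases j <;> simp [Matrix.mul_apply, Fin.sum_univ_two, mul_comm]
  rw [Matrix.SpecialLinearGroup.coe_mul, h3, ← Matrix.mul_assoc, ← Matrix.SpecialLinearGroup.coe_mul]
  simp

theorem mu1_add (b c : F) : (mu1 (b + c) : SpecialLinearGroup (Fin 2) F) = mu1 b * mu1 c := by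
  ext i j
  fin_cases i <;> fin_cases j <;> simp [cu, Matrix.SpecialLinearGroup.coe_mul, Matrix.mul_apply, Fin.sum_univ_two, add_comm]

theorem mu1_zero : (mu1 (0 : F) : SpecialLinearGroup (Fin 2) F) = 1 := by
  ext i j
  fin_cases i <;> fin_cases j <;> simp [cu]

theorem mu1_nsmul (n : ℕ) (c : F) :
    (mu1 ((n : F) * c) : SpecialLinearGroup (Fin 2) F) = mu1 c ^ n := by
  induction n with
  | zero => simp [mu1_zero]
  | succ n ih =>
    rw [pow_succ, ← ih, ← mu1_add]
    congr 1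
    push_cast
    ring

theorem pj_mu1_zero (c : F) (h : pj (mu1 c) = 1) : c = 0 := by
  obtain ⟨r, hr, h1⟩ := pj_eq 1 (mu1 c) (by rw [h]; rfl)
  have := h1 0 1
  simpa [cu] using this

theorem mt_conj (a : Fˣ) (c : F) :
    (mt a : SpecialLinearGroup (Fin 2) F) * mu1 c = mu1 ((a : F) ^ 2 * c) * mt a := by
  ext i j
  fin_cases i <;> fin_cases j <;> simp [cu, ct, Matrix.SpecialLinearGroup.coe_mul, Matrix.mul_apply, Fin.sum_univ_two]
  field_simp

theorem mt_conj_pow (a : Fˣ) (n : ℕ) :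
    (mt a : SpecialLinearGroup (Fin 2) F) ^ n * mu1 1 * (mt a ^ n)⁻¹ = mu1 (((a : F) ^ 2) ^ n) := by
  induction n with
  | zero => simp
  | succ n ih =>
    have h1 : (mt a : SpecialLinearGroup (Fin 2) F) ^ (n + 1) * mu1 1 * (mt a ^ (n + 1))⁻¹ =
        mt a * (mt a ^ n * mu1 1 * (mt a ^ n)⁻¹) * (mt a)⁻¹ := by
      rw [pow_succ' (mt a : SpecialLinearGroup (Fin 2) F) n]
      group
    rw [h1, ih, mt_conj, mul_inv_cancel_right, pow_succ' ((a : F) ^ 2) n]

theorem w_mt (a : Fˣ) : (mt a : SpecialLinearGroup (Fin 2) F) * mw * mt a = mw := by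
  ext i j
  fin_cases i <;> fin_cases j <;> simp [cw, ct, Matrix.SpecialLinearGroup.coe_mul, Matrix.mul_apply, Fin.sum_univ_two]

/-- the image of the torus generator -/
theorem form (T : SpecialLinearGroup (Fin 2) F)
    (h1 : pj (T * mu1 1 * T⁻¹ * mu1 1) = pj (mu1 1 * (T * mu1 1 * T⁻¹)))
    (h2 : pj (T * mw * T) = pj mw) : ∃ b : Fˣ, T = mt b := by
  have hdet : T 0 0 * T 1 1 - T 0 1 * T 1 0 = 1 := by
    have := T.det_coe
    rwa [Matrix.det_fin_two] at this
  have hg : T 1 0 = 0 := by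
    obtain ⟨r, hr, h3⟩ := pj_eq _ _ h1
    have e10 := h3 1 0
    have e11 := h3 1 1
    simp [cu, Matrix.SpecialLinearGroup.coe_mul, Matrix.SpecialLinearGroup.coe_inv, Matrix.mul_apply, Fin.sum_univ_two, Matrix.adjugate_fin_two] at e10 e11
    by_contra hne
    have hr1 : r = 1 := by
      have : (r - 1) * (T 1 0 * T 1 0) = 0 := by linear_combination e10
      rcases mul_eq_zero.mp this with h | h
      · linear_combination h
      · exact absurd (by simpa using h) hne
    rw [hr1] at e11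
    apply hne
    have : T 1 0 * T 1 0 = 0 := by linear_combination e11
    simpa using this
  have ha : T 0 0 * T 1 1 = 1 := by
    rw [hg] at hdet
    linear_combination hdet
  have hb : T 0 1 = 0 := by
    obtain ⟨r, hr, h3⟩ := pj_eq _ _ h2
    have e00 := h3 0 0
    simp [cw, Matrix.SpecialLinearGroup.coe_mul, Matrix.mul_apply, Fin.sum_univ_two, hg] at e00
    have ha0 : T 0 0 ≠ 0 := left_ne_zero_of_mul_eq_one ha
    have hr0 : r ≠ 0 := by
      rintro rfl
      norm_num at hr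
    rcases e00 with h | h | h
    · exact absurd h hr0
    · exact h
    · exact absurd h ha0
  refine ⟨⟨T 0 0, T 1 1, ha, by rw [mul_comm]; exact ha⟩, ?_⟩
  ext i j
  fin_cases i <;> fin_cases j <;> simp [ct, hg, hb]

theorem card_tor (a b : Fˣ) (h : (a : F) ^ 2 = (b : F) ^ 2) : pj (mt a) = pj (mt b) := by
  have h1 : ((a : F) - b) * ((a : F) + b) = 0 := by linear_combination h
  rcases mul_eq_zero.mp h1 with h2 | h2
  · have : a = b := Units.ext (by linear_combination h2)
    rw [this]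
  · have hab : (b : F) = - a := by linear_combination h2
    apply pj_neg _ _ (-1) (by ring)
    have hb : ((b⁻¹ : Fˣ) : F) = - ((a⁻¹ : Fˣ) : F) := by
      rw [Units.val_inv_eq_inv_val, Units.val_inv_eq_inv_val, hab, inv_neg]
    intro i j
    fin_cases i <;> fin_cases j <;> simp [ct, hab]

open Polynomial in
/-- the relations between conjugates of `u` -/
theorem rel (p : ℕ) [Fact p.Prime] [Algebra (ZMod p) F] (a b : Fˣ)
    (β : MulAut (Matrix.ProjectiveSpecialLinearGroup (Fin 2) F))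
    (hu : β (pj (mu1 (1 : F))) = pj (mu1 (1 : F))) (ht : β (pj (mt a)) = pj (mt b)) :
    ∀ m : (ZMod p)[X], β (pj (mu1 (aeval ((a : F) ^ 2) m))) = pj (mu1 (aeval ((b : F) ^ 2) m)) := by
  have hpow : ∀ n : ℕ, β (pj (mu1 (((a : F) ^ 2) ^ n))) = pj (mu1 (((b : F) ^ 2) ^ n)) := by
    intro n
    rw [← mt_conj_pow, ← mt_conj_pow]
    have h1 : ∀ c : Fˣ, pj (mt c ^ n * mu1 1 * (mt c ^ n)⁻¹) =
        pj (mt c) ^ n * pj (mu1 (1 : F)) * (pj (mt c) ^ n)⁻¹ := fun c => rfl
    rw [h1, h1, map_mul, map_mul, map_inv, map_pow, hu, ht]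
  intro m
  induction m using Polynomial.induction_on' with
  | add f g hf hg =>
    rw [map_add, map_add, mu1_add, mu1_add]
    have h1 : ∀ x y : Matrix.SpecialLinearGroup (Fin 2) F, pj (x * y) = pj x * pj y := fun _ _ => rfl
    rw [h1, h1, map_mul, hf, hg]
  | monomial n k =>
    have hk : ∀ c : F, aeval c (monomial n k) = ((k.val : ℕ) : F) * c ^ n := by
      intro c
      rw [aeval_monomial]
      congr 1
      have : k = ((k.val : ℕ) : ZMod p) := (ZMod.natCast_zmod_val k).symm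
      conv_lhs => rw [this]
      rw [map_natCast]
    rw [hk, hk, mu1_nsmul, mu1_nsmul]
    have h1 : ∀ (x : Matrix.SpecialLinearGroup (Fin 2) F) (n : ℕ), pj (x ^ n) = pj x ^ n :=
      fun _ _ => rfl
    rw [h1, h1, map_pow, hpow]

theorem form' (β : MulAut (Matrix.ProjectiveSpecialLinearGroup (Fin 2) F)) (a : Fˣ)
    (hu : β (pj (mu1 (1 : F))) = pj (mu1 (1 : F))) (hw : β (pj mw) = pj (mw)) :
    ∃ b : Fˣ, β (pj (mt a)) = pj (mt b) := by
  obtain ⟨T, hT⟩ := QuotientGroup.mk_surjective (β (pj (mt a)))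
  have hT' : β (pj (mt a)) = pj T := hT.symm
  have hm : ∀ x y : Matrix.SpecialLinearGroup (Fin 2) F, pj (x * y) = pj x * pj y := fun _ _ => rfl
  have hi : ∀ x : Matrix.SpecialLinearGroup (Fin 2) F, pj (x⁻¹) = (pj x)⁻¹ := fun _ => rfl
  obtain ⟨b, hb⟩ := form T (by
    have h1 : (mt a * mu1 1 * (mt a)⁻¹ * mu1 1 : Matrix.SpecialLinearGroup (Fin 2) F) =
        mu1 1 * (mt a * mu1 1 * (mt a)⁻¹) := by
      rw [mt_conj, mul_inv_cancel_right, ← mu1_add, ← mu1_add, add_comm]
    have h2 := congrArg (fun z => β (pj z)) h1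
    simp only [hm, hi, map_mul, map_inv, hu, hT'] at h2 ⊢
    exact h2) (by
    have h2 := congrArg (fun z => β (pj z)) (w_mt a)
    simp only [hm, map_mul, hw, hT'] at h2 ⊢
    exact h2)
  exact ⟨b, by rw [hT', hb]⟩

end IPA3

theorem pr_PA3 : StPA3 := by
  intro F _ _ a _ _ x y
  classical
  by_cases hex : ∃ α : MulAut (Matrix.ProjectiveSpecialLinearGroup (Fin 2) F),
      α (pj (mu1 (1 : F))) = x ∧ α (pj mw) = y
  swap
  · have : IsEmpty {z : Matrix.ProjectiveSpecialLinearGroup (Fin 2) F //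
      ∃ α : MulAut (Matrix.ProjectiveSpecialLinearGroup (Fin 2) F),
        α (pj (mu1 (1 : F))) = x ∧ α (pj mw) = y ∧ α (pj (mt a)) = z} :=
      ⟨fun z => by
        obtain ⟨z, α, h1, h2, h3⟩ := z
        exact hex ⟨α, h1, h2⟩⟩
    rw [Nat.card_of_isEmpty]
    exact Nat.zero_le _
  obtain ⟨α₀, hx, hy⟩ := hex
  obtain ⟨p, hp⟩ := CharP.exists F
  have hpp : Fact p.Prime := ⟨CharP.char_is_prime F p⟩
  let _ : Algebra (ZMod p) F := ZMod.algebra F p
  have : Fintype F := Fintype.ofFinite F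
  have hfin : Module.Finite (ZMod p) F := Module.Finite.of_finite
  have hint : IsIntegral (ZMod p) ((a : F) ^ 2) := Algebra.IsIntegral.isIntegral _
  set m := minpoly (ZMod p) ((a : F) ^ 2) with hm
  have hm0 : m ≠ 0 := minpoly.ne_zero hint
  set M := m.map (algebraMap (ZMod p) F) with hM
  have hM0 : M ≠ 0 := (Polynomial.map_ne_zero_iff (algebraMap (ZMod p) F).injective).mpr hm0
  -- every member comes from a root
  have key : ∀ z : {z : Matrix.ProjectiveSpecialLinearGroup (Fin 2) F //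
      ∃ α : MulAut (Matrix.ProjectiveSpecialLinearGroup (Fin 2) F),
        α (pj (mu1 (1 : F))) = x ∧ α (pj mw) = y ∧ α (pj (mt a)) = z},
      ∃ b : Fˣ, z.1 = α₀ (pj (mt b)) ∧ (b : F) ^ 2 ∈ M.roots.toFinset := by
    intro z
    obtain ⟨z, α, h1, h2, h3⟩ := z
    have hu : (α₀⁻¹ * α) (pj (mu1 (1 : F))) = pj (mu1 (1 : F)) := by
      rw [MulAut.mul_apply, h1, ← hx, MulAut.inv_apply_self]
    have hw : (α₀⁻¹ * α) (pj mw) = pj (mw : Matrix.SpecialLinearGroup (Fin 2) F) := by
      rw [MulAut.mul_apply, h2, ← hy, MulAut.inv_apply_self]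
    obtain ⟨b, hb⟩ := IPA3.form' (α₀⁻¹ * α) a hu hw
    refine ⟨b, ?_, ?_⟩
    · show z = _
      rw [← h3, ← hb, MulAut.mul_apply, MulAut.apply_inv_self]
    · rw [Multiset.mem_toFinset, Polynomial.mem_roots hM0, Polynomial.IsRoot.def, hM,
        Polynomial.eval_map_algebraMap]
      apply IPA3.pj_mu1_zero
      rw [← IPA3.rel p a b (α₀⁻¹ * α) hu hb m, hm, minpoly.aeval, IPA3.mu1_zero]
      exact map_one _
  choose b hb hr using key
  have hinj : Function.Injective (fun z => (⟨(b z : F) ^ 2, hr z⟩ : M.roots.toFinset)) := by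
    intro z z' h
    apply Subtype.ext
    rw [hb z, hb z']
    congr 1
    exact IPA3.card_tor _ _ (congrArg Subtype.val h)
  have h1 := Nat.card_le_card_of_injective _ hinj
  have h2 : Nat.card M.roots.toFinset ≤ m.natDegree := by
    rw [Nat.card_eq_fintype_card, Fintype.card_coe]
    calc M.roots.toFinset.card ≤ Multiset.card M.roots := Multiset.toFinset_card_le _
      _ ≤ M.natDegree := Polynomial.card_roots' _
      _ = m.natDegree := Polynomial.natDegree_map _
  have h3 : m.natDegree ≤ Module.finrank (ZMod p) F := minpoly.natDegree_le _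
  have h4 : 2 ^ Module.finrank (ZMod p) F ≤ Nat.card F := by
    rw [Module.natCard_eq_pow_finrank (K := ZMod p) (V := F), Nat.card_zmod]
    exact Nat.pow_le_pow_left hpp.out.two_le _
  exact (h1.trans (h2.trans h3)).trans (Nat.le_log_of_pow_le (by norm_num) h4)

end Pool.Agent.RadIndex.RI
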