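import Pool.Agent.Work.MP_76dc41_al.RI.Stmts

/-!
# Rich simple factors, item RPI: products of rich groups
-/

set_option autoImplicit false
set_option linter.unusedSectionVars false

open Module Representation Pool.Agent.DC7914

namespace Pool.Agent.RadIndex.RI

open Pool.Agent Pool.Agent.RadIndex

namespace IRPI

theorem rich_congr {H H' : Type} [Group H] [Group H'] (e : H ≃* H') {τ ζ : ℝ} (h : Rich H τ ζ) :
    Rich H' τ ζ := by
  intro G _ _ N _ _ l ⟨f⟩ hl hinv
  exact h G N l ⟨f.trans e.symm⟩ hl hinv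

theorem rich_one (H : Type) [Group H] [Subsingleton H] : Rich H 1 1 := by
  intro G _ _ N _ _ l ⟨f⟩ hl hinv
  obtain ⟨-, h2, h3, -, -⟩ := prf_BLOCK G N l hl
  have horb : (orb N l).card = 1 := by
    rw [Finset.card_eq_one]
    refine ⟨l, ?_⟩
    ext m
    rw [mem_orb, Finset.mem_singleton]
    constructor
    · rintro ⟨g, rfl⟩
      exact hinv g
    · rintro rfl
      exact ⟨1, hinv 1⟩
  have hsub : Subsingleton (G ⧸ N) := f.toEquiv.subsingleton
  have hcard : Nat.card (G ⧸ N) = 1 := Nat.card_of_subsingleton 1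
  have hcc : Nat.card (ConjClasses (G ⧸ N)) = 1 := by
    have hsub2 : Subsingleton (ConjClasses (G ⧸ N)) := by
      refine ⟨fun a b => ?_⟩
      obtain ⟨x, rfl⟩ := ConjClasses.exists_rep a
      obtain ⟨y, rfl⟩ := ConjClasses.exists_rep b
      rw [Subsingleton.elim x y]
    exact Nat.card_of_subsingleton (ConjClasses.mk 1)
  rw [horb, hcard] at h2
  rw [horb, hcc, mul_one] at h3
  have hl1 : (0 : ℝ) < ‖l 1‖ := lt_of_lt_of_le one_pos (one_le_deg hl)
  have hne : (ovr N l).card = 1 := by
    rcases Nat.lt_or_ge (ovr N l).card 1 with h | h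
    · have h0 : ovr N l = ∅ := by
        rw [← Finset.card_eq_zero]
        omega
      rw [h0, Finset.sum_empty] at h2
      have : (0 : ℝ) < ‖l 1‖ ^ 2 := by positivity
      simp at h2
      rw [h2] at hl1
      simp at hl1
    · omega
  obtain ⟨χ, hχ⟩ := Finset.card_eq_one.1 hne
  rw [hχ, Finset.sum_singleton] at h2
  rw [hχ, Finset.sum_singleton, Finset.sum_singleton]
  have heq : ‖χ 1‖ = ‖l 1‖ := by
    have h4 : ‖χ 1‖ ^ 2 = ‖l 1‖ ^ 2 := by
      rw [← h2]
      push_cast
      ring
    exact (pow_left_inj₀ (norm_nonneg _) (norm_nonneg _) two_ne_zero).1 h4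
  rw [heq, one_mul]
  exact ⟨le_rfl, (div_self hl1.ne').le⟩

theorem main (hPRD : StPRD) : ∀ (ι : Type) [Finite ι] [Fintype ι] (S : ι → Type)
    [∀ i, Group (S i)] [∀ i, Finite (S i)]
    (τ ζ : ι → ℝ), (∀ i, 0 < τ i) → (∀ i, 0 < ζ i) → (∀ i, ∀ f : S i →* ℂˣ, f = 1) →
    (∀ i, Rich (S i) (τ i) (ζ i)) → Rich (∀ i, S i) (∏ i, τ i) (∏ i, ζ i) := by
  intro ι _
  induction ι using Finite.induction_empty_option with
  | @of_equiv α β e ih =>
    intro _ S _ _ τ ζ hτ hζ hp hr
    have _ : Finite α := Finite.of_equiv β e.symm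
    let _ : Fintype α := Fintype.ofFinite α
    have h1 := ih (fun a => S (e a)) (fun a => τ (e a)) (fun a => ζ (e a)) (fun a => hτ _)
      (fun a => hζ _) (fun a => hp _) (fun a => hr _)
    let E' : (∀ b, S b) ≃* (∀ a, S (e a)) :=
      { (Equiv.piCongrLeft S e).symm with
        map_mul' := fun x y => rfl }
    have h2 := rich_congr E'.symm h1
    rw [Equiv.prod_comp e τ, Equiv.prod_comp e ζ] at h2
    exact h2
  | h_empty =>
    intro _ S _ _ τ ζ _ _ _ _
    rw [Finset.univ_eq_empty, Finset.prod_empty, Finset.prod_empty]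
    exact rich_one _
  | @h_option α _ ih =>
    intro inst S _ _ τ ζ hτ hζ hp hr
    let _ : Fintype α := Fintype.ofFinite α
    obtain rfl : inst = instFintypeOption := Subsingleton.elim _ _
    have h1 := ih (fun a => S (some a)) (fun a => τ (some a)) (fun a => ζ (some a))
      (fun a => hτ _) (fun a => hζ _) (fun a => hp _) (fun a => hr _)
    have h2 := hPRD (S none) (∀ a, S (some a)) (τ none) (∏ a, τ (some a)) (ζ none)
      (∏ a, ζ (some a)) (hτ none) (Finset.prod_pos fun a _ => hτ _) (hζ none)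
      (Finset.prod_pos fun a _ => hζ _) (hp none) (hr none) h1
    let E : (S none × (∀ a, S (some a))) ≃* (∀ a, S a) :=
      { toFun := fun x => fun a => match a with
          | none => x.1
          | some a => x.2 a
        invFun := fun x => (x none, fun a => x (some a))
        left_inv := fun x => rfl
        right_inv := fun x => funext fun a => by cases a <;> rfl
        map_mul' := fun x y => funext fun a => by cases a <;> rfl }
    have h3 := rich_congr E h2
    rw [Fintype.prod_option, Fintype.prod_option]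
    exact h3

end IRPI

theorem pr_RPI (hPRD : StPRD) : StRPI := by
  intro ι _ S _ _ τ ζ hτ hζ hp hr
  exact IRPI.main hPRD ι S τ ζ hτ hζ hp hr

end Pool.Agent.RadIndex.RI
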