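import Pool.Agent.Work.MP_76dc41_al.H8.Fin4
import Pool.Agent.Work.MP_76dc41_al.Bd.B05
import Pool.Agent.Work.MP_76dc41_al.Bd.B06

/-!
# Rich simple factors: definitions and statements

All statements use the definitions of `Bd/B01.lean`, `Bd/B04.lean` (`irrs`, `ovr`, `down`, `cj`,
`orb`, `mu`, `IsIrrChar`) and of `H8` (`ACD8.kc`, `ACD8.TrivRad`). The proved statements of
`Bd/B04.lean` (`prf_BLOCK`, `prf_TRANS`, `prf_ORB`, `prf_EONE`, `prf_CORE`, `prf_ONE`, `prf_DEG`,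
see `Pf/Final.lean` for how they are obtained) may be used freely.
-/

set_option autoImplicit false
set_option linter.unusedSectionVars false

open Module Representation Pool.Agent.DC7914

namespace Pool.Agent.RadIndex.RI

open Pool.Agent Pool.Agent.RadIndex

/-! ## Definitions -/

/-- For all finite `G` with `G / N` isomorphic to `S` and all `G`-invariant irreducible characters
`l` of `N`: the sum of the relative degrees of the characters over `l` is at least `τ`, the sum of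
their inverses is at most `ζ`. -/
def Rich (S : Type) [Group S] (τ ζ : ℝ) : Prop :=
  ∀ (G : Type) [Group G] [Fintype G] (N : Subgroup G) [N.Normal] [Fintype N] (l : N → ℂ),
    Nonempty (G ⧸ N ≃* S) → IsIrrChar l → (∀ g : G, cj g l = l) →
    τ * ‖l 1‖ ≤ ∑ χ ∈ ovr N l, ‖χ 1‖ ∧ ∑ χ ∈ ovr N l, ‖l 1‖ / ‖χ 1‖ ≤ ζ

/-- bounds for the class numbers of the proper subgroups, and a weak bound for `S` itself -/
def Lc (s t r : ℕ) (S : Type) [Group S] : Prop :=
  (∀ Y : Subgroup S, Y ≠ ⊤ →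
    (4 * Nat.card (MulAut S) * ACD8.kc Y) ^ s ≤ Nat.card S ^ (s + r) * Y.index ^ t) ∧
  ((4 * Nat.card (MulAut S)) ^ 2 * ACD8.kc S) ^ s ≤ Nat.card S ^ (2 * s + 2 * r + t)

/-- `S` has few classes -/
def Few (s r : ℕ) (S : Type) [Group S] : Prop :=
  (4 * Nat.card (MulAut S) * ACD8.kc S) ^ s ≤ Nat.card S ^ (s + r)

/-- `S` has many projective characters, few of them of small degree -/
def RichT (s t : ℕ) (S : Type) [Group S] : Prop :=
  ∃ τ ζ : ℝ, 0 < τ ∧ 0 < ζ ∧ Rich S τ ζ ∧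
    16 ^ (2 * t + s) * (4 * (Nat.card (MulAut S) : ℝ)) ^ (8 * s) * ζ ^ (2 * (2 * t + s)) *
      (Nat.card S : ℝ) ^ (3 * s - 2 * t) ≤
    (Nat.card S : ℝ) ^ (8 * s) * τ ^ (2 * (3 * s - 2 * t))

/-- the simple subnormal subgroups -/
def SS (H : Type) [Group H] : Type := {S : Subgroup H // S.IsSubnormal ∧ IsSimpleGroup S}

noncomputable instance (H : Type) [Group H] [Finite H] : Fintype (SS H) :=
  @Fintype.ofFinite _ (Subtype.finite)

/-- the subgroup generated by the simple subnormal subgroups -/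
def soc (H : Type) [Group H] : Subgroup H := ⨆ S : SS H, S.1

/-! ## Characters -/

/-- STB (EASY-MEDIUM). The number of characters over `l` is at most the class number of the
stabiliser of `l` in `G / N`, whose index is the length of the orbit. Proof: translation of
`ACD8.card_fib_le_stab` and `ACD8.card_cst_eq` (`H8/Stab.lean`): `IsIrrChar` and `ACD8.IrrC` are the
same predicate, `cj` is the same function, `K = ACD8.stq N θ`; `mu χ l ≠ 0` iff
`ACD8.mu N χ θ ≠ 0` (the values differ by the factor `|N|`), so `ovr N l` is the image of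
`ACD8.fib N (ACD8.cst N χ₀)` for any `χ₀` over `l` (`ACD8.cst_eq`; if `ovr N l` is empty the bound
is trivial, `kc > 0`, but it is never empty) and `orb N l` is the image of `ACD8.cst N χ₀`
(`ACD8.clifford_conn`). The index can also be had from the orbit-stabiliser theorem directly. -/
def StSTB : Prop :=
  ∀ (G : Type) [Group G] [Fintype G] (N : Subgroup G) [N.Normal] [Fintype N] (l : N → ℂ),
    IsIrrChar l → ∃ K : Subgroup (G ⧸ N),
      (∀ g : G, (QuotientGroup.mk g : G ⧸ N) ∈ K ↔ cj g l = l) ∧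
      K.index = (orb N l).card ∧ (ovr N l).card ≤ ACD8.kc K

/-- CLI (MEDIUM-HARD). Clifford correspondence for the stabiliser `L` of `l`. Proof: for `χ` over
`l` the multiplicity of `l` in `χ` restricted to `N` is `e(χ)` and `χ(1) = |G:L| e(χ) l(1)` (all
conjugates have the same multiplicity, `char_data` or `ACD8.dg_formula`). For `ψ` irreducible on `L`
over `l`: `ψ` restricted to `N` is `e(ψ) l`, `ψ(1) = e(ψ) l(1)` (`S_ISO`). If `ψ` over `l` is a
constituent of `χ` restricted to `L`, then `e(ψ) ≤ e(χ)`, and by Frobenius reciprocity `χ` is a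
constituent of the induced character of degree `|G:L| ψ(1)`, so `e(χ) ≤ e(ψ)`: equality, the induced
character is `χ`, and `ψ` is the only constituent over `l`, with multiplicity one. This gives a
bijection between the two sets (each `χ` over `l` has a constituent `ψ` over `l`, and each `ψ` lies
under some `χ`, which is over `l`), with `χ(1) = |G:L| ψ(1)`. Alternative without induction: both
numbers are dimensions of spaces of class functions (`prf_WOB`), restriction `f ↦` the part of `f`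
on `L` over `l` is an isomorphism; any proof is fine. -/
def StCLI : Prop :=
  ∀ (G : Type) [Group G] [Fintype G] (N : Subgroup G) [N.Normal] [Fintype N] (L : Subgroup G)
    [Fintype L] [Fintype (N.subgroupOf L)] (h : N ≤ L) (l : N → ℂ), IsIrrChar l →
    (∀ g : G, g ∈ L ↔ cj g l = l) →
    (ovr N l).card = (ovr (N.subgroupOf L) (down h l)).card ∧
    ∑ χ ∈ ovr N l, ‖χ 1‖ = L.index * ∑ ψ ∈ ovr (N.subgroupOf L) (down h l), ‖ψ 1‖

/-- SUM (MEDIUM). Let `l` be `G`-invariant. Each `χ` over `l` lies over exactly one `G`-orbit of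
characters `φ` of `A`, and all members of the orbit lie over `l`: by `prf_TRANS` and `prf_ORB` (used
for `A`) and because `mu (cj g φ) (down h l) = mu φ (down h l)` for the `G`-invariant `l`.
Count the pairs. -/
def StSUM : Prop :=
  ∀ (G : Type) [Group G] [Fintype G] (N A : Subgroup G) [N.Normal] [A.Normal] [Fintype N]
    [Fintype A] [Fintype (N.subgroupOf A)] (h : N ≤ A) (l : N → ℂ), IsIrrChar l →
    (∀ g : G, cj g l = l) → ∀ f : (G → ℂ) → ℝ,
    ∑ χ ∈ ovr N l, f χ = ∑ φ ∈ ovr (N.subgroupOf A) (down h l),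
      (∑ χ ∈ ovr A φ, f χ) / ((orb A φ).card : ℝ)

/-- FIX (EASY-MEDIUM). The elements of `B` fix the characters of `A` over `l`. Proof: `prf_CORE`
(`S_CORE`) for the group `A`, its subgroup `N.subgroupOf A` and the automorphism `β` = conjugation
by `b` on `A`: `a (b a b⁻¹)⁻¹` is in `A ⊓ B ≤ N`, `β` fixes `down h l`; so `X τ(a) X⁻¹ = τ(β a)` and
the characters agree. (This is also the first step of `prf_EONE`.) -/
def StFIX : Prop :=
  ∀ (G : Type) [Group G] [Fintype G] (N A B : Subgroup G) [N.Normal] [A.Normal] [B.Normal]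
    [Fintype N] [Fintype A] [Fintype (N.subgroupOf A)] (h : N ≤ A) (_ : A ⊓ B ≤ N)
    (_ : ∀ f : A →* ℂˣ, (∀ n : A, (n : G) ∈ N → f n = 1) → f = 1) (l : N → ℂ), IsIrrChar l →
    (∀ g : G, cj g l = l) → ∀ φ ∈ ovr (N.subgroupOf A) (down h l), ∀ b ∈ B, cj b φ = φ

/-- FIB (MEDIUM, group theory). `K` contains the image of `B`, which is a normal subgroup of `K`
isomorphic to `B / N` (as `A ⊓ B = N`), and the quotient embeds in `G / (A ⊔ B)`; use
`ACD8.kc_quot` (or `ACD8.kc_hom`) and `ACD8.kc_congr`. -/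
def StFIB : Prop :=
  ∀ (G : Type) [Group G] [Finite G] (N A B : Subgroup G) [N.Normal] [A.Normal] [B.Normal],
    N ≤ A → N ≤ B → A ⊓ B ≤ N → ∀ κ : ℕ, (∀ V : Subgroup (G ⧸ (A ⊔ B)), ACD8.kc V ≤ κ) →
    ∀ K : Subgroup (G ⧸ A), (∀ b ∈ B, (QuotientGroup.mk b : G ⧸ A) ∈ K) →
    ACD8.kc K ≤ ACD8.kc (B ⧸ N.subgroupOf B) * κ

/-- LM (MEDIUM), from STB, SUM, FIX, FIB and `prf_BLOCK`. Put `Z = B / N`, `k = kc Z`, and for `φ`
in `Φ = ovr (N.subgroupOf A) (down hA l)`: `c` = number of characters over `φ`, `y` = sum of their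
degrees, `o` = length of the orbit of `φ`, `W = G / A`. STB, FIX, FIB: `c ≤ k κ`, and
`|Z| o ≤ |W|` (the stabiliser contains the image of `B`, which is isomorphic to `Z`). BLOCK: each
character over `φ` has degree at least `o φ(1)`, and `Σ χ(1)^2 = o |W| φ(1)^2`, so
`y ≥ (o |W|)^(1/2) φ(1)`; hence `y ≥ o |Z|^(1/2) φ(1)`, `y ≥ |W|^(1/2) φ(1)`, `y ≥ c φ(1)`.
First claim: SUM with `f χ = ‖χ 1‖`. Second claim: BLOCK for `N` and the invariant `l`.
Third claim: SUM with `f = 1`: the number is `Σ_φ c / o`. If `φ(1) ≥ X l(1)`: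
`R φ(1) c ≤ y` (if `R ≤ 1` from `y ≥ c φ(1)`, else from `c ≤ k κ`, `y ≥ |W|^(1/2) φ(1)`), so
`c / o ≤ (y / o) / (l(1) X R)`, and `Σ_φ y / o = Σ ‖χ 1‖` (SUM). If `φ(1) < X l(1)`:
`c / o ≤ k κ ≤ k κ X l(1) / φ(1)`. -/
def StLM : Prop :=
  ∀ (G : Type) [Group G] [Fintype G] (N A B : Subgroup G) [N.Normal] [A.Normal] [B.Normal]
    [Fintype N] [Fintype A] [Fintype (N.subgroupOf A)] (hA : N ≤ A) (_ : N ≤ B) (_ : A ⊓ B ≤ N)
    (_ : ∀ f : A →* ℂˣ, (∀ n : A, (n : G) ∈ N → f n = 1) → f = 1) (κ : ℕ)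
    (_ : ∀ V : Subgroup (G ⧸ (A ⊔ B)), ACD8.kc V ≤ κ) (l : N → ℂ), IsIrrChar l →
    (∀ g : G, cj g l = l) → ∀ τ ζ : ℝ,
    τ * ‖l 1‖ ≤ ∑ φ ∈ ovr (N.subgroupOf A) (down hA l), ‖φ 1‖ →
    ∑ φ ∈ ovr (N.subgroupOf A) (down hA l), ‖l 1‖ / ‖φ 1‖ ≤ ζ →
    Real.sqrt (Nat.card (B ⧸ N.subgroupOf B)) * τ * ‖l 1‖ ≤ ∑ χ ∈ ovr N l, ‖χ 1‖ ∧
    Real.sqrt (Nat.card (G ⧸ N)) * ‖l 1‖ ≤ ∑ χ ∈ ovr N l, ‖χ 1‖ ∧
    ∀ X R : ℝ, 0 < X → 0 < R →
      (R ≤ 1 ∨ R * ((ACD8.kc (B ⧸ N.subgroupOf B) : ℝ) * κ) ≤ Real.sqrt (Nat.card (G ⧸ A))) →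
      ((ovr N l).card : ℝ) ≤ (∑ χ ∈ ovr N l, ‖χ 1‖) / (‖l 1‖ * X * R) +
        (ACD8.kc (B ⧸ N.subgroupOf B) : ℝ) * κ * X * ζ

/-- PRD (MEDIUM), from SUM and FIX. Let `G / N` be isomorphic to `H₁ × H₂`, `A` and `B` the
preimages of the two factors, `l` invariant. Each `η` over `l` on `A` is `G`-invariant (FIX for `B`,
and `A` fixes its own characters; `G = A B`), so its orbit has length one, and `G / A ≅ H₂`: apply
`Rich H₂` to `(G, A, η)` and `Rich H₁` to `(A, N.subgroupOf A, down h l)`, and add over `η` by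
SUM: `Σ_χ χ(1) = Σ_η Σ_(χ over η) χ(1) ≥ Σ_η τ₂ η(1) ≥ τ₁ τ₂ l(1)`,
`Σ_χ l(1)/χ(1) = Σ_η (l(1)/η(1)) Σ_(χ over η) η(1)/χ(1) ≤ ζ₁ ζ₂`. Compare `prf_STEP`. -/
def StPRD : Prop :=
  ∀ (H₁ H₂ : Type) [Group H₁] [Group H₂] [Finite H₁] [Finite H₂] (τ₁ τ₂ ζ₁ ζ₂ : ℝ), 0 < τ₁ →
    0 < τ₂ → 0 < ζ₁ → 0 < ζ₂ → (∀ f : H₁ →* ℂˣ, f = 1) → Rich H₁ τ₁ ζ₁ → Rich H₂ τ₂ ζ₂ →
    Rich (H₁ × H₂) (τ₁ * τ₂) (ζ₁ * ζ₂)

/-- RPI (EASY-MEDIUM), from PRD: induction over the number of factors (compare `PB_pi` in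
`Bd/B05.lean`). For no factor: `G = N`, `ovr N l` has only the one element `l`, `τ = ζ = 1`. -/
def StRPI : Prop :=
  ∀ (ι : Type) [Fintype ι] (S : ι → Type) [∀ i, Group (S i)] [∀ i, Finite (S i)]
    (τ ζ : ι → ℝ), (∀ i, 0 < τ i) → (∀ i, 0 < ζ i) → (∀ i, ∀ f : S i →* ℂˣ, f = 1) →
    (∀ i, Rich (S i) (τ i) (ζ i)) → Rich (∀ i, S i) (∏ i, τ i) (∏ i, ζ i)

/-! ## Numbers -/

/-- NUM (MEDIUM, real numbers). Put `p = 2t+s`, `e = (3s-2t)/p` in `[0,1]`, so `2 - (1 - e) = 4s/p`,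
`R₁ = sqrt(h/(i f)) / K`, `R = R₁^e` (so `R ≤ 1` or `R ≤ R₁`), `X = 2 q/(i R)`. Then
`q D ≤ q T/(X R) + q K X ζ = i T/2 + 2 q^2 K ζ/(i R)`, and `4 q^2 K ζ ≤ i^2 R T` because
`T ≥ (sqrt z τ)^e (sqrt(h/i))^(1-e)`, `q^2 = sqrt h`: the claim
`4 K^(4s/p) ζ f^(e/2) ≤ i^(3/2) z^(e/2) τ^e` is the hypothesis to the power `1/(2p)`. -/
def StNUM : Prop :=
  ∀ (s t : ℕ), 0 < s → s ≤ 2 * t → 2 * t ≤ 3 * s → ∀ (h i f z K τ ζ D T q : ℝ), 1 ≤ h → 1 ≤ i →
    1 ≤ f → 1 ≤ z → 1 ≤ K → 0 < τ → 0 < ζ → 0 ≤ D → 0 ≤ T → 0 < q → q ^ 4 = h →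
    16 ^ (2 * t + s) * K ^ (8 * s) * ζ ^ (2 * (2 * t + s)) * f ^ (3 * s - 2 * t) ≤
      i ^ (3 * (2 * t + s)) * z ^ (3 * s - 2 * t) * τ ^ (2 * (3 * s - 2 * t)) →
    Real.sqrt z * τ ≤ T → Real.sqrt (h / i) ≤ T →
    (∀ X R : ℝ, 0 < X → 0 < R → (R ≤ 1 ∨ R * K ≤ Real.sqrt (h / (i * f))) →
      D ≤ T / (X * R) + K * X * ζ) →
    q * D ≤ i * T

/-- NU0 (EASY). If `T < q c` then `i < q` (from `i c ≤ T`) and
`(h i)^s ≤ T^(2s) < q^(2s) k^(2s) ≤ q^(2s) h^(2r) i^(2t)`, so
`q^(4s) = h^s < q^(2s) q^(8r) q^(2t-s) ≤ q^(4s)`. -/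
def StNU0 : Prop :=
  ∀ (s t r : ℕ), 0 < s → s ≤ 2 * t → 8 * r + 2 * t ≤ 3 * s → ∀ (h i k c T q : ℝ), 1 ≤ h → 1 ≤ i →
    1 ≤ c → 0 < q → q ^ 4 = h → i * c ≤ T → h * i ≤ T ^ 2 → c ≤ k → k ^ s ≤ h ^ r * i ^ t →
    q * c ≤ T

/-- ACB (EASY-MEDIUM). If the average degree over each `l` is at least `β`, then `acd G ≥ β`:
compare `prf_ACD` in `Bd/B06.lean` (the blocks `ovr N l` cover all irreducible characters and two
blocks are equal or disjoint, `prf_ORB`); `RadAlt.acd` is `ACD8.acd` (`RadAlt.acd_eq`) and the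
same average (`Irr` and `IsIrrChar` are the same predicate). -/
def StACB : Prop :=
  ∀ (G : Type) [Group G] [Fintype G] (N : Subgroup G) [N.Normal] [Fintype N] (β : ℝ), 0 ≤ β →
    (∀ l : N → ℂ, IsIrrChar l → β * ((ovr N l).card : ℝ) ≤ ∑ χ ∈ ovr N l, ‖χ 1‖) →
    β ≤ RadAlt.acd G

/-- INV (MEDIUM), from LM, NUM, RPI. Let `l` be invariant, `A`, `B` the preimages in `G` of the
disjoint normal subgroups `F`, `Z` of `G / N`, `F` a product of perfect rich groups. `Rich` for the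
product (RPI), applied to `(A, N.subgroupOf A, down h l)`, gives the two hypotheses of LM with
`τ = ∏ τ i`, `ζ = ∏ ζ i`; apply NUM with `h = i |G/N|`, `f = |F|`, `z = |Z|`, `K = κ kc Z`,
`D` = number of characters over `l`, `T = Σ χ(1) / l(1)`: `h / i = |G/N|`, `h/(i f) = |G / A|`. If
`κ = 0` there is nothing to do (`κ ≥ kc ⊥ ≥ 1`). -/
def StINV : Prop :=
  ∀ (s t : ℕ), 0 < s → s ≤ 2 * t → 2 * t ≤ 3 * s → ∀ (G : Type) [Group G] [Fintype G]
    (N : Subgroup G) [N.Normal] [Fintype N] (l : N → ℂ), IsIrrChar l → (∀ g : G, cj g l = l) →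
    ∀ (F Z : Subgroup (G ⧸ N)) [F.Normal] [Z.Normal], Disjoint F Z →
    ∀ (ι : Type) [Fintype ι] (S : ι → Type) [∀ i, Group (S i)] [∀ i, Finite (S i)],
    Nonempty (F ≃* (∀ i, S i)) → (∀ i, ∀ f : S i →* ℂˣ, f = 1) →
    ∀ (τ ζ : ι → ℝ), (∀ i, 0 < τ i) → (∀ i, 0 < ζ i) → (∀ i, Rich (S i) (τ i) (ζ i)) →
    ∀ κ : ℕ, (∀ V : Subgroup ((G ⧸ N) ⧸ (F ⊔ Z)), ACD8.kc V ≤ κ) → ∀ i q : ℝ, 1 ≤ i → 0 < q →
    q ^ 4 = i * Nat.card (G ⧸ N) →
    16 ^ (2 * t + s) * ((κ : ℝ) * ACD8.kc Z) ^ (8 * s) * (∏ j, ζ j) ^ (2 * (2 * t + s)) *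
        (Nat.card F : ℝ) ^ (3 * s - 2 * t) ≤
      i ^ (3 * (2 * t + s)) * (Nat.card Z : ℝ) ^ (3 * s - 2 * t) *
        (∏ j, τ j) ^ (2 * (3 * s - 2 * t)) →
    q * ((ovr N l).card : ℝ) * ‖l 1‖ ≤ i * ∑ χ ∈ ovr N l, ‖χ 1‖

/-! ## Groups with trivial solvable radical -/

/-- WIE (MEDIUM; Wielandt). Strong induction over `|H|`. If `T = ⊤` then `S ≤ T`. If `S = ⊤` then
`T` is subnormal in the simple group `H`, so `T = ⊤` or `T = ⊥`. Otherwise let `T ≤ T₁`, `T₁` normal
in `H`, `T₁ ≠ ⊤`, `T` subnormal in `T₁`, and `S ≤ N₁`, `N₁` normal, `N₁ ≠ ⊤` (first steps of the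
subnormal chains). If `S ≤ T₁`: induction in `T₁`. If not, `S ⊓ T₁` is normal in `S`, so trivial.
Induction in `N₁` for `S` and `N₁ ⊓ T₁`: since `S` is not contained in `T₁`, `S` commutes with
`N₁ ⊓ T₁`. As `⁅S, T₁⁆ ≤ N₁ ⊓ T₁`, `⁅⁅S, T₁⁆, S⁆ = 1` and `⁅⁅T₁, S⁆, S⁆ = 1`, so
`⁅⁅S, S⁆, T₁⁆ = 1` (three subgroups lemma) and `⁅S, S⁆ = S`. -/
def StWIE : Prop :=
  ∀ (H : Type) [Group H] [Finite H] (S T : Subgroup H), S.IsSubnormal → T.IsSubnormal →
    IsSimpleGroup S → ¬ Group.IsSolvable S → S ≤ T ∨ ∀ x ∈ S, ∀ y ∈ T, x * y = y * x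

/-- NSL (MEDIUM), from WIE. In a group with trivial solvable radical a simple subnormal subgroup
is not solvable. Proof by induction over `|H|`: if `S` is solvable and simple, it is cyclic of prime
order `p` and subnormal, so its normal closure is a `p`-group (a subnormal `p`-subgroup lies in
the largest normal `p`-subgroup: induction along the chain), a solvable normal subgroup,
contradiction. (Any proof; for instance: let `S` be subnormal in a normal `N ≠ ⊤`; `TrivRad N` by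
`ACD8.trivRad_normal`; induction.) Indeed the induction along the first step of the chain is
enough: `S = ⊤` is excluded as `TrivRad H` would give `⊤ = ⊥`. -/
def StNSL : Prop :=
  ∀ (H : Type) [Group H] [Finite H], ACD8.TrivRad H → ∀ S : Subgroup H, S.IsSubnormal →
    IsSimpleGroup S → ¬ Group.IsSolvable S

/-- SOC (MEDIUM), from WIE, NSL. Distinct members commute: by WIE otherwise `S ≤ T` and `T ≤ S`
(a simple group has no proper nontrivial subnormal subgroup; `S` is subnormal in `T`).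
Independence: `S ⊓ ⨆ (others)` commutes with `S`, and the centre of `S` is trivial. `soc H` is normal
because conjugation permutes `SS H`. Its centraliser `C` is normal and `TrivRad C`
(`ACD8.trivRad_normal`); if `C ≠ ⊥` it contains a simple subnormal subgroup of `C`
(`ACD8.exists_min`, `ACD8.min_simple`, `ACD8.min_subnormal`), which is subnormal in `H`, so is
contained in `soc H` and in its centraliser, so is abelian: contradiction. -/
def StSOC : Prop :=
  ∀ (H : Type) [Group H] [Finite H], ACD8.TrivRad H →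
    (∀ S T : SS H, S ≠ T → ∀ x ∈ S.1, ∀ y ∈ T.1, x * y = y * x) ∧
    iSupIndep (fun S : SS H => S.1) ∧ (soc H).Normal ∧
    Subgroup.centralizer (soc H : Set H) = ⊥ ∧
    ∀ (S : SS H) (g : H), ∃ T : SS H, T.1 = S.1.map (MulAut.conj g).toMonoidHom

/-- IPR (EASY-MEDIUM). Internal direct products: a commuting independent family gives
`⨆ S i ≅ ∏ S i` (`Subgroup.noncommPiCoprod`, see `pi_equiv` in `H8/Phi.lean`), and the part of the
family in `J` and the rest meet trivially. -/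
def StIPR : Prop :=
  ∀ (H : Type) [Group H] [Finite H] (ι : Type) [Fintype ι] (S : ι → Subgroup H),
    (∀ i j, i ≠ j → ∀ x ∈ S i, ∀ y ∈ S j, x * y = y * x) → iSupIndep S →
    ∀ J : ι → Prop, Nonempty ((⨆ i : {i // J i}, S i.1 : Subgroup H) ≃* (∀ i : {i // J i}, S i.1)) ∧
      Disjoint (⨆ i : {i // J i}, S i.1) (⨆ i : {i // ¬ J i}, S i.1) ∧
      (∀ x ∈ (⨆ i : {i // J i}, S i.1), ∀ y ∈ (⨆ i : {i // ¬ J i}, S i.1), x * y = y * x) ∧
      (⨆ i : {i // J i}, S i.1) ⊔ (⨆ i : {i // ¬ J i}, S i.1) = ⨆ i, S i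

/-- OUT (MEDIUM), from SOC, IPR. `H` acts on `SS H` by conjugation; the kernel `K` contains `soc H`
and embeds in `∏ Aut(S)` because the centraliser of `soc H` is trivial, so
`|K| ≤ ∏ |Aut S|`. For `V ≤ H / M`: the action on `SS H` is trivial on `M`, gives
`V → Perm (SS H)` with kernel of order at most `|K / M|`; `kc V ≤ |K/M| 4^n`
(`ACD8.kc_hom`, `ACD8.kr_all`, `ACD8.kc_le_card`), `n` = number of elements of `SS H`. Compare
`ACD8.card_ker_le` and `ACD8.pr_perm`. -/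
def StOUT : Prop :=
  ∀ (H : Type) [Group H] [Finite H], ACD8.TrivRad H → ∀ (M : Subgroup H) [M.Normal], M = soc H →
    ∀ V : Subgroup (H ⧸ M),
      ACD8.kc V * Nat.card M ≤ ∏ S : SS H, (4 * Nat.card (MulAut S.1))

/-- CNA (MEDIUM), the combinatorial core of CNT, on an external product over `Fin n`. For
`Z ≤ ∏ S j` let `E j` be the set of the `j`-th coordinates of the elements of `Z` whose coordinates
`> j` are trivial, `E' j` the same with the coordinates `< j` trivial. Both are subgroups of `S j`;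
`|Z| = ∏ |E j| = ∏ |E' j|`, `kc Z ≤ ∏ kc (E j)`, `kc Z ≤ ∏ kc (E' j)` (successive
`kc_quot`); for `x` in `E j`, `y` in `E' j` the element with `j`-th coordinate `x y x⁻¹ y⁻¹` and the
other coordinates `1` is in `Z` (commutator of the two witnesses). Induction over `n`
(split off the last, resp. the first coordinate). -/
def StCNA : Prop :=
  ∀ (n : ℕ) (S : Fin n → Type) [∀ i, Group (S i)] [∀ i, Finite (S i)] (Z : Subgroup (∀ i, S i)),
    ∃ E E' : ∀ i, Subgroup (S i), Nat.card Z = ∏ i, Nat.card (E i) ∧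
      Nat.card Z = ∏ i, Nat.card (E' i) ∧ ACD8.kc Z ≤ ∏ i, ACD8.kc (E i) ∧
      ACD8.kc Z ≤ ∏ i, ACD8.kc (E' i) ∧
      ∀ i, ∀ x ∈ E i, ∀ y ∈ E' i, Pi.mulSingle i (x * y * x⁻¹ * y⁻¹) ∈ Z

/-- CNB (MEDIUM), from CNA. For each `j` let `e`, `e'` be the two subgroups of CNA. `B` = set of
`b` with `Pi.mulSingle j b ∈ Z` is a subgroup of `S j` contained in both `E j` and `E' j`, normal
in both. Let `S j` not be contained in `Z` (that is `B ≠ ⊤`). If `E j = ⊤` then `B` is normal in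
`S j`, so `B = ⊥`, and `E' j` centralises `S j`, so `E' j = ⊥`; the same with the roles exchanged. So
either both are proper or one is `⊤` and the other is `⊥`. In all cases
`(a^2 kc(E j) kc(E' j))^s ≤ |S j|^(2s+2r) (|S j : E j| |S j : E' j|)^t` (both proper: product of two
local bounds; `⊤, ⊥`: the bound for `a^2 kc(S j)`; `S j ≤ Z`: both are `⊤`, square of the last
hypothesis). Multiply over `j` and take square roots. -/
def StCNB : Prop :=
  ∀ (s t r n : ℕ) (S : Fin n → Type) [∀ i, Group (S i)] [∀ i, Finite (S i)],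
    (∀ i, IsSimpleGroup (S i)) → (∀ i, ¬ Group.IsSolvable (S i)) → ∀ a : Fin n → ℕ,
    (∀ i, ∀ Y : Subgroup (S i), Y ≠ ⊤ →
      (a i * ACD8.kc Y) ^ s ≤ Nat.card (S i) ^ (s + r) * Y.index ^ t) →
    (∀ i, (a i ^ 2 * ACD8.kc (S i)) ^ s ≤ Nat.card (S i) ^ (2 * s + 2 * r + t)) →
    ∀ Z : Subgroup (∀ i, S i),
    (∀ i, (∀ b : S i, Pi.mulSingle i b ∈ Z) →
      (a i * ACD8.kc (S i)) ^ s ≤ Nat.card (S i) ^ (s + r)) →
    ((∏ i, a i) * ACD8.kc Z) ^ s ≤ (∏ i, Nat.card (S i)) ^ (s + r) * Z.index ^ t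

/-- CNT (EASY-MEDIUM), from CNB and IPR: the same for an internal direct product (transport along
`Subgroup.noncommPiCoprod` and `ι ≃ Fin n`; `z` is the index of `Z` in `⨆ S i`). -/
def StCNT : Prop :=
  ∀ (s t r : ℕ) (H : Type) [Group H] [Finite H] (ι : Type) [Fintype ι] (S : ι → Subgroup H),
    (∀ i j, i ≠ j → ∀ x ∈ S i, ∀ y ∈ S j, x * y = y * x) → iSupIndep S →
    (∀ i, IsSimpleGroup (S i)) → (∀ i, ¬ Group.IsSolvable (S i)) → ∀ a : ι → ℕ,
    (∀ i, ∀ Y : Subgroup (S i), Y ≠ ⊤ →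
      (a i * ACD8.kc Y) ^ s ≤ Nat.card (S i) ^ (s + r) * Y.index ^ t) →
    (∀ i, (a i ^ 2 * ACD8.kc (S i)) ^ s ≤ Nat.card (S i) ^ (2 * s + 2 * r + t)) →
    ∀ Z : Subgroup H, Z ≤ ⨆ i, S i →
    (∀ i, S i ≤ Z → (a i * ACD8.kc (S i)) ^ s ≤ Nat.card (S i) ^ (s + r)) →
    ∃ z : ℕ, z * Nat.card Z = Nat.card (⨆ i, S i : Subgroup H) ∧
      ((∏ i, a i) * ACD8.kc Z) ^ s ≤ Nat.card (⨆ i, S i : Subgroup H) ^ (s + r) * z ^ t

/-- GRP (MEDIUM-HARD), from NSL, SOC, IPR, OUT, CNT. `ι` = the `S` in `SS H` with `S ≤ U` which are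
not `Few`; `F` = the subgroup of `U` generated by them (`F.map U.subtype = ⨆ S`), `M''` = subgroup
of `H` generated by the other members of `SS H`, `Z = U ⊓ M''` as a subgroup of `U`. Both are
normal in `U`: conjugation by elements of `U` permutes the `S ≤ U`, and `Few` is invariant under
isomorphism, so it permutes the rest too. `M = soc H = F M''`, `F ⊓ M'' = ⊥`, `U ⊓ M = F Z`
(`F ≤ U`), so `U / (F Z)` embeds in `H / M`: `kc V |M| ≤ ∏ 4 |Aut S|` (OUT). Put `h = |M''|` and let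
`κ` be the integral part of `∏_(all) 4|Aut S| / |M|`; then `κ |F| h ≤ ∏_(ι) · ∏_(rest)`. CNT for
the rest and `Z` (`S ≤ Z` implies `S ≤ U`, so `S` is `Few`) gives
`(∏_(rest) 4|Aut S| kc Z)^s ≤ h^(s+r) z^t`; multiply and cancel `h^s`. Finally `z ≤ |H:U|`:
`z = |M'' : U ⊓ M''| = |U M'' : U|`-many cosets (`relIndex` is at most the index). -/
def StGRP : Prop :=
  ∀ (s t r : ℕ) (H : Type) [Group H] [Finite H], ACD8.TrivRad H →
    (∀ S : Subgroup H, S.IsSubnormal → IsSimpleGroup S → Lc s t r S) → ∀ U : Subgroup H,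
    ∃ (ι : Type) (_ : Fintype ι) (S : ι → Subgroup H),
      (∀ i, (S i).IsSubnormal ∧ IsSimpleGroup (S i) ∧ ¬ Few s r (S i)) ∧
      ∃ (F Z : Subgroup U) (_ : F.Normal) (_ : Z.Normal), Disjoint F Z ∧
        Nonempty (F ≃* (∀ i, S i)) ∧
        ∃ κ h z : ℕ, (∀ V : Subgroup (U ⧸ (F ⊔ Z)), ACD8.kc V ≤ κ) ∧
          (κ * ACD8.kc Z * Nat.card F) ^ s ≤
            (∏ i, (4 * Nat.card (MulAut (S i)))) ^ s * (h ^ r * z ^ t) ∧
          z * Nat.card Z = h ∧ z ≤ U.index ∧ h ≤ Nat.card H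

/-- PRF (EASY). A simple group which is not solvable has no nontrivial linear characters. -/
def StPRF : Prop :=
  ∀ (S : Type) [Group S], IsSimpleGroup S → ¬ Group.IsSolvable S → ∀ f : S →* ℂˣ, f = 1

/-! ## The groups `PSL_2(q)` -/

/-- NCL (MEDIUM-HARD). Let `l` be invariant, `S = G / N`. The number of characters over `l` is at
least the number of classes of elements of `S` with a cyclic centraliser. Proof: for such `x` let
`A` be the preimage in `G` of the centraliser of `x`; `l` extends to `ξ` irreducible on `A` (cyclic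
quotient; `S_EXT` style or: take `ξ` over `l`, `A/N` cyclic; if the library has no extension lemma,
prove it: `l` affords `σ` on `N`, choose `Y` with `Y σ(n) Y⁻¹ = σ(a n a⁻¹)` for a generator `a`,
`Y^m = c σ(a^m)` by Schur, scale `Y`). The function equal to `ξ` on the coset `x N` and zero
elsewhere on `A` is a combination of the characters `ξ μ`, `μ` linear characters of `A / N`, which
are irreducible and over `l`. Its induced function on `G` is a combination of characters over `l`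
(Frobenius reciprocity, or: it is a class function in `WO l`, `prf_WOB`), supported on the
preimage of the class of `x`, and not zero: at a point `y` of `x N` it equals `ξ(y)` times a nonzero
constant, as `g⁻¹ y g` in `x N` forces `g` in `A`, and `Σ_(y in xN) |ξ(y)|^2 = |N|`. Functions for
different classes have disjoint supports, so they are independent in a space of dimension
`(ovr N l).card`. -/
def StNCL : Prop :=
  ∀ (G : Type) [Group G] [Fintype G] (N : Subgroup G) [N.Normal] [Fintype N] (l : N → ℂ),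
    IsIrrChar l → (∀ g : G, cj g l = l) →
    Nat.card {C : ConjClasses (G ⧸ N) // ∀ x : G ⧸ N, ConjClasses.mk x = C →
      IsCyclic (Subgroup.centralizer ({x} : Set (G ⧸ N)))} ≤ (ovr N l).card

/-- PCL (MEDIUM). Classes of `PSL_2(F)` with a cyclic centraliser: the images of
`diag(a, a⁻¹)` with `a^4 ≠ 1` (at least `q - 5` values of `a`); two of them are conjugate only if
`b = ± a` or `b = ± a⁻¹` (traces), so there are at least `(q-5)/4` classes. The centraliser:
`y x = ± x y`; the sign `-` is impossible as the trace of `x` is not zero (`a^2 ≠ -1`), and a matrix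
commuting with `x` is diagonal (`a ≠ a⁻¹`): the centraliser is the image of the diagonal
matrices, a quotient of the cyclic group of units of `F`. All elements of the class have conjugate
centralisers. -/
def StPCL : Prop :=
  ∀ (F : Type) [Field F] [Finite F],
    Nat.card F ≤ 4 * Nat.card {C : ConjClasses (Matrix.ProjectiveSpecialLinearGroup (Fin 2) F) //
      ∀ x, ConjClasses.mk x = C → IsCyclic (Subgroup.centralizer
        ({x} : Set (Matrix.ProjectiveSpecialLinearGroup (Fin 2) F)))} + 5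

/-- PKY (MEDIUM). Every subgroup of `PSL_2(F)` has at most `2q+1` classes. The centraliser of a
nontrivial element of `PSL_2(F)` has order at most `2q`: let `x` be a matrix of determinant one,
not scalar. The matrices of determinant one commuting with `x` are `α + β x`; for
each `β` the equation `det = 1` is a monic quadratic equation in `α`: at most `2q` of them. Those with
`y x = - x y` form a coset or the empty set: at most `2q`. If `q` is odd, `y` and `-y` have the same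
image: at most `4q/2`; if `q` is even both conditions agree. Then
`kc Y = (1/|Y|) Σ |C_Y(y)| ≤ (|Y| + |Y| 2q)/|Y|`. -/
def StPKY : Prop :=
  ∀ (F : Type) [Field F] [Finite F] (Y : Subgroup (Matrix.ProjectiveSpecialLinearGroup (Fin 2) F)),
    ACD8.kc Y ≤ 2 * Nat.card F + 1

/-- the image of a matrix of determinant one in `PSL_2(F)` -/
noncomputable abbrev pj {F : Type} [Field F] (x : Matrix.SpecialLinearGroup (Fin 2) F) :
    Matrix.ProjectiveSpecialLinearGroup (Fin 2) F := QuotientGroup.mk x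

/-- `u`, upper unitriangular with entry `b` -/
def mu1 {F : Type} [Field F] (b : F) : Matrix.SpecialLinearGroup (Fin 2) F :=
  ⟨!![1, b; 0, 1], by simp [Matrix.det_fin_two]⟩

/-- `w` -/
def mw {F : Type} [Field F] : Matrix.SpecialLinearGroup (Fin 2) F :=
  ⟨!![0, 1; -1, 0], by simp [Matrix.det_fin_two]⟩

/-- the diagonal matrix with entries `a`, `a⁻¹` -/
def mt {F : Type} [Field F] (a : Fˣ) : Matrix.SpecialLinearGroup (Fin 2) F :=
  ⟨!![(a : F), 0; 0, ((a⁻¹ : Fˣ) : F)], by simp [Matrix.det_fin_two]⟩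

/-- PA1 (MEDIUM). `PSL_2(F)` is generated by the images of `u(1)`, `w`, `t(a)`, `a` a generator of
the units. `t(a)^j u(1) t(a)^-j = u(a^(2j))`; the additive group generated by the powers of `a^2` is
the subfield generated by `a^2`, which is all of `F` (its order `q'` satisfies `q' - 1 ≥ (q-1)/2`
and `q` is a power of `q'`, so `q' = q` if `q ≥ 4`); so all `u(b)` are obtained, and their
conjugates by `w`, the lower ones; `SL_2(F)` is generated by these (Mathlib: transvections, or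
`H8/SLgen.lean`). -/
def StPA1 : Prop :=
  ∀ (F : Type) [Field F] [Finite F] (a : Fˣ), 4 ≤ Nat.card F → (∀ x : Fˣ, x ∈ Subgroup.zpowers a) →
    Subgroup.closure {pj (mu1 (1 : F)), pj (mw : Matrix.SpecialLinearGroup (Fin 2) F), pj (mt a)} = ⊤

/-- PA2 (MEDIUM). Possible images of `u(1)` and `w`: let `p` be the characteristic, `x`, `y` in
`PSL_2(F)` with `x^p = 1`, `x ≠ 1`, `y^2 = 1`, `y ≠ 1`, `(x y)^3 = 1`, `x y ≠ 1`. The number of
such pairs is at most `2 q (q^2 - 1)`. Proof: `x` is the image of `1 + n`, `n` nilpotent, not zero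
(if `U^p = ±1`, change the sign of `U` so that `U^p = 1`, `(U-1)^p = 0`): at most `q^2 - 1`
choices. Given `x`, conjugate in `GL_2(F)` such that `x = u(1)`; `y` is the image of `W` with
trace zero and determinant one, `W = [[α, β], [γ, -α]]`, and `u(1) W` has trace `γ`, and
`(u(1) W)^3 = ±1`, not scalar, so `γ = ±1`; `α` is free and `β` is then determined: at most `2q`
choices. -/
def StPA2 : Prop :=
  ∀ (F : Type) [Field F] [Finite F] (p : ℕ) [CharP F p] [Fact p.Prime],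
    Nat.card {z : Matrix.ProjectiveSpecialLinearGroup (Fin 2) F ×
        Matrix.ProjectiveSpecialLinearGroup (Fin 2) F //
      z.1 ^ p = 1 ∧ z.1 ≠ 1 ∧ z.2 ^ 2 = 1 ∧ z.2 ≠ 1 ∧ (z.1 * z.2) ^ 3 = 1 ∧ z.1 * z.2 ≠ 1} ≤
    2 * Nat.card F * (Nat.card F ^ 2 - 1)

/-- PA3 (MEDIUM-HARD). Given the images of `u(1)` and `w`, an automorphism has at most `log_2 q`
possibilities for the image of `t(a)`. Proof: by the proof of PA2 the pair `(α u(1), α w)` is
conjugate under `GL_2(F)` (which acts on `PSL_2(F)`) to `(u(1), w)` (after conjugating `α u(1)` to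
`u(1)`, conjugate `W = [[α, β], [1, -α]]` by `u(c)` such that the diagonal vanishes, then
`β = -1`, and `W` is `-w`), so we may assume that both automorphisms fix `u(1)` and `w`. Then
`t' = α t(a)` satisfies: `t' u(1) t'⁻¹` commutes with `u(1)`, so `t'` fixes the line of `u(1)`: upper
triangular; `w t' w⁻¹ = t'⁻¹`, so `t'` is also lower triangular: `t' = t(b)`. If
`Σ m_j X^j` is the minimal polynomial of `a^2` over the prime field, then
`∏ (t^j u(1) t^-j)^(m_j) = 1` (a relation in the commutative group of the `u`), so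
`Σ m_j b^(2j) = 0`: at most `f` values of `b^2` (`q = p^f`, `f ≤ log_2 q`), and `b^2` determines the
image of `t(b)`. -/
def StPA3 : Prop :=
  ∀ (F : Type) [Field F] [Finite F] (a : Fˣ), 4 ≤ Nat.card F → (∀ x : Fˣ, x ∈ Subgroup.zpowers a) →
    ∀ x y : Matrix.ProjectiveSpecialLinearGroup (Fin 2) F,
    Nat.card {z : Matrix.ProjectiveSpecialLinearGroup (Fin 2) F //
      ∃ α : MulAut (Matrix.ProjectiveSpecialLinearGroup (Fin 2) F),
        α (pj (mu1 (1 : F))) = x ∧ α (pj mw) = y ∧ α (pj (mt a)) = z} ≤ Nat.log 2 (Nat.card F)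

/-- PAU (EASY-MEDIUM), from PA1, PA2, PA3 and `prf_CARD`: an automorphism is determined by the
images of the three generators; `u(1)` has order `p`, `w` has order two (it is not `1`),
`u(1) w` has order three, so there are at most `2 q (q^2-1) log_2 q` automorphisms, and
`|PSL_2(q)| ≥ q (q^2-1)/2`. -/
def StPAU : Prop :=
  ∀ (F : Type) [Field F] [Finite F], 4 ≤ Nat.card F →
    Nat.card (MulAut (Matrix.ProjectiveSpecialLinearGroup (Fin 2) F)) ≤
      4 * Nat.log 2 (Nat.card F) * Nat.card (Matrix.ProjectiveSpecialLinearGroup (Fin 2) F)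

/-- PRI (MEDIUM), from NCL, PCL and the proved `prf_DEG`, `prf_ONE`, `prf_UNIP`, `prf_KPSL`,
`prf_PERF` (compare `prf_PSL` in `Bd/B05.lean`): `m = (q-1)/gcd(2,q-1) ≥ (q-1)/2`. Each character
over `l` has degree `l(1)` (at most one of them) or at least `m l(1)`; their number is at least
`(q-5)/4`, so the sum of the relative degrees is at least `((q-5)/4 - 1) (q-1)/2`; their number is
at most `(q+5)/2` (`q` odd) or `q+1` (`q` even), so the sum of the inverses is at most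
`1 + 2 = 3`. -/
def StPRI : Prop :=
  ∀ (F : Type) [Field F] [Finite F], 17 ≤ Nat.card F →
    Rich (Matrix.ProjectiveSpecialLinearGroup (Fin 2) F)
      (((Nat.card F : ℝ) - 9) * ((Nat.card F : ℝ) - 1) / 8) 3

/-- PTY (MEDIUM, numbers), from PRI, PKY, PAU, `prf_CARD`, `prf_IDX`, `prf_UNIP`, `prf_PERF`. Let
`q ≥ 2^128`, `L = log_2 q ≥ 128`, `q ≥ 2^L`, `|S| = q(q^2-1)/gcd(2,q-1)`, `|Aut S| ≤ 4 L |S|`,
`kc Y ≤ 2q+1`, `|S:Y| ≥ 1 + (q-1)/2 = (q+1)/2` for `Y ≠ ⊤`. First bound of `Lc 8 8 1`: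
`(16 L |S| (2q+1))^8 ≤ |S|^9 ((q+1)/2)^8` follows from `(64 L)^8 ≤ |S|`. Second:
`(16 L |S|)^16 (2q+1)^8 ≤ |S|^26`. `RichT 8 8`: with `τ = (q-9)(q-1)/8`, `ζ = 3`:
`16^24 (16 L |S|)^64 3^48 |S|^8 ≤ |S|^64 τ^16` follows from `16^3 (16 L)^8 3^6 |S| ≤ τ^2`, and
`|S| ≤ q^3`, `τ^2 ≥ q^4/128`, `2^61 L^8 ≤ 2^L ≤ q`. -/
def StPTY : Prop :=
  ∀ (F : Type) [Field F] [Finite F], 2 ^ 128 ≤ Nat.card F →
    Lc 8 8 1 (Matrix.ProjectiveSpecialLinearGroup (Fin 2) F) ∧
    RichT 8 8 (Matrix.ProjectiveSpecialLinearGroup (Fin 2) F)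

/-! ## The theorem -/

/-- THM (assembly, helper28), from STB, CLI, INV, NU0, ACB, GRP, NSL, PRF. -/
def StTHM : Prop :=
  ∀ (s t r : ℕ), 0 < s → s ≤ 2 * t → 8 * r + 2 * t ≤ 3 * s → ∀ (G : Type) [Group G] [Finite G]
    (N : Subgroup G) [N.Normal], ACD8.TrivRad (G ⧸ N) →
    (∀ S : Subgroup (G ⧸ N), S.IsSubnormal → IsSimpleGroup S →
      Lc s t r S ∧ (Few s r S ∨ RichT s t S)) →
    (Nat.card (G ⧸ N) : ℝ) ≤ RadAlt.acd G ^ 4

end Pool.Agent.RadIndex.RI
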